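import Mathlib

/-! General tools: fences, a two-sided Gronwall lemma, patching along separated centres,
bounds for periodic maps, traces in coordinates. -/

set_option autoImplicit false

open Set Filter Topology Metric
open scoped ContDiff

namespace Pool.Agent.P.MP_ff4c85_gt

theorem fence_fwd {f f' : ℝ → ℝ} {s t : ℝ} (hst : s ≤ t)
    (h : ∀ u ∈ Icc s t, HasDerivAt f (f' u) u) (hb : ∀ u ∈ Icc s t, f u = 0 → f' u < 0)
    (h0 : f s ≤ 0) : f t ≤ 0 :=
  image_le_of_deriv_right_lt_deriv_boundary (f := f) (f' := f') (a := s) (b := t)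
    (fun u hu => (h u hu).continuousAt.continuousWithinAt)
    (fun u hu => (h u (Ico_subset_Icc_self hu)).hasDerivWithinAt) (B := fun _ => 0)
    (B' := fun _ => 0) h0 (fun x => hasDerivAt_const x 0)
    (fun u hu => hb u (Ico_subset_Icc_self hu)) ⟨hst, le_rfl⟩

theorem has_neg {E : Type*} [NormedAddCommGroup E] [NormedSpace ℝ E] {f : ℝ → E} {f' : E} {u : ℝ}
    (h : HasDerivAt f f' (-u)) : HasDerivAt (fun x => f (-x)) (-f') u := by
  have := h.scomp u (hasDerivAt_neg u)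
  simpa [Function.comp_def] using this

theorem fence_bwd {f f' : ℝ → ℝ} {s t : ℝ} (hst : s ≤ t)
    (h : ∀ u ∈ Icc s t, HasDerivAt f (f' u) u) (hb : ∀ u ∈ Icc s t, f u = 0 → 0 < f' u)
    (h0 : f t ≤ 0) : f s ≤ 0 := by
  have hm : ∀ u ∈ Icc (-t) (-s), -u ∈ Icc s t := fun u hu => ⟨by linarith [hu.2], by linarith [hu.1]⟩
  have := fence_fwd (f := fun x => f (-x)) (f' := fun x => - f' (-x)) (neg_le_neg hst)
    (fun u hu => has_neg (h _ (hm u hu))) (fun u hu h1 => neg_neg_of_pos (hb _ (hm u hu) h1))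
    (by simpa using h0)
  simpa using this

theorem zero_of_bound {E : Type*} [NormedAddCommGroup E] [NormedSpace ℝ E] {f f' : ℝ → E}
    {K s t u0 : ℝ} (h : ∀ u ∈ Icc s t, HasDerivAt f (f' u) u)
    (hb : ∀ u ∈ Icc s t, ‖f' u‖ ≤ K * ‖f u‖) (hu0 : u0 ∈ Icc s t) (h0 : f u0 = 0) :
    ∀ u ∈ Icc s t, f u = 0 := by
  intro u hu
  rcases le_total u0 u with h1 | h1
  · have hs : Icc u0 t ⊆ Icc s t := Icc_subset_Icc_left hu0.1
    exact eq_zero_of_abs_deriv_le_mul_abs_self_of_eq_zero_right (f := f) (f' := f') (K := K)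
      (a := u0) (b := t) (fun x hx => (h x (hs hx)).continuousAt.continuousWithinAt)
      (fun x hx => (h x (hs (Ico_subset_Icc_self hx))).hasDerivWithinAt) h0
      (fun x hx => hb x (hs (Ico_subset_Icc_self hx))) u ⟨h1, hu.2⟩
  · have hm : ∀ x ∈ Icc (-u0) (-s), -x ∈ Icc s t := fun x hx =>
      ⟨by linarith [hx.2], by linarith [hx.1, hu0.2]⟩
    have := eq_zero_of_abs_deriv_le_mul_abs_self_of_eq_zero_right (f := fun x => f (-x))
      (f' := fun x => - f' (-x)) (K := K) (a := -u0) (b := -s)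
      (fun x hx => (has_neg (h _ (hm x hx))).continuousAt.continuousWithinAt)
      (fun x hx => (has_neg (h _ (hm x (Ico_subset_Icc_self hx)))).hasDerivWithinAt)
      (by simpa using h0)
      (fun x hx => by simpa using hb _ (hm x (Ico_subset_Icc_self hx))) (-u)
      ⟨by linarith, by linarith [hu.1]⟩
    simpa using this

theorem le_of_deriv_nonneg {f f' : ℝ → ℝ} {s t : ℝ} (hst : s ≤ t)
    (h : ∀ u ∈ Icc s t, HasDerivAt f (f' u) u) (hb : ∀ u ∈ Icc s t, 0 ≤ f' u) : f s ≤ f t := by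
  have := monotoneOn_of_deriv_nonneg (convex_Icc s t)
    (fun u hu => (h u hu).continuousAt.continuousWithinAt)
    (fun u hu => (h u (interior_subset hu)).differentiableAt.differentiableWithinAt)
    (fun u hu => by rw [(h u (interior_subset hu)).deriv]; exact hb u (interior_subset hu))
  exact this ⟨le_rfl, hst⟩ ⟨hst, le_rfl⟩ hst

theorem le_of_deriv_nonpos {f f' : ℝ → ℝ} {s t : ℝ} (hst : s ≤ t)
    (h : ∀ u ∈ Icc s t, HasDerivAt f (f' u) u) (hb : ∀ u ∈ Icc s t, f' u ≤ 0) : f t ≤ f s := by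
  have := le_of_deriv_nonneg (f := fun x => - f x) (f' := fun x => - f' x) hst
    (fun u hu => (h u hu).neg) (fun u hu => neg_nonneg.2 (hb u hu))
  simpa using this

theorem const_of_deriv_zero {E : Type*} [NormedAddCommGroup E] [NormedSpace ℝ E] {f : ℝ → E}
    {s t : ℝ} (hst : s ≤ t) (h : ∀ u ∈ Icc s t, HasDerivAt f 0 u) : f t = f s := by
  have := zero_of_bound (f := fun x => f x - f s) (f' := fun _ => 0) (K := 0)
    (fun u hu => (h u hu).sub_const (f s)) (fun u _ => by simp) ⟨le_rfl, hst⟩ (sub_self _) t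
    ⟨hst, le_rfl⟩
  exact sub_eq_zero.1 this

theorem ivt {f : ℝ → ℝ} (hf : Continuous f) {s t c : ℝ} (hst : s ≤ t) (h1 : f s ≤ c)
    (h2 : c ≤ f t) : ∃ u ∈ Icc s t, f u = c :=
  intermediate_value_Icc hst hf.continuousOn ⟨h1, h2⟩

theorem ivt2 {f : ℝ → ℝ} (hf : Continuous f) {s t u w c : ℝ} (hu : u ∈ Icc s t) (hw : w ∈ Icc s t)
    (h1 : f u ≤ c) (h2 : c ≤ f w) : ∃ x ∈ Icc s t, f x = c :=
  isPreconnected_Icc.intermediate_value hu hw hf.continuousOn ⟨h1, h2⟩

/-! ### Patching -/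

section Patch

variable {E F I : Type*} [NormedAddCommGroup E] [NormedAddCommGroup F]

open Classical in
/-- copies of `H` placed at the centres `c i` -/
noncomputable def patch (c : I → E) (H : E → F) (x : E) : F :=
  if h : ∃ i, ‖x - c i‖ < 5 then H (x - c h.choose) else 0

/-- distinct centres are at distance at least ten -/
def Sep (c : I → E) : Prop := ∀ i j, ‖c i - c j‖ < 10 → c i = c j

/-- vanishing outside the ball of radius four -/
def Van (H : E → F) : Prop := ∀ x, 4 < ‖x‖ → H x = 0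

variable {c : I → E} {H : E → F}

theorem patch_cases (c : I → E) (H : E → F) (x : E) :
    (∃ i, ‖x - c i‖ < 5 ∧ patch c H x = H (x - c i)) ∨
      ((∀ i, 5 ≤ ‖x - c i‖) ∧ patch c H x = 0) := by
  unfold patch
  split_ifs with h
  · exact Or.inl ⟨_, h.choose_spec, rfl⟩
  · exact Or.inr ⟨fun i => not_lt.1 fun h' => h ⟨i, h'⟩, rfl⟩

theorem patch_eq (hc : Sep c) (hH : Van H) {x : E} {i : I} (h : ‖x - c i‖ < 6) :
    patch c H x = H (x - c i) := by
  rcases patch_cases c H x with ⟨j, h1, h2⟩ | ⟨h1, h2⟩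
  · rw [h2]
    by_cases h3 : ‖c i - c j‖ < 10
    · rw [hc i j h3]
    · have h4 : ‖c i - c j‖ ≤ ‖x - c i‖ + ‖x - c j‖ := by
        rw [show c i - c j = (x - c j) - (x - c i) by abel, add_comm]
        exact norm_sub_le _ _
      rw [hH _ (by linarith), hH _ (by linarith)]
  · rw [h2, hH _ (by linarith [h1 i])]

theorem patch_loc (hc : Sep c) (hH : Van H) (x : E) :
    (∃ i, ‖x - c i‖ < 5 ∧ patch c H =ᶠ[𝓝 x] fun y => H (y - c i)) ∨
      ((∀ i, 5 ≤ ‖x - c i‖) ∧ patch c H =ᶠ[𝓝 x] fun _ => 0) := by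
  have hb : ∀ᶠ y in 𝓝 x, ‖y - x‖ < 1 := by
    filter_upwards [ball_mem_nhds x one_pos] with y hy using mem_ball_iff_norm.1 hy
  by_cases h : ∃ i, ‖x - c i‖ < 5
  · obtain ⟨i, hi⟩ := h
    refine Or.inl ⟨i, hi, hb.mono fun y hy => patch_eq hc hH ?_⟩
    have := norm_add_le (y - x) (x - c i)
    rw [sub_add_sub_cancel] at this
    linarith
  · have h' : ∀ i, 5 ≤ ‖x - c i‖ := fun i => not_lt.1 fun h' => h ⟨i, h'⟩
    refine Or.inr ⟨h', hb.mono fun y hy => ?_⟩
    rcases patch_cases c H y with ⟨j, -, h2⟩ | ⟨-, h2⟩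
    · rw [h2]
      refine hH _ ?_
      have h3 := norm_sub_le (y - c j) (y - x)
      rw [show y - c j - (y - x) = x - c j by abel] at h3
      linarith [h' j]
    · exact h2

theorem patch_cd [NormedSpace ℝ E] [NormedSpace ℝ F] (hc : Sep c) (hH : Van H)
    (hd : ContDiff ℝ ∞ H) : ContDiff ℝ ∞ (patch c H) := by
  refine contDiff_iff_contDiffAt.2 fun x => ?_
  rcases patch_loc hc hH x with ⟨i, -, h⟩ | ⟨-, h⟩
  · exact (hd.comp (contDiff_id.sub contDiff_const)).contDiffAt.congr_of_eventuallyEq h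
  · exact contDiffAt_const.congr_of_eventuallyEq h

theorem patch_per (hc : Sep c) (hH : Van H) {w : E} (h1 : ∀ i, ∃ j, c j = c i + w)
    (h2 : ∀ i, ∃ j, c j = c i - w) (x : E) : patch c H (x + w) = patch c H x := by
  rcases patch_cases c H x with ⟨i, h3, h4⟩ | ⟨h3, h4⟩
  · obtain ⟨j, hj⟩ := h1 i
    have h5 : x + w - c j = x - c i := by rw [hj]; abel
    rw [h4, patch_eq hc hH (i := j) (by rw [h5]; linarith), h5]
  · rcases patch_cases c H (x + w) with ⟨i, h5, -⟩ | ⟨-, h6⟩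
    · obtain ⟨j, hj⟩ := h2 i
      have := h3 j
      rw [hj, show x - (c i - w) = x + w - c i by abel] at this
      linarith
    · rw [h4, h6]

end Patch

/-- A smooth map that is invariant under a cocompact family of translations is bounded
together with its derivative. -/
theorem bdd_of_per {E F : Type*} [NormedAddCommGroup E] [NormedSpace ℝ E] [FiniteDimensional ℝ E]
    [NormedAddCommGroup F] [NormedSpace ℝ F] {W : E → F} (hW : ContDiff ℝ ∞ W) {R : ℝ}
    (h : ∀ x, ∃ w, ‖x + w‖ ≤ R ∧ ∀ y, W (y + w) = W y) :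
    ∃ K : NNReal, LipschitzWith K W ∧ (∀ x, ‖W x‖ ≤ K) ∧ ∀ x, ‖fderiv ℝ W x‖ ≤ K := by
  have : ProperSpace E := FiniteDimensional.proper_real E
  obtain ⟨C1, h1⟩ := (isCompact_closedBall (0 : E) R).exists_bound_of_continuousOn
    hW.continuous.continuousOn
  obtain ⟨C2, h2⟩ := (isCompact_closedBall (0 : E) R).exists_bound_of_continuousOn
    (hW.continuous_fderiv (by simp)).continuousOn
  have h3 : ∀ x, ‖W x‖ ≤ (max C1 C2).toNNReal ∧ ‖fderiv ℝ W x‖ ≤ (max C1 C2).toNNReal := by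
    intro x
    obtain ⟨w, hw, hp⟩ := h x
    have hm : x + w ∈ closedBall (0 : E) R := mem_closedBall_zero_iff.2 hw
    have h4 : fderiv ℝ W x = fderiv ℝ W (x + w) := by
      rw [← fderiv_comp_add_right w, funext hp]
    rw [h4, ← hp x]
    exact ⟨(h1 _ hm).trans ((le_max_left _ _).trans (Real.le_coe_toNNReal _)),
      (h2 _ hm).trans ((le_max_right _ _).trans (Real.le_coe_toNNReal _))⟩
  exact ⟨_, lipschitzWith_of_nnnorm_fderiv_le (hW.differentiable (by simp))
    fun x => (h3 x).2, fun x => (h3 x).1, fun x => (h3 x).2⟩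

/-- derivative along a line -/
theorem has_line {E F : Type*} [NormedAddCommGroup E] [NormedSpace ℝ E] [NormedAddCommGroup F]
    [NormedSpace ℝ F] {Y : E → F} {x : E} (hY : DifferentiableAt ℝ Y x) (w : E) :
    HasDerivAt (fun s : ℝ => Y (x + s • w)) (fderiv ℝ Y x w) 0 :=
  hY.hasFDerivAt.hasLineDerivAt w

/-- three-space and four-space -/
abbrev E3 := ℂ × ℝ

abbrev E4 := (ℂ × ℝ) × ℝ

/-- the divergence in coordinates -/
noncomputable def dv (Y : E3 → E3) (x : E3) : ℝ :=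
  (fderiv ℝ Y x (1, 0)).1.re + (fderiv ℝ Y x (Complex.I, 0)).1.im + (fderiv ℝ Y x (0, 1)).2

theorem dv_cd {Y : E3 → E3} (hY : ContDiff ℝ ∞ Y) : ContDiff ℝ ∞ (dv Y) := by
  have h : ContDiff ℝ ∞ (fderiv ℝ Y) := (contDiff_infty_iff_fderiv.1 hY).2
  exact ((Complex.reCLM.contDiff.comp (h.clm_apply contDiff_const).fst).add
    (Complex.imCLM.contDiff.comp (h.clm_apply contDiff_const).fst)).add
    (h.clm_apply contDiff_const).snd

theorem trace4 (A : E4 →ₗ[ℝ] E4) : LinearMap.trace ℝ E4 A =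
    (A ((1, 0), 0)).1.1.re + (A ((Complex.I, 0), 0)).1.1.im + (A ((0, 1), 0)).1.2 +
      (A (0, 1)).2 := by
  rw [LinearMap.trace_eq_matrix_trace ℝ
    ((Complex.basisOneI.prod (Module.Basis.singleton Unit ℝ)).prod (Module.Basis.singleton Unit ℝ))]
  simp [Matrix.trace, LinearMap.toMatrix_apply, Fintype.sum_sum_type, Module.Basis.prod_apply]

end Pool.Agent.P.MP_ff4c85_gt
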