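import Pool.Agent.P.MP_ff4c85_gt.Fun
import Pool.Agent.P.MP_ff4c85_gt.Tools

/-! The plug: the field in one cell, its divergence and its orbits. -/

set_option autoImplicit false

open Set Filter Topology Complex
open scoped ContDiff

namespace Pool.Agent.P.MP_ff4c85_gt

/-- the radial coordinate -/
def vv (ζ : ℂ) : ℝ := ζ.re ^ 2 + ζ.im ^ 2 - 2

theorem vv_norm (ζ : ℂ) : vv ζ + 2 = ‖ζ‖ ^ 2 := by
  rw [Complex.sq_norm, Complex.normSq_apply, vv]; ring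

theorem vv_cd : ContDiff ℝ ∞ vv :=
  ((reCLM.contDiff.pow 2).add (imCLM.contDiff.pow 2)).sub contDiff_const

theorem norm_lt_of_vv {ζ : ℂ} (h : vv ζ ≤ 1) : ‖ζ‖ < 2 := by
  have := vv_norm ζ
  nlinarith [norm_nonneg ζ]

/-- a rotationally symmetric field -/
noncomputable def rot (m1 g1 m2 g2 : ℝ → ℝ) (h : E3 → ℝ) (x : E3) : E3 :=
  ((((m1 x.2 * g1 (vv x.1) : ℝ) : ℂ) + ((m2 x.2 * g2 (vv x.1) : ℝ) : ℂ) * I) * x.1, h x)

theorem rot_cd {m1 g1 m2 g2 : ℝ → ℝ} {h : E3 → ℝ} (h1 : ContDiff ℝ ∞ m1) (h2 : ContDiff ℝ ∞ g1)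
    (h3 : ContDiff ℝ ∞ m2) (h4 : ContDiff ℝ ∞ g2) (h5 : ContDiff ℝ ∞ h) :
    ContDiff ℝ ∞ (rot m1 g1 m2 g2 h) := by
  have hv : ContDiff ℝ ∞ fun x : E3 => vv x.1 := vv_cd.comp contDiff_fst
  exact (((ofRealCLM.contDiff.comp ((h1.comp contDiff_snd).mul (h2.comp hv))).add
    ((ofRealCLM.contDiff.comp ((h3.comp contDiff_snd).mul (h4.comp hv))).mul contDiff_const)).mul
    contDiff_fst).prodMk h5

theorem rot_re (m1 g1 m2 g2 : ℝ → ℝ) (h : E3 → ℝ) (x : E3) : (rot m1 g1 m2 g2 h x).1.re =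
    m1 x.2 * g1 (vv x.1) * x.1.re - m2 x.2 * g2 (vv x.1) * x.1.im := by
  simp [rot]

theorem rot_im (m1 g1 m2 g2 : ℝ → ℝ) (h : E3 → ℝ) (x : E3) : (rot m1 g1 m2 g2 h x).1.im =
    m1 x.2 * g1 (vv x.1) * x.1.im + m2 x.2 * g2 (vv x.1) * x.1.re := by
  simp [rot]

theorem has_re {η : ℝ → E3} {w : E3} {u : ℝ} (h : HasDerivAt η w u) :
    HasDerivAt (fun s => (η s).1.re) w.1.re u :=
  (reCLM.comp (ContinuousLinearMap.fst ℝ ℂ ℝ)).hasFDerivAt.comp_hasDerivAt u h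

theorem has_im {η : ℝ → E3} {w : E3} {u : ℝ} (h : HasDerivAt η w u) :
    HasDerivAt (fun s => (η s).1.im) w.1.im u :=
  (imCLM.comp (ContinuousLinearMap.fst ℝ ℂ ℝ)).hasFDerivAt.comp_hasDerivAt u h

theorem has_fst {η : ℝ → E3} {w : E3} {u : ℝ} (h : HasDerivAt η w u) :
    HasDerivAt (fun s => (η s).1) w.1 u :=
  (ContinuousLinearMap.fst ℝ ℂ ℝ).hasFDerivAt.comp_hasDerivAt u h

theorem has_snd {η : ℝ → E3} {w : E3} {u : ℝ} (h : HasDerivAt η w u) :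
    HasDerivAt (fun s => (η s).2) w.2 u :=
  (ContinuousLinearMap.snd ℝ ℂ ℝ).hasFDerivAt.comp_hasDerivAt u h

theorem has_vv {η : ℝ → E3} {w : E3} {u : ℝ} (h : HasDerivAt η w u) :
    HasDerivAt (fun s => vv (η s).1) (2 * (η u).1.re * w.1.re + 2 * (η u).1.im * w.1.im) u := by
  refine ((((has_re h).pow 2).add ((has_im h).pow 2)).sub_const 2).congr_deriv ?_
  simp

theorem line_has (x w : E3) : HasDerivAt (fun s : ℝ => x + s • w) w 0 := by
  simpa using ((hasDerivAt_id (0 : ℝ)).smul_const w).const_add x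

theorem rot_dv {m1 g1 m2 g2 : ℝ → ℝ} {h : E3 → ℝ} (h1 : ContDiff ℝ ∞ m1) (h2 : ContDiff ℝ ∞ g1)
    (h3 : ContDiff ℝ ∞ m2) (h4 : ContDiff ℝ ∞ g2) (h5 : ContDiff ℝ ∞ h) (x : E3) {d : ℝ}
    (hd : HasDerivAt (fun z => h (x.1, z)) d x.2) :
    dv (rot m1 g1 m2 g2 h) x =
      m1 x.2 * (2 * g1 (vv x.1) + 2 * (vv x.1 + 2) * deriv g1 (vv x.1)) + d := by
  have hY := (rot_cd h1 h2 h3 h4 h5).differentiable (by simp) x
  have hg : ∀ (g : ℝ → ℝ), ContDiff ℝ ∞ g → ∀ w : E3,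
      HasDerivAt (fun s : ℝ => g (vv (x + s • w).1))
        (deriv g (vv x.1) * (2 * x.1.re * w.1.re + 2 * x.1.im * w.1.im)) 0 := by
    intro g hg w
    have a1 := has_vv (line_has x w)
    have a2 : HasDerivAt g (deriv g (vv x.1)) (vv (x + (0 : ℝ) • w).1) := by
      simpa using (hg.differentiable (by simp) (vv x.1)).hasDerivAt
    refine (a2.comp 0 a1).congr_deriv ?_
    simp
  have e1 : (fderiv ℝ (rot m1 g1 m2 g2 h) x (1, 0)).1.re =
      m1 x.2 * (deriv g1 (vv x.1) * (2 * x.1.re) * x.1.re + g1 (vv x.1)) -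
        m2 x.2 * (deriv g2 (vv x.1) * (2 * x.1.re)) * x.1.im := by
    refine (has_re (has_line hY (1, 0))).unique ?_
    have a := ((((hg g1 h2 (1, 0)).const_mul (m1 x.2)).mul (has_re (line_has x (1, 0)))).sub
      (((hg g2 h4 (1, 0)).const_mul (m2 x.2)).mul (has_im (line_has x (1, 0)))))
    refine (a.congr_deriv ?_).congr_of_eventuallyEq (Eventually.of_forall fun s => ?_)
    · simp; ring
    · simp [rot_re]
  have e2 : (fderiv ℝ (rot m1 g1 m2 g2 h) x (I, 0)).1.im =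
      m1 x.2 * (deriv g1 (vv x.1) * (2 * x.1.im) * x.1.im + g1 (vv x.1)) +
        m2 x.2 * (deriv g2 (vv x.1) * (2 * x.1.im)) * x.1.re := by
    refine (has_im (has_line hY (I, 0))).unique ?_
    have a := ((((hg g1 h2 (I, 0)).const_mul (m1 x.2)).mul (has_im (line_has x (I, 0)))).add
      (((hg g2 h4 (I, 0)).const_mul (m2 x.2)).mul (has_re (line_has x (I, 0)))))
    refine (a.congr_deriv ?_).congr_of_eventuallyEq (Eventually.of_forall fun s => ?_)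
    · simp; ring
    · simp [rot_im]
  have e3 : (fderiv ℝ (rot m1 g1 m2 g2 h) x (0, 1)).2 = d := by
    refine (has_snd (has_line hY (0, 1))).unique ?_
    have a : HasDerivAt (fun z => h (x.1, z)) d (x.2 + 0) := by simpa using hd
    refine (a.comp_const_add x.2 0).congr_of_eventuallyEq (Eventually.of_forall fun s => ?_)
    have : x + s • ((0, 1) : E3) = (x.1, x.2 + s) := by ext <;> simp
    simp only [this, rot]
  unfold dv
  rw [e1, e2, e3, vv]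
  ring

variable (R : Rad)

/-- the vertical speed of the plug, minus one -/
noncomputable def h0 (x : E3) : ℝ := deriv R.b (vv x.1) * mm x.2 - nn x.2 * R.q (vv x.1)

/-- the plug minus the vertical field -/
noncomputable def H0 : E3 → E3 :=
  rot (fun z => - deriv mm z) R.g (fun z => - deriv mm z) R.om (h0 R)

/-- the rotation in the source box -/
noncomputable def Z0 : E3 → E3 := rot (fun _ => 0) (fun _ => 0) rr R.q (fun _ => 0)

theorem h0_cd : ContDiff ℝ ∞ (h0 R) := by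
  have hv : ContDiff ℝ ∞ fun x : E3 => vv x.1 := vv_cd.comp contDiff_fst
  exact (((cd_deriv R.b_cd).comp hv).mul (mm_cd.comp contDiff_snd)).sub
    ((nn_cd.comp contDiff_snd).mul (R.q_cd.comp hv))

theorem H0_cd : ContDiff ℝ ∞ (H0 R) :=
  rot_cd (cd_deriv mm_cd).neg R.g_cd (cd_deriv mm_cd).neg R.om_cd (h0_cd R)

theorem Z0_cd : ContDiff ℝ ∞ (Z0 R) :=
  rot_cd contDiff_const contDiff_const rr_cd R.q_cd contDiff_const

theorem H0_dv (x : E3) : dv (H0 R) x = -(deriv nn x.2 * R.q (vv x.1)) := by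
  have hd : HasDerivAt (fun z => h0 R (x.1, z))
      (deriv R.b (vv x.1) * deriv mm x.2 - deriv nn x.2 * R.q (vv x.1)) x.2 :=
    ((mm_has x.2).const_mul (deriv R.b (vv x.1))).sub ((nn_has x.2).mul_const (R.q (vv x.1)))
  unfold H0
  rw [rot_dv (cd_deriv mm_cd).neg R.g_cd (cd_deriv mm_cd).neg R.om_cd (h0_cd R) x hd]
  have h1 : HasDerivAt (fun v => 2 * (v + 2) * R.g v)
      (2 * R.g (vv x.1) + 2 * (vv x.1 + 2) * deriv R.g (vv x.1)) (vv x.1) := by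
    refine ((((hasDerivAt_id (vv x.1)).add_const 2).const_mul 2).mul
      (R.g_cd.differentiable (by simp) (vv x.1)).hasDerivAt).congr_deriv ?_
    simp
  rw [funext R.g_eq] at h1
  have h2 : deriv R.b (vv x.1) = _ := h1.deriv
  rw [← h2]
  ring

theorem Z0_dv (x : E3) : dv (Z0 R) x = 0 := by
  unfold Z0
  rw [rot_dv contDiff_const contDiff_const rr_cd R.q_cd contDiff_const x
    (hasDerivAt_const x.2 (0 : ℝ))]
  simp

theorem H0_fst {x : E3} (h : 1 ≤ |vv x.1|) : (H0 R x).1 = 0 := by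
  simp [H0, rot, R.g_out _ h, R.om_out _ (by linarith [R.a_le])]

theorem far_cases {x : E3} (h : 4 < ‖x‖) : 1 < |vv x.1| ∨ 4 < |x.2| := by
  rw [Prod.norm_def, lt_max_iff] at h
  rcases h with h | h
  · left
    have := vv_norm x.1
    exact lt_abs.2 (Or.inl (by nlinarith))
  · exact Or.inr h

theorem H0_van : Van (H0 R) := by
  intro x hx
  rcases far_cases hx with h | h
  · refine Prod.ext (H0_fst R h.le) ?_
    have h1 : deriv R.b (vv x.1) = 0 :=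
      deriv_zero_of ((ev_abs_gt h).mono fun y hy => R.b_out y hy.le)
    simp [H0, rot, h0, h1, R.q_out _ (by linarith [R.a_le])]
  · simp [H0, rot, h0, dmm_out h, mm_out h.le, nn_out (by linarith : 3 ≤ |x.2|), Prod.mk_zero_zero]

theorem Z0_ne {x : E3} (h : Z0 R x ≠ 0) : |vv x.1| ≤ R.a ∧ 2 ≤ x.2 ∧ x.2 ≤ 3 := by
  refine ⟨?_, rr_ne fun h' => h ?_⟩
  · by_contra hn
    exact h (by simp [Z0, rot, R.q_out _ (not_le.1 hn).le, Prod.mk_zero_zero])
  · simp [Z0, rot, h', Prod.mk_zero_zero]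

theorem Z0_van : Van (Z0 R) := by
  intro x hx
  by_contra hn
  obtain ⟨h1, h2, h3⟩ := Z0_ne R hn
  rcases far_cases hx with h | h
  · linarith [R.a_le]
  · rw [abs_of_nonneg (by linarith)] at h
    linarith

theorem h0_pos {x : E3} (h : R.a ≤ |vv x.1| ∨ x.2 = 0 ∨ 4 ≤ |x.2|) : 0 < 1 + h0 R x := by
  have hout : R.a ≤ |vv x.1| → 0 < 1 + h0 R x := fun h => by
    have h1 := R.db (vv x.1)
    have h2 := mm_mem x.2
    unfold h0
    rw [R.q_out _ h]
    nlinarith [h2.1, h2.2]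
  rcases h with h | h | h
  · exact hout h
  · by_cases h1 : R.a ≤ |vv x.1|
    · exact hout h1
    · have h2 := (R.b_in (vv x.1) (by linarith [R.a_pos, not_le.1 h1])).2
      have h3 := (R.q_mem (vv x.1)).2
      unfold h0
      rw [h2, h, mm_zero, nn_one (by norm_num)]
      linarith
  · unfold h0
    rw [mm_out h, nn_out (by linarith)]
    norm_num

theorem rot_v (m1 g1 m2 g2 : ℝ → ℝ) (h : E3 → ℝ) (x : E3) :
    2 * x.1.re * (rot m1 g1 m2 g2 h x).1.re + 2 * x.1.im * (rot m1 g1 m2 g2 h x).1.im =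
      m1 x.2 * (2 * (vv x.1 + 2) * g1 (vv x.1)) := by
  rw [rot_re, rot_im, vv]; ring

theorem rot_t (m1 g1 m2 g2 : ℝ → ℝ) (h : E3 → ℝ) (x : E3) :
    x.1.re * (rot m1 g1 m2 g2 h x).1.im - x.1.im * (rot m1 g1 m2 g2 h x).1.re =
      m2 x.2 * g2 (vv x.1) * (vv x.1 + 2) := by
  rw [rot_re, rot_im, vv]; ring

theorem H0_v (x : E3) : 2 * x.1.re * (H0 R x).1.re + 2 * x.1.im * (H0 R x).1.im =
    -(deriv mm x.2 * R.b (vv x.1)) := by
  unfold H0
  rw [rot_v, R.g_eq]; ring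

theorem H0_ne {x : E3} {e : ℝ} (he : 0 ≤ e) : H0 R x + (0, 1 + e) ≠ 0 := by
  intro h
  have h1 : (H0 R x).1 = 0 := by simpa using congrArg Prod.fst h
  have h2 : h0 R x + (1 + e) = 0 := congrArg Prod.snd h
  have h3 : ¬ (R.a ≤ |vv x.1| ∨ x.2 = 0 ∨ 4 ≤ |x.2|) := fun h' => by
    linarith [h0_pos R h']
  simp only [not_or, not_le] at h3
  have h4 : deriv mm x.2 ≠ 0 := fun h' => by
    have := mm_strict h3.2.1 h3.2.2
    rw [h', mul_zero] at this
    exact lt_irrefl _ this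
  have h5 := H0_v R x
  rw [h1, (R.b_in _ (by linarith [R.a_pos, h3.1])).1] at h5
  have h6 : vv x.1 = 0 := by simpa [h4] using h5
  have h7 := rot_t (fun z => - deriv mm z) R.g (fun z => - deriv mm z) R.om (h0 R) x
  rw [show rot (fun z => - deriv mm z) R.g (fun z => - deriv mm z) R.om (h0 R) x = H0 R x from rfl,
    h1, h6, R.om_zero] at h7
  simp [h4] at h7

/-- the barrier function -/
noncomputable def bar (δ : ℝ) (x : E3) : ℝ := 1 + mm x.2 + δ - R.A (vv x.1)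

theorem bar_cont (δ : ℝ) : Continuous (bar R δ) := by
  have h1 : Continuous R.A := continuous_iff_continuousAt.2 fun v => (R.A_has v).continuousAt
  exact ((continuous_const.add (mm_cd.continuous.comp continuous_snd)).add continuous_const).sub
    (h1.comp (vv_cd.continuous.comp continuous_fst))

theorem bar_neg {δ : ℝ} (hδ : δ < 1 / 2) {x : E3} (h1 : |vv x.1| ≤ 2 * R.a) (h2 : 2 ≤ |x.2|) :
    bar R δ x < 0 := by
  unfold bar
  linarith [mm_small h2, (R.A_mem _ h1).1]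

theorem bar_pos {δ : ℝ} (hδ : 0 < δ) {x : E3} (h1 : |vv x.1| ≤ 2 * R.a) (h2 : x.2 = 0) :
    0 < bar R δ x := by
  unfold bar
  rw [h2, mm_zero]
  linarith [(R.A_mem _ h1).2]

/-- `η` follows the plug, with the extra vertical drift `δ G`, during `[s, t]` -/
def Sol (δ : ℝ) (η : ℝ → E3) (G : ℝ → ℝ) (s t : ℝ) : Prop :=
  ∀ u ∈ Icc s t, HasDerivAt η (H0 R (η u) + (0, 1 + δ * G u)) u ∧ 0 ≤ G u ∧ G u < 1

variable {R} {δ : ℝ} {η : ℝ → E3} {G : ℝ → ℝ} {s t : ℝ}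

theorem Sol.mono (h : Sol R δ η G s t) {s' t' : ℝ} (hs : s ≤ s') (ht : t' ≤ t) :
    Sol R δ η G s' t' := fun u hu => h u ⟨hs.trans hu.1, hu.2.trans ht⟩

theorem Sol.z (h : Sol R δ η G s t) {u : ℝ} (hu : u ∈ Icc s t) :
    HasDerivAt (fun w => (η w).2) (h0 R (η u) + (1 + δ * G u)) u := has_snd (h u hu).1

theorem Sol.v (h : Sol R δ η G s t) {u : ℝ} (hu : u ∈ Icc s t) :
    HasDerivAt (fun w => vv (η w).1) (-(deriv mm (η u).2 * R.b (vv (η u).1))) u := by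
  refine (has_vv (h u hu).1).congr_deriv ?_
  rw [← H0_v]
  simp

theorem Sol.sq (h : Sol R δ η G s t) {u : ℝ} (hu : u ∈ Icc s t) :
    HasDerivAt (fun w => vv (η w).1 ^ 2)
      (-(2 * (deriv mm (η u).2 * (vv (η u).1 * R.b (vv (η u).1))))) u := by
  refine ((h.v hu).pow 2).congr_deriv ?_
  simp; ring

theorem Sol.lower (h : Sol R δ η G s t) (hst : s ≤ t) (hz : ∀ u ∈ Icc s t, (η u).2 ≤ 0) :
    |vv (η t).1| ≤ |vv (η s).1| :=
  sq_le_sq.1 (le_of_deriv_nonpos hst (fun _ hu => h.sq hu) fun u hu => by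
    have := mul_nonneg (dmm_lower (hz u hu)) (R.b_sign (vv (η u).1))
    linarith)

theorem Sol.upper (h : Sol R δ η G s t) (hst : s ≤ t) (hz : ∀ u ∈ Icc s t, 0 ≤ (η u).2) :
    |vv (η s).1| ≤ |vv (η t).1| :=
  sq_le_sq.1 (le_of_deriv_nonneg hst (fun _ hu => h.sq hu) fun u hu => by
    have := mul_nonpos_of_nonpos_of_nonneg (dmm_upper (hz u hu)) (R.b_sign (vv (η u).1))
    linarith)

theorem Sol.barr (h : Sol R δ η G s t) {u : ℝ} (hu : u ∈ Icc s t) :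
    HasDerivAt (fun w => bar R δ (η w))
      (deriv mm (η u).2 * (h0 R (η u) + (1 + δ * G u)) -
        R.A' (vv (η u).1) * -(deriv mm (η u).2 * R.b (vv (η u).1))) u :=
  ((((mm_has _).comp u (h.z hu)).const_add 1).add_const δ).sub ((R.A_has _).comp u (h.v hu))

theorem bar_der (hδ : δ < 1 / 2) (hδ0 : 0 < δ) {x : E3} {e : ℝ} (h1 : |vv x.1| ≤ 2 * R.a)
    (h2 : bar R δ x = 0) : x.2 ≠ 0 ∧ |x.2| < 4 ∧
      deriv mm x.2 * (h0 R x + (1 + δ * e)) - R.A' (vv x.1) * -(deriv mm x.2 * R.b (vv x.1)) =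
        -(deriv mm x.2 * (δ * (1 - e))) := by
  have h3 : |x.2| < 2 := by
    by_contra hn
    linarith [bar_neg R hδ h1 (not_lt.1 hn)]
  refine ⟨fun h => by linarith [bar_pos R hδ0 h1 h], by linarith, ?_⟩
  unfold bar at h2
  unfold h0
  rw [(R.b_in _ h1).1, (R.b_in _ h1).2, nn_one h3.le, ← R.A_eq (vv x.1)]
  have : R.A (vv x.1) = 1 + mm x.2 + δ := by linarith
  rw [this]
  ring

theorem Sol.trap_lower (h : Sol R δ η G s t) (hδ : δ < 1 / 2) (hδ0 : 0 < δ) (hst : s ≤ t)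
    (hz : ∀ u ∈ Icc s t, (η u).2 ≤ 0) (hv : |vv (η s).1| ≤ 2 * R.a) (hb : bar R δ (η s) ≤ 0) :
    (η t).2 ≠ 0 := by
  have h1 : ∀ u ∈ Icc s t, |vv (η u).1| ≤ 2 * R.a := fun u hu =>
    ((h.mono le_rfl hu.2).lower hu.1 fun w hw => hz w ⟨hw.1, hw.2.trans hu.2⟩).trans hv
  have h2 := fence_fwd hst (fun _ hu => h.barr hu) (fun u hu hb0 => by
    obtain ⟨a1, a2, a3⟩ := bar_der (e := G u) hδ hδ0 (h1 u hu) hb0
    rw [a3]
    have a4 := mm_strict a1 a2
    have a5 : (η u).2 < 0 := lt_of_le_of_ne (hz u hu) a1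
    have a6 : 0 < deriv mm (η u).2 := by
      by_contra hn
      nlinarith [mul_nonneg_of_nonpos_of_nonpos a5.le (not_lt.1 hn)]
    have a7 : 0 < δ * (1 - G u) := mul_pos hδ0 (by linarith [(h u hu).2.2])
    exact neg_neg_of_pos (mul_pos a6 a7)) hb
  intro h3
  linarith [bar_pos R hδ0 (h1 t ⟨hst, le_rfl⟩) h3]

theorem Sol.trap_upper (h : Sol R δ η G s t) (hδ : δ < 1 / 2) (hδ0 : 0 < δ) (hst : s ≤ t)
    (hz : ∀ u ∈ Icc s t, 0 ≤ (η u).2) (hv : |vv (η t).1| ≤ 2 * R.a) (hb : bar R δ (η t) ≤ 0) :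
    (η s).2 ≠ 0 := by
  have h1 : ∀ u ∈ Icc s t, |vv (η u).1| ≤ 2 * R.a := fun u hu =>
    ((h.mono hu.1 le_rfl).upper hu.2 fun w hw => hz w ⟨hu.1.trans hw.1, hw.2⟩).trans hv
  have h2 := fence_bwd hst (fun _ hu => h.barr hu) (fun u hu hb0 => by
    obtain ⟨a1, a2, a3⟩ := bar_der (e := G u) hδ hδ0 (h1 u hu) hb0
    rw [a3]
    have a4 := mm_strict a1 a2
    have a5 : 0 < (η u).2 := lt_of_le_of_ne (hz u hu) (Ne.symm a1)
    have a6 : deriv mm (η u).2 < 0 := by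
      by_contra hn
      nlinarith [mul_nonneg a5.le (not_lt.1 hn)]
    have a7 : 0 < δ * (1 - G u) := mul_pos hδ0 (by linarith [(h u hu).2.2])
    exact neg_pos.2 (mul_neg_of_neg_of_pos a6 a7)) hb
  intro h3
  linarith [bar_pos R hδ0 (h1 s ⟨le_rfl, hst⟩) h3]

theorem Sol.v_ne (h : Sol R δ η G s t) (hst : s ≤ t) (hv : vv (η s).1 ≠ 0) :
    ∀ u ∈ Icc s t, vv (η u).1 ≠ 0 := by
  intro u hu h0
  obtain ⟨C, hC0, hC⟩ := dmm_bdd
  refine hv (zero_of_bound (K := C) (fun _ hw => h.v hw) (fun w _ => ?_) hu h0 s ⟨le_rfl, hst⟩)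
  rw [norm_neg, norm_mul]
  exact mul_le_mul (hC _) (R.b_le _) (norm_nonneg _) hC0

end Pool.Agent.P.MP_ff4c85_gt
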