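import Pool.Agent.P.MP_ff4c85_gt.Cell

/-! An orbit that crosses a cell leaves it almost above its point of entry. -/

set_option autoImplicit false

open Set Filter Topology Complex
open scoped ContDiff

namespace Pool.Agent.P.MP_ff4c85_gt

variable {R : Rad} {δ : ℝ} {η : ℝ → E3} {G : ℝ → ℝ} {s t : ℝ}

/-- the stream function of the orbits that are not trapped -/
noncomputable def psi (R : Rad) (pc : ℝ) (x : E3) : ℝ :=
  vv x.1 + R.b (vv x.1) * mm x.2 - nn x.2 * (R.p (vv x.1) - pc)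

theorem Sol.psi_has (h : Sol R δ η G s t) {pc u : ℝ} (hu : u ∈ Icc s t)
    (hp : |(η u).2| < 2 ∨ R.p (vv (η u).1) = pc) :
    HasDerivAt (fun w => psi R pc (η w))
      (δ * G u * (deriv mm (η u).2 * R.b (vv (η u).1))) u := by
  have hb := (R.b_cd.differentiable (by simp) (vv (η u).1)).hasDerivAt.comp u (h.v hu)
  have := ((h.v hu).add (hb.mul ((mm_has _).comp u (h.z hu)))).sub
    (((nn_has _).comp u (h.z hu)).mul (((R.p_has _).comp u (h.v hu)).sub_const pc))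
  refine this.congr_deriv ?_
  simp only [Function.comp, h0]
  rcases hp with hp | hp
  · rw [dnn_in hp]; ring
  · rw [hp]; ring

/-- the angular first integral -/
noncomputable def ang (R : Rad) (x : E3) : ℂ :=
  x.1 * Complex.exp (-(((1 / 2 * Real.log (vv x.1 + 2) : ℝ) : ℂ) + ((R.f (vv x.1) : ℝ) : ℂ) * I))

theorem Sol.ang_has (h : Sol R δ η G s t) {u : ℝ} (hu : u ∈ Icc s t) (h1 : vv (η u).1 ≠ 0)
    (h2 : |vv (η u).1| < 1) : HasDerivAt (fun w => ang R (η w)) 0 u := by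
  have h3 : vv (η u).1 + 2 ≠ 0 := by linarith [(abs_lt.1 h2).1]
  have a1 := ((((h.v hu).add_const 2).log h3).const_mul (1 / 2)).ofReal_comp
  have a2 := ((R.f_has _ h1).comp u (h.v hu)).ofReal_comp
  have a3 := (has_fst (h u hu).1).mul (a1.add (a2.mul_const I)).neg.cexp
  refine a3.congr_deriv ?_
  have e1 : 1 / 2 * (-(deriv mm (η u).2 * R.b (vv (η u).1)) / (vv (η u).1 + 2)) =
      - deriv mm (η u).2 * R.g (vv (η u).1) := by
    rw [← R.g_eq]; field_simp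
  have e2 : R.om (vv (η u).1) / vv (η u).1 * -(deriv mm (η u).2 * R.b (vv (η u).1)) =
      - deriv mm (η u).2 * R.om (vv (η u).1) := by
    by_cases h4 : |vv (η u).1| ≤ 2 * R.a
    · rw [(R.b_in _ h4).1]; field_simp
    · rw [R.om_out _ (by linarith [R.a_pos, not_le.1 h4])]; ring
  rw [e1, e2]
  simp only [H0, rot, Prod.fst_add, add_zero]
  ring

theorem ang_eq {x : E3} (h1 : R.a ≤ |vv x.1|) (h2 : |vv x.1| < 1) :
    x.1 = (‖x.1‖ : ℂ) * ang R x ∧ 1 ≤ ‖x.1‖ := by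
  have h3 := vv_norm x.1
  have h4 : 1 ≤ ‖x.1‖ := by nlinarith [(abs_lt.1 h2).1, norm_nonneg x.1]
  refine ⟨?_, h4⟩
  have h5 : 1 / 2 * Real.log (vv x.1 + 2) = Real.log ‖x.1‖ := by
    rw [h3, Real.log_pow]; push_cast; ring
  unfold ang
  rw [R.f_out _ h1, h5, ofReal_zero, zero_mul, add_zero, Complex.exp_neg, ← ofReal_exp,
    Real.exp_log (by linarith)]
  have : (‖x.1‖ : ℂ) ≠ 0 := by exact_mod_cast (by linarith : ‖x.1‖ ≠ 0)
  field_simp

theorem Sol.cross (h : Sol R δ η G s t) (hδ : δ < 1 / 2) (hδ0 : 0 < δ) {t0 : ℝ}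
    (h0 : t0 ∈ Icc s t) (hz0 : (η t0).2 = 0) (hl : ∀ u ∈ Icc s t0, (η u).2 ≤ 0)
    (hu : ∀ u ∈ Icc t0 t, 0 ≤ (η u).2) (hs : (η s).2 = -5) (ht : (η t).2 = 5)
    (hv : ∀ u ∈ Icc s t, |vv (η u).1| < 1) :
    2 * R.a < |vv (η s).1| ∧ ‖(η t).1 - (η s).1‖ ≤ δ := by
  have hst : s ≤ t := h0.1.trans h0.2
  have ha := R.a_pos
  have big : ∀ u ∈ Icc s t, 2 ≤ |(η u).2| → 2 * R.a < |vv (η u).1| := by
    intro u hu' h2
    by_contra hn
    have hn' := not_lt.1 hn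
    rcases le_total u t0 with h3 | h3
    · exact (h.mono hu'.1 h0.2).trap_lower hδ hδ0 h3
        (fun w hw => hl w ⟨hu'.1.trans hw.1, hw.2⟩) hn' (bar_neg R hδ hn' h2).le hz0
    · exact (h.mono h0.1 hu'.2).trap_upper hδ hδ0 h3
        (fun w hw => hu w ⟨hw.1, hw.2.trans hu'.2⟩) hn' (bar_neg R hδ hn' h2).le hz0
  have bs := big s ⟨le_rfl, hst⟩ (by rw [hs]; norm_num)
  have bt := big t ⟨hst, le_rfl⟩ (by rw [ht]; norm_num)
  refine ⟨bs, ?_⟩
  have hne := h.v_ne hst (fun h' => by rw [h', abs_zero] at bs; linarith)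
  have hc : ContinuousOn (fun u => vv (η u).1) (Icc s t) := fun u hu' =>
    (h.v hu').continuousAt.continuousWithinAt
  obtain ⟨σ, hσ, hσv⟩ : ∃ σ : ℝ, (σ = 1 ∨ σ = -1) ∧ ∀ u ∈ Icc s t, 0 < σ * vv (η u).1 := by
    rcases lt_or_gt_of_ne (hne s ⟨le_rfl, hst⟩) with h1 | h1
    · refine ⟨-1, Or.inr rfl, fun u hu' => ?_⟩
      by_contra hn
      obtain ⟨w, hw, hw0⟩ := isPreconnected_Icc.intermediate_value ⟨le_rfl, hst⟩ hu' hc
        (show (0 : ℝ) ∈ Icc _ _ from ⟨h1.le, by linarith⟩)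
      exact hne w hw hw0
    · refine ⟨1, Or.inl rfl, fun u hu' => ?_⟩
      by_contra hn
      obtain ⟨w, hw, hw0⟩ := isPreconnected_Icc.intermediate_value hu' ⟨le_rfl, hst⟩ hc
        (show (0 : ℝ) ∈ Icc _ _ from ⟨by linarith, h1.le⟩)
      exact hne w hw hw0
  have habs : ∀ u ∈ Icc s t, σ * vv (η u).1 = |vv (η u).1| := fun u hu' => by
    have := hσv u hu'
    rcases hσ with rfl | rfl
    · rw [abs_of_pos (by linarith), one_mul]
    · rw [abs_of_neg (by linarith), neg_one_mul]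
  have hσb : ∀ u ∈ Icc s t, 0 ≤ σ * R.b (vv (η u).1) := fun u hu' => by
    have h1 := hσv u hu'
    have h2 := R.b_sign (vv (η u).1)
    by_contra hn
    have h3 := mul_neg_of_pos_of_neg h1 (not_le.1 hn)
    rcases hσ with rfl | rfl <;> nlinarith
  have hp : ∀ u ∈ Icc s t, |(η u).2| < 2 ∨ R.p (vv (η u).1) = R.p (σ * R.a) := fun u hu' => by
    refine (lt_or_ge _ _).imp id fun h2 => ?_
    have h3 := big u hu' h2
    rw [← habs u hu'] at h3
    rcases hσ with rfl | rfl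
    · rw [one_mul, R.p_pos _ (by linarith)]
    · rw [neg_one_mul, R.p_neg _ (by linarith)]
  have d1 : ∀ u ∈ Icc s t, HasDerivAt (fun w => σ * psi R (R.p (σ * R.a)) (η w))
      (δ * G u * (deriv mm (η u).2 * (σ * R.b (vv (η u).1)))) u := fun u hu' =>
    ((h.psi_has hu' (hp u hu')).const_mul σ).congr_deriv (by ring)
  have d2 : ∀ u ∈ Icc s t, HasDerivAt
      (fun w => σ * psi R (R.p (σ * R.a)) (η w) + δ * (σ * vv (η w).1))
      (-(δ * (1 - G u) * (deriv mm (η u).2 * (σ * R.b (vv (η u).1))))) u := fun u hu' =>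
    ((d1 u hu').add (((h.v hu').const_mul σ).const_mul δ)).congr_deriv (by ring)
  have s1 : Icc s t0 ⊆ Icc s t := Icc_subset_Icc_right h0.2
  have s2 : Icc t0 t ⊆ Icc s t := Icc_subset_Icc_left h0.1
  have g0 : ∀ u ∈ Icc s t, 0 ≤ δ * G u := fun u hu' => mul_nonneg hδ0.le (h u hu').2.1
  have g1 : ∀ u ∈ Icc s t, 0 ≤ δ * (1 - G u) := fun u hu' =>
    mul_nonneg hδ0.le (by linarith [(h u hu').2.2])
  have i1 := le_of_deriv_nonneg h0.1 (fun u hu' => d1 u (s1 hu')) fun u hu' =>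
    mul_nonneg (g0 u (s1 hu')) (mul_nonneg (dmm_lower (hl u hu')) (hσb u (s1 hu')))
  have i2 := le_of_deriv_nonpos h0.1 (fun u hu' => d2 u (s1 hu')) fun u hu' =>
    neg_nonpos.2 (mul_nonneg (g1 u (s1 hu')) (mul_nonneg (dmm_lower (hl u hu')) (hσb u (s1 hu'))))
  have i3 := le_of_deriv_nonpos h0.2 (fun u hu' => d1 u (s2 hu')) fun u hu' =>
    mul_nonpos_of_nonneg_of_nonpos (g0 u (s2 hu'))
      (mul_nonpos_of_nonpos_of_nonneg (dmm_upper (hu u hu')) (hσb u (s2 hu')))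
  have i4 := le_of_deriv_nonneg h0.2 (fun u hu' => d2 u (s2 hu')) fun u hu' =>
    neg_nonneg.2 (mul_nonpos_of_nonneg_of_nonpos (g1 u (s2 hu'))
      (mul_nonpos_of_nonpos_of_nonneg (dmm_upper (hu u hu')) (hσb u (s2 hu'))))
  have es : psi R (R.p (σ * R.a)) (η s) = vv (η s).1 := by
    unfold psi
    rw [hs, mm_out (by norm_num), nn_out (by norm_num)]; ring
  have et : psi R (R.p (σ * R.a)) (η t) = vv (η t).1 := by
    unfold psi
    rw [ht, mm_out (by norm_num), nn_out (by norm_num)]; ring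
  rw [es] at i1 i2
  rw [et] at i3 i4
  have m0 := mul_pos hδ0 (hσv t0 h0)
  have ms : δ * (σ * vv (η s).1) ≤ δ := by
    rw [habs s ⟨le_rfl, hst⟩]
    nlinarith [hv s ⟨le_rfl, hst⟩]
  have mt : δ * (σ * vv (η t).1) ≤ δ := by
    rw [habs t ⟨hst, le_rfl⟩]
    nlinarith [hv t ⟨hst, le_rfl⟩]
  have hvv : |vv (η t).1 - vv (η s).1| ≤ δ := by
    rcases hσ with rfl | rfl <;> exact abs_le.2 ⟨by linarith, by linarith⟩
  have hJ := const_of_deriv_zero hst fun u hu' => h.ang_has hu' (hne u hu') (hv u hu')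
  obtain ⟨a1, a2⟩ := ang_eq (R := R) (x := η s) (by linarith) (hv s ⟨le_rfl, hst⟩)
  obtain ⟨a3, a4⟩ := ang_eq (R := R) (x := η t) (by linarith) (hv t ⟨hst, le_rfl⟩)
  have hn : ‖ang R (η s)‖ = 1 := by
    have := congrArg norm a1
    rw [norm_mul, norm_real, norm_norm] at this
    exact (mul_left_cancel₀ (by linarith : ‖(η s).1‖ ≠ 0) (by rw [← this, mul_one])).symm
  have e : (η t).1 - (η s).1 = ((‖(η t).1‖ - ‖(η s).1‖ : ℝ) : ℂ) * ang R (η s) := by
    rw [ofReal_sub, sub_mul, ← a1, ← hJ, ← a3]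
  rw [e, norm_mul, hn, mul_one, norm_real, Real.norm_eq_abs]
  have n1 := vv_norm (η s).1
  have n2 := vv_norm (η t).1
  have n3 : vv (η t).1 - vv (η s).1 = (‖(η t).1‖ - ‖(η s).1‖) * (‖(η t).1‖ + ‖(η s).1‖) := by
    linarith
  rw [n3, abs_mul, abs_of_pos (by linarith : 0 < ‖(η t).1‖ + ‖(η s).1‖)] at hvv
  nlinarith [abs_nonneg (‖(η t).1‖ - ‖(η s).1‖)]

end Pool.Agent.P.MP_ff4c85_gt
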