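import Pool.Agent.P.MP_ff4c85_gt.Fin

/-! General tools: periodic functions, traces, barriers. -/

set_option autoImplicit false

open Set Filter Topology Real
open scoped ContDiff

namespace Pool.Agent.P.MP_ff4c85_gt

theorem per_bound {ι F : Type*} [Fintype ι] [DecidableEq ι] [NormedAddCommGroup F]
    {g : (ι → ℝ) → F} (hg : Continuous g) {T : ℝ} (hT : 0 < T)
    (hp : ∀ i x, g (x + Pi.single i T) = g x) : ∃ C, ∀ x, ‖g x‖ ≤ C := by
  let P : AddSubgroup (ι → ℝ) :=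
    { carrier := {v | ∀ x, g (x + v) = g x}
      zero_mem' := fun x => by rw [add_zero]
      add_mem' := fun {a b} ha hb x => by rw [← add_assoc, hb, ha]
      neg_mem' := fun {a} ha x => by rw [← ha (x + -a), neg_add_cancel_right] }
  obtain ⟨C, hC⟩ := (isCompact_Icc (a := fun _ : ι => (0 : ℝ))
    (b := fun _ => T)).exists_bound_of_continuousOn hg.continuousOn
  refine ⟨C, fun x => ?_⟩
  have hv : (∑ i, (-⌊x i / T⌋) • Pi.single i T : ι → ℝ) ∈ P :=
    sum_mem fun i _ => zsmul_mem (show Pi.single i T ∈ P from hp i) _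
  rw [← hv x]
  have h1 : ∀ i, (x + ∑ i, (-⌊x i / T⌋) • Pi.single i T : ι → ℝ) i = x i - ⌊x i / T⌋ * T := by
    intro i
    simp [Finset.sum_apply, Pi.single_apply, sub_eq_add_neg]
  refine hC _ ⟨fun i => ?_, fun i => ?_⟩
  · rw [h1]
    exact Int.sub_floor_div_mul_nonneg _ hT
  · rw [h1]
    exact (Int.sub_floor_div_mul_lt _ hT).le

theorem per_lip {ι F : Type*} [Fintype ι] [DecidableEq ι] [NormedAddCommGroup F] [NormedSpace ℝ F]
    {g : (ι → ℝ) → F} (hg : ContDiff ℝ ∞ g) {T : ℝ} (hT : 0 < T)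
    (hp : ∀ i x, g (x + Pi.single i T) = g x) : ∃ K, LipschitzWith K g := by
  obtain ⟨C, hC⟩ := per_bound (g := fderiv ℝ g) (hg.continuous_fderiv (by simp)) hT fun i x => by
    rw [← fderiv_comp_add_right]
    simp only [hp]
  exact ⟨C.toNNReal, lipschitzWith_of_nnnorm_fderiv_le (hg.differentiable (by simp)) fun x =>
    Real.le_toNNReal_iff_coe_le ((norm_nonneg _).trans (hC x)) |>.2 (hC x)⟩

theorem trace_eq_sum {ι : Type*} [Fintype ι] [DecidableEq ι] {W : (ι → ℝ) → ι → ℝ} {x : ι → ℝ}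
    (hW : DifferentiableAt ℝ W x) {D : ι → ℝ}
    (hD : ∀ i, HasDerivAt (fun t => W (Function.update x i t) i) (D i) (x i)) :
    LinearMap.trace ℝ _ (fderiv ℝ W x : (ι → ℝ) →ₗ[ℝ] (ι → ℝ)) = ∑ i, D i := by
  rw [LinearMap.trace_eq_matrix_trace ℝ (Pi.basisFun ℝ ι), Matrix.trace]
  refine Finset.sum_congr rfl fun i _ => ?_
  have h1 : HasFDerivAt W (fderiv ℝ W x) (Function.update x i (x i)) := by
    rw [Function.update_eq_self]; exact hW.hasFDerivAt
  have h2 := hasDerivAt_pi.1 (h1.comp_hasDerivAt (x i) (hasDerivAt_update x i (x i))) i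
  rw [← h2.unique (hD i)]
  simp [LinearMap.toMatrix_apply]

theorem abs_le_pi_of_sin_ne {f : ℝ → ℝ} {a b : ℝ} (hf : ContinuousOn f (uIcc a b))
    (h : ∀ t ∈ uIcc a b, sin (f t) ≠ 0) : |f b - f a| ≤ π := by
  by_contra hn
  have key : ∀ u v : ℝ, u + π < v → ∃ n : ℤ, u ≤ n * π ∧ n * π ≤ v := by
    intro u v huv
    refine ⟨⌈u / π⌉, (div_le_iff₀ pi_pos).1 (Int.le_ceil _), ?_⟩
    have h1 := mul_lt_mul_of_pos_right (Int.ceil_lt_add_one (u / π)) pi_pos
    rw [add_mul, div_mul_cancel₀ _ pi_pos.ne'] at h1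
    linarith
  have h2 : ∃ n : ℤ, (n : ℝ) * π ∈ uIcc (f a) (f b) := by
    rcases lt_abs.1 (not_le.1 hn) with h1 | h1
    · obtain ⟨n, h3⟩ := key (f a) (f b) (by linarith)
      exact ⟨n, mem_uIcc_of_le h3.1 h3.2⟩
    · obtain ⟨n, h3⟩ := key (f b) (f a) (by linarith)
      exact ⟨n, mem_uIcc_of_ge h3.1 h3.2⟩
  obtain ⟨n, hn⟩ := h2
  obtain ⟨t, ht, h3⟩ := intermediate_value_uIcc hf hn
  exact h t ht (by rw [h3, sin_int_mul_pi])

theorem sin_barrier {f g : ℝ → ℝ} (hg : Continuous g)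
    (hf : ∀ t, HasDerivAt f (g t * sin (f t)) t) (s t : ℝ) : |f s - f t| ≤ π := by
  obtain ⟨φ, hφ⟩ := exists_isFlow lipschitzWith_sin (C := 1) abs_sin_le_one
  rw [hφ.reparam lipschitzWith_sin hg hf s, hφ.reparam lipschitzWith_sin hg hf t]
  by_cases h : ∃ u, sin (φ u (f 0)) = 0
  · obtain ⟨u, hu⟩ := h
    have h1 := sol_unique lipschitzWith_sin (hφ.deriv (f 0)) (g := fun _ => φ u (f 0))
      (fun t => by rw [hu]; exact hasDerivAt_const _ _) (t₀ := u) rfl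
    rw [congrFun h1 (∫ s in (0 : ℝ)..s, g s), congrFun h1 (∫ s in (0 : ℝ)..t, g s), sub_self,
      abs_zero]
    exact pi_pos.le
  · exact abs_le_pi_of_sin_ne (f := fun u => φ u (f 0)) (hφ.cont_time _).continuousOn
      fun u _ hu => h ⟨u, hu⟩

theorem sum_shift (f : ℤ → ℝ) (hf : ∀ k, f (k + 4) = f k) (m : ℤ) :
    f 0 + f 1 + f 2 + f 3 = f m + f (m + 1) + f (m + 2) + f (m + 3) := by
  induction m using Int.induction_on with
  | zero => norm_num
  | succ i ih =>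
    have := hf i
    rw [ih, show (i : ℤ) + 1 + 1 = i + 2 by ring, show (i : ℤ) + 1 + 2 = i + 3 by ring,
      show (i : ℤ) + 1 + 3 = i + 4 by ring, this]
    ring
  | pred i ih =>
    have := hf (-i - 1)
    rw [ih, show -(i : ℤ) - 1 + 1 = -i by ring, show -(i : ℤ) - 1 + 2 = -i + 1 by ring,
      show -(i : ℤ) - 1 + 3 = -i + 2 by ring, ← this, show -(i : ℤ) - 1 + 4 = -i + 3 by ring]
    ring

theorem const_of_deriv {f : ℝ → ℝ} {a b : ℝ} (h : ∀ t ∈ Icc a b, HasDerivAt f 0 t) :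
    ∀ t ∈ Icc a b, f t = f a :=
  constant_of_has_deriv_right_zero (fun t ht => (h t ht).continuousAt.continuousWithinAt)
    fun t ht => (h t (Ico_subset_Icc_self ht)).hasDerivWithinAt

/-- the two cut-off functions -/
structure Cut (A B : ℝ → ℝ) : Prop where
  sA : ContDiff ℝ ∞ A
  sB : ContDiff ℝ ∞ B
  A0 : ∀ u, 0 ≤ A u
  A1 : ∀ u, A u ≤ 1
  B0 : ∀ u, 0 ≤ B u
  B1 : ∀ u, B u ≤ 1
  Az : A 0 = 0
  Ao : A 1 = 0
  Aone : ∀ u, 1 / 64 ≤ u → u ≤ 7 / 8 → A u = 1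
  Bz : ∀ u, u ≤ 4 / 5 → B u = 0
  Bo : B 1 = 0
  Bone : ∀ u, 17 / 20 ≤ u → u ≤ 19 / 20 → B u = 1

theorem exists_cut : ∃ A B, Cut A B := by
  let a : ContDiffBump (57 / 128 : ℝ) := ⟨55 / 128, 56 / 128, by norm_num, by norm_num⟩
  let b : ContDiffBump (9 / 10 : ℝ) := ⟨1 / 20, 1 / 10, by norm_num, by norm_num⟩
  refine ⟨a, b, a.contDiff, b.contDiff, fun _ => a.nonneg, fun _ => a.le_one, fun _ => b.nonneg,
    fun _ => b.le_one, a.zero_of_le_dist ?_, a.zero_of_le_dist ?_,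
    fun u h1 h2 => a.one_of_mem_closedBall ?_, fun u h => b.zero_of_le_dist ?_,
    b.zero_of_le_dist ?_, fun u h1 h2 => b.one_of_mem_closedBall ?_⟩
  · exact le_abs.2 (Or.inr (by norm_num [a]))
  · exact le_abs.2 (Or.inl (by norm_num [a]))
  · change |u - 57 / 128| ≤ 55 / 128
    exact abs_le.2 ⟨by linarith, by linarith⟩
  · exact le_abs.2 (Or.inr (by simp only [b]; linarith))
  · exact le_abs.2 (Or.inl (by norm_num [b]))
  · change |u - 9 / 10| ≤ 1 / 20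
    exact abs_le.2 ⟨by linarith, by linarith⟩

end Pool.Agent.P.MP_ff4c85_gt
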