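import Pool.Agent.P.MP_ff4c85_gt.F5a

/-! A periodic field on three-space without zeros and with uniformly bounded trajectories. -/

set_option autoImplicit false

open Set Filter Topology Real
open scoped ContDiff

namespace Pool.Agent.P.MP_ff4c85_gt

variable (A B : ℝ → ℝ)

/-- Hamiltonian of layer `m` -/
noncomputable def hh (m : ℤ) (x y : ℝ) : ℝ := sin (x + m * (π / 4)) * sin (y + m * (π / 4))

/-- height above the middle plane of layer `m` -/
noncomputable def ww (m : ℤ) (z : ℝ) : ℝ := z - m * (π / 2) - π / 4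

noncomputable def ab (m : ℤ) (x y z : ℝ) : ℝ := A (hh m x y ^ 2) * B (cos (ww m z))

noncomputable def pm (m : ℤ) (x y z : ℝ) : ℝ :=
  ab A B m x y z * sin (ww m z) * (sin (x + m * (π / 4)) * cos (y + m * (π / 4)))

noncomputable def qm (m : ℤ) (x y z : ℝ) : ℝ :=
  -(ab A B m x y z * sin (ww m z) * (cos (x + m * (π / 4)) * sin (y + m * (π / 4))))

noncomputable def PP (x y z : ℝ) : ℝ :=
  pm A B 0 x y z + pm A B 1 x y z + pm A B 2 x y z + pm A B 3 x y z

noncomputable def QQ (x y z : ℝ) : ℝ :=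
  qm A B 0 x y z + qm A B 1 x y z + qm A B 2 x y z + qm A B 3 x y z

noncomputable def RR (x y z : ℝ) : ℝ :=
  1 - (ab A B 0 x y z + ab A B 1 x y z + ab A B 2 x y z + ab A B 3 x y z)

noncomputable def X3 (p : Fin 3 → ℝ) : Fin 3 → ℝ :=
  ![PP A B (p 0) (p 1) (p 2), QQ A B (p 0) (p 1) (p 2), RR A B (p 0) (p 1) (p 2)]

theorem arg4 (m : ℤ) (x : ℝ) : x + ((m + 4 : ℤ) : ℝ) * (π / 4) = x + m * (π / 4) + π := by
  push_cast; ring

theorem ww4 (m : ℤ) (z : ℝ) : ww (m + 4) z = ww m z - 2 * π := by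
  simp only [ww]; push_cast; ring

theorem ab4 (m : ℤ) (x y z : ℝ) : ab A B (m + 4) x y z = ab A B m x y z := by
  simp only [ab, hh, arg4, ww4, sin_add_pi, cos_sub_two_pi, neg_mul_neg]

theorem pm4 (m : ℤ) (x y z : ℝ) : pm A B (m + 4) x y z = pm A B m x y z := by
  simp only [pm, ab4, arg4, ww4, sin_add_pi, cos_add_pi, sin_sub_two_pi, neg_mul_neg]

theorem qm4 (m : ℤ) (x y z : ℝ) : qm A B (m + 4) x y z = qm A B m x y z := by
  simp only [qm, ab4, arg4, ww4, sin_add_pi, cos_add_pi, sin_sub_two_pi, neg_mul_neg]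

theorem cos_pi4_le : cos (π / 4) ≤ 4 / 5 := by
  rw [cos_pi_div_four, div_le_iff₀ (by norm_num), sqrt_le_iff]
  norm_num

theorem abs_sin_le_of {w : ℝ} (h : |w| ≤ π / 4) : |sin w| ≤ 4 / 5 := by
  have h1 := abs_le.1 h
  have h2 := sin_le_sin_of_le_of_le_pi_div_two (x := w) (y := π / 4) (by linarith [pi_pos])
    (by linarith [pi_pos]) h1.2
  have h3 := sin_le_sin_of_le_of_le_pi_div_two (x := -(π / 4)) (y := w) (by linarith [pi_pos])
    (by linarith [pi_pos]) h1.1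
  have h4 := cos_pi4_le
  rw [cos_pi_div_four] at h4
  rw [sin_neg] at h3
  rw [sin_pi_div_four] at h2 h3
  exact abs_le.2 ⟨by linarith, by linarith⟩

variable {A B}

/-- `z` lies in layer `m` -/
def Lay (m : ℤ) (z : ℝ) : Prop := m * (π / 2) ≤ z ∧ z ≤ (m + 1) * (π / 2)

theorem Lay.abs {m : ℤ} {z : ℝ} (h : Lay m z) : |ww m z| ≤ π / 4 :=
  abs_le.2 ⟨by simp only [ww]; linarith [h.1], by simp only [ww]; linarith [h.2]⟩

theorem lay_floor (z : ℝ) : Lay ⌊z / (π / 2)⌋ z := by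
  have h0 : 0 < π / 2 := by positivity
  exact ⟨(le_div_iff₀ h0).1 (Int.floor_le _), ((div_lt_iff₀ h0).1 (Int.lt_floor_add_one _)).le⟩

theorem Cut.lay (c : Cut A B) {m : ℤ} {z : ℝ} (h : Lay m z) (x y : ℝ) :
    PP A B x y z = pm A B m x y z ∧ QQ A B x y z = qm A B m x y z ∧
      RR A B x y z = 1 - ab A B m x y z := by
  have h1 := abs_le.1 (abs_sin_le_of h.abs)
  have h2 : 0 ≤ cos (ww m z) :=
    cos_nonneg_of_mem_Icc ⟨by linarith [(abs_le.1 h.abs).1, pi_pos],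
      by linarith [(abs_le.1 h.abs).2, pi_pos]⟩
  have e1 : ab A B (m + 1) x y z = 0 := by
    rw [ab, show ww (m + 1) z = ww m z - π / 2 by simp only [ww]; push_cast; ring,
      cos_sub_pi_div_two, c.Bz _ h1.2, mul_zero]
  have e2 : ab A B (m + 2) x y z = 0 := by
    rw [ab, show ww (m + 2) z = ww m z - π by simp only [ww]; push_cast; ring,
      cos_sub_pi, c.Bz _ (by linarith), mul_zero]
  have e3 : ab A B (m + 3) x y z = 0 := by
    rw [ab, show ww (m + 3) z = ww m z + π / 2 - 2 * π by simp only [ww]; push_cast; ring,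
      cos_sub_two_pi, cos_add_pi_div_two, c.Bz _ (by linarith), mul_zero]
  refine ⟨?_, ?_, ?_⟩
  · rw [PP, sum_shift (fun k => pm A B k x y z) (fun k => pm4 A B k x y z) m]
    simp [pm, e1, e2, e3]
  · rw [QQ, sum_shift (fun k => qm A B k x y z) (fun k => qm4 A B k x y z) m]
    simp [qm, e1, e2, e3]
  · rw [RR, sum_shift (fun k => ab A B k x y z) (fun k => ab4 A B k x y z) m]
    simp [e1, e2, e3]

theorem Cut.ab_le (c : Cut A B) (m : ℤ) (x y z : ℝ) : ab A B m x y z ≤ 1 :=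
  mul_le_one₀ (c.A1 _) (c.B0 _) (c.B1 _)

theorem Cut.X3_ne (c : Cut A B) (x y z : ℝ) :
    ¬ (PP A B x y z = 0 ∧ QQ A B x y z = 0 ∧ RR A B x y z = 0) := by
  obtain ⟨e1, e2, e3⟩ := c.lay (lay_floor z) x y
  generalize ⌊z / (π / 2)⌋ = m at e1 e2 e3
  rw [e1, e2, e3]
  rintro ⟨h1, h2, h3⟩
  have h4 : ab A B m x y z = 1 := by linarith
  have hA : A (hh m x y ^ 2) ≠ 0 := fun h => by simp [ab, h] at h4
  have hB : B (cos (ww m z)) ≠ 0 := fun h => by simp [ab, h] at h4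
  have hs : sin (ww m z) ≠ 0 := fun h => by
    rcases sin_eq_zero_iff_cos_eq.1 h with h | h
    · exact hB (by rw [h, c.Bo])
    · exact hB (by rw [h, c.Bz _ (by norm_num)])
  have hx : sin (x + m * (π / 4)) ≠ 0 := fun h => hA (by simp [hh, h, c.Az])
  have hy : sin (y + m * (π / 4)) ≠ 0 := fun h => hA (by simp [hh, h, c.Az])
  simp only [pm, qm, h4, one_mul, neg_eq_zero, mul_eq_zero, hs, hx, hy, false_or,
    or_false] at h1 h2
  refine hA ?_
  rw [hh, mul_pow, sin_sq, sin_sq, h1, h2]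
  simpa using c.Ao

theorem Cut.cover (c : Cut A B) (m : ℤ) (x y : ℝ) :
    ∃ i : ℕ, i < 4 ∧ A (hh (m + i) x y ^ 2) = 1 := by
  have key : ∀ (i : ℕ) (u : ℝ), sin (u + ((m + i : ℤ) : ℝ) * (π / 4)) ^ 2 =
      1 / 2 - cos (2 * (u + m * (π / 4)) + i * (π / 2)) / 2 := by
    intro i u
    rw [sin_sq_eq_half_sub]
    congr 3
    push_cast; ring
  have good : ∀ i : ℕ, |cos (2 * (x + m * (π / 4)) + i * (π / 2))| ≤ 3 / 4 →
      cos (2 * (y + m * (π / 4)) + i * (π / 2)) ≤ 3 / 4 → A (hh (m + i) x y ^ 2) = 1 := by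
    intro i h1 h2
    have h3 := abs_le.1 h1
    have h4 := neg_one_le_cos (2 * (y + m * (π / 4)) + i * (π / 2))
    refine c.Aone _ ?_ ?_ <;> rw [hh, mul_pow, key, key] <;> nlinarith
  set u := 2 * (x + m * (π / 4))
  set v := 2 * (y + m * (π / 4))
  have e0 : ∀ t : ℝ, cos (t + (0 : ℕ) * (π / 2)) = cos t := fun t => by simp
  have e1 : ∀ t : ℝ, cos (t + (1 : ℕ) * (π / 2)) = -sin t := fun t => by
    simp [cos_add_pi_div_two]
  have e2 : ∀ t : ℝ, cos (t + (2 : ℕ) * (π / 2)) = -cos t := fun t => by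
    rw [show t + (2 : ℕ) * (π / 2) = t + π by push_cast; ring, cos_add_pi]
  have e3 : ∀ t : ℝ, cos (t + (3 : ℕ) * (π / 2)) = sin t := fun t => by
    rw [show t + (3 : ℕ) * (π / 2) = t - π / 2 + 2 * π by push_cast; ring, cos_add_two_pi,
      cos_sub_pi_div_two]
  by_cases h1 : |cos u| ≤ 3 / 4
  · rcases le_total (cos v) 0 with h2 | h2
    · exact ⟨0, by norm_num, good 0 (by rwa [e0]) (by rw [e0]; linarith)⟩
    · exact ⟨2, by norm_num, good 2 (by rwa [e2, abs_neg]) (by rw [e2]; linarith)⟩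
  · have h3 : |sin u| ≤ 3 / 4 := by
      have h4 := sin_sq_add_cos_sq u
      have h5 := sq_abs (cos u)
      have h6 := sq_abs (sin u)
      have h7 := abs_nonneg (sin u)
      nlinarith
    rcases le_total (sin v) 0 with h2 | h2
    · exact ⟨3, by norm_num, good 3 (by rwa [e3]) (by rw [e3]; linarith)⟩
    · exact ⟨1, by norm_num, good 1 (by rwa [e1, abs_neg]) (by rw [e1]; linarith)⟩

theorem Cut.ab_smooth (c : Cut A B) (m : ℤ) :
    ContDiff ℝ ∞ fun p : ℝ × ℝ × ℝ => ab A B m p.1 p.2.1 p.2.2 := by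
  have h1 := c.sA
  have h2 := c.sB
  unfold ab hh ww
  fun_prop

theorem Cut.P_smooth (c : Cut A B) :
    ContDiff ℝ ∞ fun p : ℝ × ℝ × ℝ => PP A B p.1 p.2.1 p.2.2 := by
  have h1 := c.ab_smooth
  unfold PP pm ww
  fun_prop

theorem Cut.Q_smooth (c : Cut A B) :
    ContDiff ℝ ∞ fun p : ℝ × ℝ × ℝ => QQ A B p.1 p.2.1 p.2.2 := by
  have h1 := c.ab_smooth
  unfold QQ qm ww
  fun_prop

theorem Cut.R_smooth (c : Cut A B) :
    ContDiff ℝ ∞ fun p : ℝ × ℝ × ℝ => RR A B p.1 p.2.1 p.2.2 := by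
  have h1 := c.ab_smooth
  unfold RR
  fun_prop

theorem Cut.X3_smooth (c : Cut A B) : ContDiff ℝ ∞ (X3 A B) := by
  have h0 : ContDiff ℝ ∞ fun p : Fin 3 → ℝ => ((p 0, p 1, p 2) : ℝ × ℝ × ℝ) := by fun_prop
  have h1 : ContDiff ℝ ∞ fun p : Fin 3 → ℝ => PP A B (p 0) (p 1) (p 2) := by
    simpa only [Function.comp_def] using c.P_smooth.comp h0
  have h2 : ContDiff ℝ ∞ fun p : Fin 3 → ℝ => QQ A B (p 0) (p 1) (p 2) := by
    simpa only [Function.comp_def] using c.Q_smooth.comp h0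
  have h3 : ContDiff ℝ ∞ fun p : Fin 3 → ℝ => RR A B (p 0) (p 1) (p 2) := by
    simpa only [Function.comp_def] using c.R_smooth.comp h0
  refine contDiff_pi.2 fun i => ?_
  fin_cases i
  · simpa [X3] using h1
  · simpa [X3] using h2
  · simpa [X3] using h3

theorem ab_per (m : ℤ) (x y z : ℝ) : ab A B m (x + 2 * π) y z = ab A B m x y z ∧
    ab A B m x (y + 2 * π) z = ab A B m x y z ∧ ab A B m x y (z + 2 * π) = ab A B m x y z := by
  simp only [ab, hh, ww, add_right_comm _ (2 * π), add_sub_right_comm _ (2 * π), sin_add_two_pi,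
    cos_add_two_pi, and_self]

theorem PQR_per (x y z : ℝ) :
    (PP A B (x + 2 * π) y z = PP A B x y z ∧ PP A B x (y + 2 * π) z = PP A B x y z ∧
      PP A B x y (z + 2 * π) = PP A B x y z) ∧
    (QQ A B (x + 2 * π) y z = QQ A B x y z ∧ QQ A B x (y + 2 * π) z = QQ A B x y z ∧
      QQ A B x y (z + 2 * π) = QQ A B x y z) ∧
    (RR A B (x + 2 * π) y z = RR A B x y z ∧ RR A B x (y + 2 * π) z = RR A B x y z ∧
      RR A B x y (z + 2 * π) = RR A B x y z) := by
  simp only [PP, QQ, RR, pm, qm, ab_per, ww, add_right_comm _ (2 * π),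
    add_sub_right_comm _ (2 * π), sin_add_two_pi, cos_add_two_pi, and_self]

theorem Cut.X3_lip (c : Cut A B) : ∃ (K : NNReal) (C : ℝ), LipschitzWith K (X3 A B) ∧
    ∀ p, ‖X3 A B p‖ ≤ C := by
  have hp : ∀ (i : Fin 3) (p : Fin 3 → ℝ), X3 A B (p + Pi.single i (2 * π)) = X3 A B p := by
    intro i p
    fin_cases i <;> simp [X3, PQR_per]
  obtain ⟨K, hK⟩ := per_lip c.X3_smooth two_pi_pos hp
  obtain ⟨C, hC⟩ := per_bound c.X3_smooth.continuous two_pi_pos hp
  exact ⟨K, C, hK, hC⟩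

end Pool.Agent.P.MP_ff4c85_gt
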