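import Pool.Agent.P.MP_ff4c85_gt.F5b

/-! The trajectories of the field on three-space are uniformly bounded. -/

set_option autoImplicit false

open Set Filter Topology Real
open scoped ContDiff

namespace Pool.Agent.P.MP_ff4c85_gt

/-- a global solution in coordinates -/
structure Sol (A B x y z : ℝ → ℝ) : Prop where
  dx : ∀ t, HasDerivAt x (PP A B (x t) (y t) (z t)) t
  dy : ∀ t, HasDerivAt y (QQ A B (x t) (y t) (z t)) t
  dz : ∀ t, HasDerivAt z (RR A B (x t) (y t) (z t)) t

variable {A B x y z : ℝ → ℝ}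

theorem Cut.R_nonneg (c : Cut A B) (x y z : ℝ) : 0 ≤ RR A B x y z := by
  rw [(c.lay (lay_floor z) x y).2.2]
  linarith [c.ab_le ⌊z / (π / 2)⌋ x y z]

theorem Cut.B_bd (c : Cut A B) (m : ℤ) :
    B (cos (ww m (m * (π / 2)))) = 0 ∧ B (cos (ww m ((m + 1) * (π / 2)))) = 0 := by
  constructor
  · rw [show ww m (m * (π / 2)) = -(π / 4) by simp only [ww]; ring, cos_neg, c.Bz _ cos_pi4_le]
  · rw [show ww m ((m + 1) * (π / 2)) = π / 4 by simp only [ww]; ring, c.Bz _ cos_pi4_le]

namespace Sol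

theorem cz (h : Sol A B x y z) : Continuous z :=
  continuous_iff_continuousAt.2 fun t => (h.dz t).continuousAt

theorem mono (h : Sol A B x y z) (c : Cut A B) : Monotone z :=
  monotone_of_deriv_nonneg (fun t => (h.dz t).differentiableAt) fun t => by
    rw [(h.dz t).deriv]; exact c.R_nonneg _ _ _

theorem ivt (h : Sol A B x y z) {a b v : ℝ} (hab : a ≤ b) (h1 : z a ≤ v) (h2 : v ≤ z b) :
    ∃ t, a ≤ t ∧ t ≤ b ∧ z t = v := by
  obtain ⟨t, ht, e⟩ := intermediate_value_Icc hab h.cz.continuousOn ⟨h1, h2⟩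
  exact ⟨t, ht.1, ht.2, e⟩

theorem mvt (h : Sol A B x y z) {a b : ℝ} (hab : a < b) :
    ∃ t, a < t ∧ t < b ∧ RR A B (x t) (y t) (z t) * (b - a) = z b - z a := by
  obtain ⟨t, ht, e⟩ := exists_hasDerivAt_eq_slope z _ hab h.cz.continuousOn fun t _ => h.dz t
  exact ⟨t, ht.1, ht.2, by rw [e, div_mul_cancel₀ _ (sub_pos.2 hab).ne']⟩

theorem lay (h : Sol A B x y z) (c : Cut A B) {m : ℤ} {a b : ℝ} (ha : Lay m (z a))
    (hb : Lay m (z b)) {t : ℝ} (ht : t ∈ Icc a b) : Lay m (z t) :=
  ⟨ha.1.trans (h.mono c ht.1), (h.mono c ht.2).trans hb.2⟩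

theorem level_unique (h : Sol A B x y z) (c : Cut A B) (m : ℤ) {a b : ℝ} (hab : a ≤ b)
    (ha : z a = m * (π / 2)) (hb : z b = m * (π / 2)) : a = b := by
  by_contra hne
  obtain ⟨t, h1, h2, e⟩ := h.mvt (lt_of_le_of_ne hab hne)
  have h3 : z t = m * (π / 2) := le_antisymm (hb ▸ h.mono c h2.le) (ha ▸ h.mono c h1.le)
  have h4 : Lay m (z t) := ⟨h3.ge, by rw [h3]; linarith [pi_pos]⟩
  rw [(c.lay h4 _ _).2.2, ab, h3, (c.B_bd m).1, ha, hb] at e
  exact hne (by linarith)

theorem hconst (h : Sol A B x y z) (c : Cut A B) {m : ℤ} {a b : ℝ} (ha : Lay m (z a))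
    (hb : Lay m (z b)) : ∀ t ∈ Icc a b, hh m (x t) (y t) = hh m (x a) (y a) := by
  refine const_of_deriv (f := fun t => hh m (x t) (y t)) fun t ht => ?_
  obtain ⟨e1, e2, -⟩ := c.lay (h.lay c ha hb ht) (x t) (y t)
  have := (((h.dx t).add_const (m * (π / 4))).sin).fun_mul ((h.dy t).add_const (m * (π / 4))).sin
  refine this.congr_deriv ?_
  rw [e1, e2, pm, qm]
  ring

theorem move (h : Sol A B x y z) (c : Cut A B) {m : ℤ} {a b : ℝ} (hab : a ≤ b) (ha : Lay m (z a))
    (hb : Lay m (z b)) : |x b - x a| ≤ π ∧ |y b - y a| ≤ π := by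
  have hc := h.hconst c ha hb
  by_cases h0 : hh m (x a) (y a) = 0
  · have h1 : ∀ t ∈ Icc a b, ab A B m (x t) (y t) (z t) = 0 := fun t ht => by
      simp [ab, hc t ht, h0, c.Az]
    have h2 := const_of_deriv (f := x) (a := a) (b := b) (fun t ht => (h.dx t).congr_deriv (by
      rw [(c.lay (h.lay c ha hb ht) _ _).1, pm, h1 t ht]; ring)) b (right_mem_Icc.2 hab)
    have h3 := const_of_deriv (f := y) (a := a) (b := b) (fun t ht => (h.dy t).congr_deriv (by
      rw [(c.lay (h.lay c ha hb ht) _ _).2.1, qm, h1 t ht]; ring)) b (right_mem_Icc.2 hab)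
    simp [h2, h3, pi_pos.le]
  · have h1 : ∀ t ∈ uIcc a b, sin (x t + m * (π / 4)) ≠ 0 ∧ sin (y t + m * (π / 4)) ≠ 0 := by
      intro t ht
      rw [uIcc_of_le hab] at ht
      exact mul_ne_zero_iff.1 fun e => h0 ((hc t ht).symm.trans e)
    have h2 := abs_le_pi_of_sin_ne (f := fun t => x t + m * (π / 4)) (a := a) (b := b)
      (fun t _ => ((h.dx t).add_const _).continuousAt.continuousWithinAt) fun t ht => (h1 t ht).1
    have h3 := abs_le_pi_of_sin_ne (f := fun t => y t + m * (π / 4)) (a := a) (b := b)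
      (fun t _ => ((h.dy t).add_const _).continuousAt.continuousWithinAt) fun t ht => (h1 t ht).2
    simpa using And.intro h2 h3

theorem notrap (h : Sol A B x y z) (c : Cut A B) {m : ℤ} {a b : ℝ} (hab : a ≤ b)
    (ha : z a = m * (π / 2)) (hb : z b = (m + 1) * (π / 2)) : A (hh m (x a) (y a) ^ 2) ≠ 1 := by
  intro hA
  have la : Lay m (z a) := ⟨ha.ge, by rw [ha]; linarith [pi_pos]⟩
  have lb : Lay m (z b) := ⟨by rw [hb]; linarith [pi_pos], hb.le⟩
  have w0 := arccos_nonneg (19 / 20)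
  have w1 : arccos (19 / 20) < arccos (17 / 20) :=
    strictAntiOn_arccos ⟨by norm_num, by norm_num⟩ ⟨by norm_num, by norm_num⟩ (by norm_num)
  have w2 : arccos (17 / 20) ≤ π / 4 := by
    have := cos_pi4_le
    rw [cos_pi_div_four] at this
    exact arccos_le_pi_div_four.2 (by linarith)
  obtain ⟨s, s1, s2, s3⟩ := h.ivt (v := m * (π / 2) + π / 4 + arccos (19 / 20)) hab
    (by linarith [pi_pos]) (by linarith)
  obtain ⟨u, u1, u2, u3⟩ := h.ivt (v := m * (π / 2) + π / 4 + arccos (17 / 20)) s2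
    (by linarith) (by linarith)
  have hsu : s < u := lt_of_le_of_ne u1 fun e => by rw [e] at s3; linarith
  obtain ⟨t, t1, t2, e⟩ := h.mvt hsu
  have ht : t ∈ Icc a b := ⟨by linarith, by linarith⟩
  have k1 : arccos (19 / 20) ≤ ww m (z t) := by simp only [ww]; linarith [h.mono c t1.le]
  have k2 : ww m (z t) ≤ arccos (17 / 20) := by simp only [ww]; linarith [h.mono c t2.le]
  have k3 := cos_le_cos_of_nonneg_of_le_pi w0 (by linarith [pi_pos]) k1
  have k4 := cos_le_cos_of_nonneg_of_le_pi (w0.trans k1) (arccos_le_pi _) k2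
  rw [cos_arccos (by norm_num) (by norm_num)] at k3 k4
  rw [(c.lay (h.lay c la lb ht) _ _).2.2, ab, h.hconst c la lb t ht, hA, c.Bone _ k4 k3] at e
  linarith

theorem through (h : Sol A B x y z) (c : Cut A B) {m : ℤ} {a b : ℝ} (hab : a ≤ b)
    (ha : z a = m * (π / 2)) (hb : z b = (m + 1) * (π / 2)) : x b = x a ∧ y b = y a := by
  have la : Lay m (z a) := ⟨ha.ge, by rw [ha]; linarith [pi_pos]⟩
  have lb : Lay m (z b) := ⟨by rw [hb]; linarith [pi_pos], hb.le⟩
  obtain ⟨s, s1, s2, s3⟩ := h.ivt (v := m * (π / 2) + π / 4) hab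
    (by linarith [pi_pos]) (by linarith [pi_pos])
  have s1' : a < s := lt_of_le_of_ne s1 fun e => by rw [← e] at s3; linarith [pi_pos]
  have s2' : s < b := lt_of_le_of_ne s2 fun e => by rw [e] at s3; linarith [pi_pos]
  obtain ⟨K, -, hK, -⟩ := c.X3_lip
  have key : ∀ r, 0 < r → a ≤ s - r → s + r ≤ b → ∀ t ∈ Icc (s - r) (s + r),
      x t = x (2 * s - t) ∧ y t = y (2 * s - t) ∧
        z t = 2 * (m * (π / 2) + π / 4) - z (2 * s - t) := by
    intro r hr r1 r2 t ht
    have d1 : ∀ t, HasDerivAt (fun t => ![x t, y t, z t]) (X3 A B ![x t, y t, z t]) t := by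
      intro t
      refine hasDerivAt_pi.2 fun i => ?_
      fin_cases i
      · simpa [X3] using h.dx t
      · simpa [X3] using h.dy t
      · simpa [X3] using h.dz t
    have d2 : ∀ t ∈ Icc (s - r) (s + r), HasDerivAt
        (fun t => ![x (2 * s - t), y (2 * s - t), 2 * (m * (π / 2) + π / 4) - z (2 * s - t)])
        (X3 A B ![x (2 * s - t), y (2 * s - t), 2 * (m * (π / 2) + π / 4) - z (2 * s - t)]) t := by
      intro t ht
      have l1 : Lay m (z (2 * s - t)) := h.lay c la lb ⟨by linarith [ht.2], by linarith [ht.1]⟩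
      have l2 : Lay m (2 * (m * (π / 2) + π / 4) - z (2 * s - t)) :=
        ⟨by linarith [l1.2], by linarith [l1.1]⟩
      obtain ⟨e1, e2, e3⟩ := c.lay l1 (x (2 * s - t)) (y (2 * s - t))
      obtain ⟨f1, f2, f3⟩ := c.lay l2 (x (2 * s - t)) (y (2 * s - t))
      have hw : ww m (2 * (m * (π / 2) + π / 4) - z (2 * s - t)) = -ww m (z (2 * s - t)) := by
        simp only [ww]; ring
      refine hasDerivAt_pi.2 fun i => ?_
      fin_cases i
      · have := (h.dx (2 * s - t)).comp_const_sub (2 * s) t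
        refine HasDerivAt.congr_deriv (by simpa using this) ?_
        simp only [X3, Fin.zero_eta, Matrix.cons_val_zero, Matrix.cons_val_one, Matrix.cons_val]
        rw [e1, f1]
        simp only [pm, ab, hw, cos_neg, sin_neg]
        ring
      · have := (h.dy (2 * s - t)).comp_const_sub (2 * s) t
        refine HasDerivAt.congr_deriv (by simpa using this) ?_
        simp only [X3, Fin.mk_one, Matrix.cons_val_zero, Matrix.cons_val_one, Matrix.cons_val]
        rw [e2, f2]
        simp only [qm, ab, hw, cos_neg, sin_neg]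
        ring
      · have := ((h.dz (2 * s - t)).comp_const_sub (2 * s) t).const_sub (2 * (m * (π / 2) + π / 4))
        refine HasDerivAt.congr_deriv (by simpa using this) ?_
        simp only [X3, Fin.reduceFinMk, Matrix.cons_val_zero, Matrix.cons_val_one, Matrix.cons_val]
        rw [e3, f3]
        simp only [ab, hw, cos_neg]
    have := ODE_solution_unique_of_mem_Icc (v := fun _ p => X3 A B p) (s := fun _ => univ) (K := K)
      (t₀ := s) (a := s - r) (b := s + r) (fun _ _ => hK.lipschitzOnWith)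
      ⟨by linarith, by linarith⟩ (fun t _ => (d1 t).continuousAt.continuousWithinAt)
      (fun t _ => d1 t) (fun _ _ => trivial)
      (fun t ht => (d2 t ht).continuousAt.continuousWithinAt)
      (fun t ht => d2 t (Ioo_subset_Icc_self ht)) (fun _ _ => trivial)
      (by simp only [show 2 * s - s = s by ring, s3]; congr 3; ring) ht
    exact ⟨by simpa using congrFun this 0, by simpa using congrFun this 1,
      by simpa using congrFun this 2⟩
  rcases le_total (s - a) (b - s) with hr | hr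
  · obtain ⟨k1, k2, k3⟩ := key (s - a) (by linarith) (by linarith) (by linarith) (s + (s - a))
      ⟨by linarith, le_rfl⟩
    rw [show 2 * s - (s + (s - a)) = a by ring] at k1 k2 k3
    have := h.level_unique c (m + 1) (a := s + (s - a)) (b := b) (by linarith)
      (by push_cast; linarith) (by push_cast; exact hb)
    rw [this] at k1 k2
    exact ⟨k1, k2⟩
  · obtain ⟨k1, k2, k3⟩ := key (b - s) (by linarith) (by linarith) (by linarith) (s - (b - s))
      ⟨le_rfl, by linarith⟩
    rw [show 2 * s - (s - (b - s)) = b by ring] at k1 k2 k3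
    have := h.level_unique c m (a := a) (b := s - (b - s)) (by linarith) ha (by linarith)
    rw [← this] at k1 k2
    exact ⟨k1.symm, k2.symm⟩

theorem chain (h : Sol A B x y z) (c : Cut A B) {m : ℤ} {a : ℝ} (ha : z a = m * (π / 2)) (j : ℕ) :
    ∀ b, a ≤ b → z b = (m + j) * (π / 2) → x b = x a ∧ y b = y a ∧
      ∀ i : ℕ, i < j → A (hh (m + i) (x a) (y a) ^ 2) ≠ 1 := by
  induction j with
  | zero =>
    intro b hab hb
    rw [← h.level_unique c m hab ha (by simpa using hb)]
    simp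
  | succ j ih =>
    intro b hab hb
    have hj : (0 : ℝ) ≤ j * (π / 2) := by positivity
    push_cast at hb
    obtain ⟨s, s1, s2, s3⟩ := h.ivt (v := (m + j) * (π / 2)) hab (by linarith)
      (by linarith [pi_pos])
    obtain ⟨k1, k2, k3⟩ := ih s s1 s3
    have e1 : z s = ((m + j : ℤ) : ℝ) * (π / 2) := by push_cast; exact s3
    have e2 : z b = (((m + j : ℤ) : ℝ) + 1) * (π / 2) := by push_cast; linarith
    obtain ⟨k4, k5⟩ := h.through c s2 e1 e2
    refine ⟨k4.trans k1, k5.trans k2, fun i hi => ?_⟩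
    rcases Nat.lt_succ_iff_lt_or_eq.1 hi with hi | rfl
    · exact k3 i hi
    · rw [← k1, ← k2]
      exact h.notrap c s2 e1 e2

theorem bound (h : Sol A B x y z) (c : Cut A B) {s t : ℝ} (hst : s ≤ t) :
    |x t - x s| ≤ 3 * π ∧ |y t - y s| ≤ 3 * π ∧ |z t - z s| ≤ 3 * π := by
  have ls := lay_floor (z s)
  have lt := lay_floor (z t)
  have hm := h.mono c hst
  have hp := pi_pos
  generalize ⌊z s / (π / 2)⌋ = m at ls
  generalize ⌊z t / (π / 2)⌋ = n at lt
  rw [abs_of_nonneg (sub_nonneg.2 hm)]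
  rcases le_total (z t) ((m + 1) * (π / 2)) with h1 | h1
  · obtain ⟨k1, k2⟩ := h.move c hst ls ⟨ls.1.trans hm, h1⟩
    exact ⟨by linarith, by linarith, by linarith [ls.1]⟩
  · obtain ⟨a, a1, a2, a3⟩ := h.ivt hst ls.2 h1
    obtain ⟨k1, k2⟩ := h.move c a1 ls ⟨by linarith, a3.le⟩
    have a4 : z a = ((m + 1 : ℤ) : ℝ) * (π / 2) := by push_cast; exact a3
    rcases le_or_gt n m with hn | hn
    · have hn' : (n : ℝ) ≤ m := by exact_mod_cast hn
      have h2 : z t ≤ (m + 1) * (π / 2) := lt.2.trans (by nlinarith)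
      obtain ⟨k3, k4⟩ := h.move c hst ls ⟨ls.1.trans hm, h2⟩
      exact ⟨by linarith, by linarith, by linarith [ls.1]⟩
    · obtain ⟨j, rfl⟩ : ∃ j : ℕ, n = m + 1 + j := ⟨(n - (m + 1)).toNat, by omega⟩
      have hj : (0 : ℝ) ≤ j * (π / 2) := by positivity
      have l1 := lt.1
      have l2 := lt.2
      obtain ⟨b, b1, b2, b3⟩ := h.ivt (v := ((m + 1 + j : ℤ) : ℝ) * (π / 2)) a2
        (by push_cast; linarith) l1
      obtain ⟨k3, k4, k5⟩ := h.chain c a4 j b b1 (by rw [b3]; push_cast; ring)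
      obtain ⟨i, hi, hA⟩ := c.cover (m + 1) (x a) (y a)
      have hj3 : j ≤ 3 := by
        by_contra hj4
        exact k5 i (by omega) hA
      have hj3' : (j : ℝ) ≤ 3 := by exact_mod_cast hj3
      obtain ⟨k6, k7⟩ := h.move c b2 ⟨b3.ge, by rw [b3]; linarith⟩ lt
      rw [k3] at k6
      rw [k4] at k7
      push_cast at l2
      refine ⟨(abs_sub_le _ (x a) _).trans (by linarith), (abs_sub_le _ (y a) _).trans (by linarith),
        ?_⟩
      have := ls.1
      nlinarith

end Sol

theorem Cut.X3_diam (c : Cut A B) {γ : ℝ → Fin 3 → ℝ} (hγ : ∀ t, HasDerivAt γ (X3 A B (γ t)) t)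
    (s t : ℝ) (i : Fin 3) : |γ s i - γ t i| ≤ 3 * π := by
  have h : Sol A B (fun t => γ t 0) (fun t => γ t 1) fun t => γ t 2 :=
    ⟨fun t => by simpa [X3] using hasDerivAt_pi.1 (hγ t) 0,
      fun t => by simpa [X3] using hasDerivAt_pi.1 (hγ t) 1,
      fun t => by simpa [X3] using hasDerivAt_pi.1 (hγ t) 2⟩
  have key : ∀ s t, s ≤ t → |γ t i - γ s i| ≤ 3 * π := by
    intro s t hst
    obtain ⟨h0, h1, h2⟩ := h.bound c hst
    fin_cases i
    exacts [h0, h1, h2]
  rcases le_total s t with hst | hst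
  · rw [abs_sub_comm]; exact key s t hst
  · exact key t s hst

end Pool.Agent.P.MP_ff4c85_gt
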