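import Pool.Agent.P.MP_ff4c85_gt.F5c

/-! The divergence free field on five-space. -/

set_option autoImplicit false

open Set Filter Topology Real
open scoped ContDiff

namespace Pool.Agent.P.MP_ff4c85_gt

variable (A B : ℝ → ℝ)

noncomputable def dm (m : ℤ) (x y z : ℝ) : ℝ :=
  A (hh m x y ^ 2) * (deriv B (cos (ww m z)) * sin (ww m z))

/-- the divergence of the field on three-space -/
noncomputable def DD (x y z : ℝ) : ℝ :=
  dm A B 0 x y z + dm A B 1 x y z + dm A B 2 x y z + dm A B 3 x y z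

noncomputable def lam (u v : ℝ) : ℝ := cos u ^ 2 - sin v ^ 2

noncomputable def W5 (q : Fin 5 → ℝ) : Fin 5 → ℝ :=
  ![lam (q 3) (q 4) * PP A B (q 0) (q 1) (q 2), lam (q 3) (q 4) * QQ A B (q 0) (q 1) (q 2),
    lam (q 3) (q 4) * RR A B (q 0) (q 1) (q 2),
    (cos (q 4) - DD A B (q 0) (q 1) (q 2) * cos (q 3) / 2) * sin (q 3),
    (-cos (q 3) - DD A B (q 0) (q 1) (q 2) * cos (q 4) / 2) * sin (q 4)]

/-- derivative of the horizontal part -/
noncomputable def em (m : ℤ) (x y z : ℝ) : ℝ :=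
  B (cos (ww m z)) * sin (ww m z) * (cos (x + m * (π / 4)) * cos (y + m * (π / 4))) *
    (2 * deriv A (hh m x y ^ 2) * hh m x y ^ 2 + A (hh m x y ^ 2))

variable {A B}

theorem Cut.d_pm (c : Cut A B) (m : ℤ) (x y z : ℝ) :
    HasDerivAt (fun x => pm A B m x y z) (em A B m x y z) x := by
  have h1 := ((hasDerivAt_id' x).add_const (m * (π / 4))).sin
  have h2 := (c.sA.differentiable (by simp) (hh m x y ^ 2)).hasDerivAt.comp x
    ((h1.mul_const (sin (y + m * (π / 4)))).fun_pow 2)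
  have h3 := ((h2.mul_const (B (cos (ww m z)))).mul_const (sin (ww m z))).fun_mul
    (h1.mul_const (cos (y + m * (π / 4))))
  refine HasDerivAt.congr_deriv h3 ?_
  simp only [em, hh, Function.comp_def]
  norm_num
  ring

theorem Cut.d_qm (c : Cut A B) (m : ℤ) (x y z : ℝ) :
    HasDerivAt (fun y => qm A B m x y z) (-em A B m x y z) y := by
  have h1 := ((hasDerivAt_id' y).add_const (m * (π / 4))).sin
  have h2 := (c.sA.differentiable (by simp) (hh m x y ^ 2)).hasDerivAt.comp y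
    ((h1.const_mul (sin (x + m * (π / 4)))).fun_pow 2)
  have h3 := (((h2.mul_const (B (cos (ww m z)))).mul_const (sin (ww m z))).fun_mul
    (h1.const_mul (cos (x + m * (π / 4))))).fun_neg
  refine HasDerivAt.congr_deriv h3 ?_
  simp only [em, hh, Function.comp_def]
  norm_num
  ring

theorem Cut.d_ab (c : Cut A B) (m : ℤ) (x y z : ℝ) :
    HasDerivAt (fun z => ab A B m x y z) (-dm A B m x y z) z := by
  have h1 := (((hasDerivAt_id' z).sub_const (m * (π / 2))).sub_const (π / 4)).cos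
  have h2 := ((c.sB.differentiable (by simp) (cos (ww m z))).hasDerivAt.comp z h1).const_mul
    (A (hh m x y ^ 2))
  refine HasDerivAt.congr_deriv h2 ?_
  simp only [dm, ww]
  ring

theorem Cut.D_smooth (c : Cut A B) :
    ContDiff ℝ ∞ fun p : ℝ × ℝ × ℝ => DD A B p.1 p.2.1 p.2.2 := by
  have h1 := c.sA
  have h2 : ContDiff ℝ ∞ (deriv B) := (contDiff_infty_iff_deriv.1 c.sB).2
  unfold DD dm hh ww
  fun_prop

theorem Cut.W5_smooth (c : Cut A B) : ContDiff ℝ ∞ (W5 A B) := by
  have h0 : ContDiff ℝ ∞ fun p : Fin 5 → ℝ => ((p 0, p 1, p 2) : ℝ × ℝ × ℝ) := by fun_prop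
  have h1 : ContDiff ℝ ∞ fun p : Fin 5 → ℝ => PP A B (p 0) (p 1) (p 2) := by
    simpa only [Function.comp_def] using c.P_smooth.comp h0
  have h2 : ContDiff ℝ ∞ fun p : Fin 5 → ℝ => QQ A B (p 0) (p 1) (p 2) := by
    simpa only [Function.comp_def] using c.Q_smooth.comp h0
  have h3 : ContDiff ℝ ∞ fun p : Fin 5 → ℝ => RR A B (p 0) (p 1) (p 2) := by
    simpa only [Function.comp_def] using c.R_smooth.comp h0
  have h4 : ContDiff ℝ ∞ fun p : Fin 5 → ℝ => DD A B (p 0) (p 1) (p 2) := by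
    simpa only [Function.comp_def] using c.D_smooth.comp h0
  have h5 : ContDiff ℝ ∞ fun p : Fin 5 → ℝ => lam (p 3) (p 4) := by
    unfold lam
    fun_prop
  have h6 : ∀ i, ContDiff ℝ ∞ fun p : Fin 5 → ℝ => cos (p i) := fun i => by fun_prop
  have h7 : ∀ i, ContDiff ℝ ∞ fun p : Fin 5 → ℝ => sin (p i) := fun i => by fun_prop
  refine contDiff_pi.2 fun i => ?_
  fin_cases i
  · simpa [W5] using h5.mul h1
  · simpa [W5] using h5.mul h2
  · simpa [W5] using h5.mul h3
  · simpa [W5] using ((h6 4).sub ((h4.mul (h6 3)).div_const 2)).mul (h7 3)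
  · simpa [W5] using ((h6 3).neg.sub ((h4.mul (h6 4)).div_const 2)).mul (h7 4)

theorem D_per (x y z : ℝ) : DD A B (x + 2 * π) y z = DD A B x y z ∧
    DD A B x (y + 2 * π) z = DD A B x y z ∧ DD A B x y (z + 2 * π) = DD A B x y z := by
  simp only [DD, dm, hh, ww, add_right_comm _ (2 * π), add_sub_right_comm _ (2 * π),
    sin_add_two_pi, cos_add_two_pi, and_self]

theorem W5_per (i : Fin 5) (q : Fin 5 → ℝ) : W5 A B (q + Pi.single i (2 * π)) = W5 A B q := by
  fin_cases i <;> simp [W5, PQR_per, D_per, lam]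

theorem Cut.W5_trace (c : Cut A B) (q : Fin 5 → ℝ) :
    LinearMap.trace ℝ _ (fderiv ℝ (W5 A B) q : (Fin 5 → ℝ) →ₗ[ℝ] (Fin 5 → ℝ)) = 0 := by
  have hE := fun m => c.d_pm m (q 0) (q 1) (q 2)
  have hF := fun m => c.d_qm m (q 0) (q 1) (q 2)
  have hG := fun m => c.d_ab m (q 0) (q 1) (q 2)
  have h0 := ((((hE 0).fun_add (hE 1)).fun_add (hE 2)).fun_add (hE 3)).const_mul (lam (q 3) (q 4))
  have h1 := ((((hF 0).fun_add (hF 1)).fun_add (hF 2)).fun_add (hF 3)).const_mul (lam (q 3) (q 4))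
  have h2 := (((((hG 0).fun_add (hG 1)).fun_add (hG 2)).fun_add (hG 3)).const_sub 1).const_mul
    (lam (q 3) (q 4))
  have h3 := ((((hasDerivAt_cos (q 3)).const_mul (DD A B (q 0) (q 1) (q 2))).div_const 2).const_sub
    (cos (q 4))).fun_mul (hasDerivAt_sin (q 3))
  have h4 := ((((hasDerivAt_cos (q 4)).const_mul (DD A B (q 0) (q 1) (q 2))).div_const 2).const_sub
    (-cos (q 3))).fun_mul (hasDerivAt_sin (q 4))
  rw [trace_eq_sum (c.W5_smooth.differentiable (by simp) q) (D := ![_, _, _, _, _]) fun i => by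
    fin_cases i
    · simpa only [W5, PP, Fin.zero_eta, Matrix.cons_val_zero, Function.update_self, ne_eq,
        Fin.reduceEq, not_false_eq_true, Function.update_of_ne] using h0
    · simpa only [W5, QQ, Fin.mk_one, Matrix.cons_val_one, Matrix.cons_val_zero,
        Function.update_self, ne_eq, Fin.reduceEq, not_false_eq_true, Function.update_of_ne]
        using h1
    · simpa only [W5, RR, Fin.reduceFinMk, Matrix.cons_val, Function.update_self, ne_eq,
        Fin.reduceEq, not_false_eq_true, Function.update_of_ne] using h2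
    · simpa only [W5, Fin.reduceFinMk, Matrix.cons_val, Function.update_self, ne_eq,
        Fin.reduceEq, not_false_eq_true, Function.update_of_ne] using h3
    · simpa only [W5, Fin.reduceFinMk, Matrix.cons_val, Function.update_self, ne_eq,
        Fin.reduceEq, not_false_eq_true, Function.update_of_ne] using h4]
  simp only [Fin.sum_univ_five, Matrix.cons_val_zero, Matrix.cons_val_one, Matrix.cons_val, lam]
  have e1 := sin_sq_add_cos_sq (q 3)
  have e2 := sin_sq_add_cos_sq (q 4)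
  have e3 : DD A B (q 0) (q 1) (q 2) = _ := rfl
  unfold DD at e3 ⊢
  linear_combination (dm A B 0 (q 0) (q 1) (q 2) + dm A B 1 (q 0) (q 1) (q 2) +
    dm A B 2 (q 0) (q 1) (q 2) + dm A B 3 (q 0) (q 1) (q 2)) / 2 * (e1 - e2)

theorem Cut.W5_ne (c : Cut A B) (q : Fin 5 → ℝ) : W5 A B q ≠ 0 := by
  intro h
  have h0 := congrFun h 0
  have h1 := congrFun h 1
  have h2 := congrFun h 2
  have h3 := congrFun h 3
  have h4 := congrFun h 4
  simp only [W5, Matrix.cons_val_zero, Matrix.cons_val_one, Matrix.cons_val, Pi.zero_apply]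
    at h0 h1 h2 h3 h4
  have hl : lam (q 3) (q 4) = 0 := by
    by_contra hl
    exact c.X3_ne _ _ _ ⟨(mul_eq_zero.1 h0).resolve_left hl, (mul_eq_zero.1 h1).resolve_left hl,
      (mul_eq_zero.1 h2).resolve_left hl⟩
  have e1 := sin_sq_add_cos_sq (q 3)
  have e2 := sin_sq_add_cos_sq (q 4)
  simp only [lam] at hl
  generalize DD A B (q 0) (q 1) (q 2) = d at h3 h4
  generalize sin (q 3) = s at *
  generalize cos (q 3) = k at *
  generalize sin (q 4) = s' at *
  generalize cos (q 4) = k' at *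
  have h5 : s * s' = 0 := by
    linear_combination (s' * k') * h3 - (s * k) * h4 - s * s' * (e2 + hl)
  rcases mul_eq_zero.1 h5 with h6 | h6
  · have h7 : k' = 0 := by nlinarith
    rw [h7] at h4 e2
    rw [h6] at e1
    have h8 : (k * s') ^ 2 = 0 := by
      rw [show k * s' = 0 by linarith]; ring
    nlinarith
  · have h7 : k = 0 := by nlinarith
    rw [h7] at h3 e1
    rw [h6] at e2
    have h8 : (k' * s) ^ 2 = 0 := by
      rw [show k' * s = 0 by linarith]; ring
    nlinarith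

theorem Cut.W5_diam (c : Cut A B) (γ : ℝ → Fin 5 → ℝ) (hγ : ∀ t, HasDerivAt γ (W5 A B (γ t)) t)
    (s t : ℝ) : dist (γ s) (γ t) ≤ 3 * π := by
  have hc : Continuous γ := continuous_iff_continuousAt.2 fun t => (hγ t).continuousAt
  have hd := fun t => hasDerivAt_pi.1 (hγ t)
  obtain ⟨K, C, hK, hC⟩ := c.X3_lip
  obtain ⟨φ, hφ⟩ := exists_isFlow hK hC
  have h1 := hφ.reparam hK (f := fun t => ![γ t 0, γ t 1, γ t 2])
    (a := fun t => lam (γ t 3) (γ t 4)) (by unfold lam; fun_prop) fun t => by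
      refine hasDerivAt_pi.2 fun i => ?_
      fin_cases i
      · simpa [X3, W5] using hd t 0
      · simpa [X3, W5] using hd t 1
      · simpa [X3, W5] using hd t 2
  have h2 : ∀ i, |(![γ s 0, γ s 1, γ s 2] : Fin 3 → ℝ) i - ![γ t 0, γ t 1, γ t 2] i| ≤ 3 * π := by
    intro i
    rw [h1 s, h1 t]
    exact c.X3_diam (hφ.deriv _) _ _ i
  have hD : Continuous fun t => DD A B (γ t 0) (γ t 1) (γ t 2) := by
    simpa only [Function.comp_def] using c.D_smooth.continuous.comp
      (show Continuous fun t => ((γ t 0, γ t 1, γ t 2) : ℝ × ℝ × ℝ) by fun_prop)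
  have h3 := sin_barrier (f := fun t => γ t 3)
    (g := fun t => cos (γ t 4) - DD A B (γ t 0) (γ t 1) (γ t 2) * cos (γ t 3) / 2)
    (by fun_prop) (fun t => by simpa [W5] using hd t 3) s t
  have h4 := sin_barrier (f := fun t => γ t 4)
    (g := fun t => -cos (γ t 3) - DD A B (γ t 0) (γ t 1) (γ t 2) * cos (γ t 4) / 2)
    (by fun_prop) (fun t => by simpa [W5] using hd t 4) s t
  refine (dist_pi_le_iff (by positivity)).2 fun i => ?_
  rw [Real.dist_eq]
  fin_cases i
  · exact h2 0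
  · exact h2 1
  · exact h2 2
  · exact h3.trans (by linarith [pi_pos])
  · exact h4.trans (by linarith [pi_pos])

theorem exists_good5 : ∃ (W : (Fin 5 → ℝ) → Fin 5 → ℝ) (K : NNReal) (C D : ℝ)
    (b : Module.Basis (Fin 5) ℝ (Fin 5 → ℝ)), Good W K C D ∧ ∀ i x, W (x + b i) = W x := by
  obtain ⟨A, B, c⟩ := exists_cut
  obtain ⟨K, hK⟩ := per_lip c.W5_smooth two_pi_pos W5_per
  obtain ⟨C, hC⟩ := per_bound c.W5_smooth.continuous two_pi_pos W5_per
  refine ⟨W5 A B, K, C, 3 * π, (Pi.basisFun ℝ (Fin 5)).unitsSMul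
    fun _ => Units.mk0 (2 * π) two_pi_pos.ne',
    ⟨c.W5_smooth, hK, hC, c.W5_trace, c.W5_ne, c.W5_diam⟩, fun i x => ?_⟩
  rw [← W5_per i x, Module.Basis.unitsSMul_apply]
  congr 2
  ext j
  by_cases h : j = i <;> simp [h, Units.smul_def]

end Pool.Agent.P.MP_ff4c85_gt
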