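import Pool.Agent.P.MP_ff4c85_gt.Liou

/-! From one good field in dimension `d` to the final theorem in every dimension `n ≥ d`. -/

set_option autoImplicit false

open Set Filter Topology MeasureTheory Metric
open scoped ContDiff

namespace Pool.Agent.P.MP_ff4c85_gt

section

variable {X Y : Type*} [NormedAddCommGroup X] [NormedSpace ℝ X] [NormedAddCommGroup Y]
  [NormedSpace ℝ Y]

/-- smooth bounded Lipschitz divergence free field without zeros and with trajectories of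
diameter at most `D` -/
structure Good (W : X → X) (K : NNReal) (C D : ℝ) : Prop where
  smooth : ContDiff ℝ ∞ W
  lip : LipschitzWith K W
  bound : ∀ x, ‖W x‖ ≤ C
  trace : ∀ x, LinearMap.trace ℝ X (fderiv ℝ W x : X →ₗ[ℝ] X) = 0
  ne : ∀ x, W x ≠ 0
  diam : ∀ γ : ℝ → X, (∀ t, HasDerivAt γ (W (γ t)) t) → ∀ s t, dist (γ s) (γ t) ≤ D

namespace Good

variable {W : X → X} {K : NNReal} {C D : ℝ}

theorem diff (h : Good W K C D) : Differentiable ℝ W := h.smooth.differentiable (by simp)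

theorem prod [FiniteDimensional ℝ X] [FiniteDimensional ℝ Y] (h : Good W K C D) :
    Good (fun p : X × Y => (W p.1, (0 : Y))) K C D where
  smooth := (h.smooth.comp contDiff_fst).prodMk contDiff_const
  lip := LipschitzWith.of_dist_le_mul fun p q => by
    rw [Prod.dist_eq, dist_self, max_eq_left dist_nonneg]
    exact (h.lip.dist_le_mul _ _).trans
      (mul_le_mul_of_nonneg_left (by rw [Prod.dist_eq]; exact le_max_left _ _) K.2)
  bound p := by
    rw [Prod.norm_def, norm_zero, max_eq_left (norm_nonneg _)]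
    exact h.bound _
  trace p := by
    have h1 : HasFDerivAt (fun p : X × Y => (W p.1, (0 : Y)))
        ((fderiv ℝ W p.1).prodMap (0 : Y →L[ℝ] Y)) p :=
      HasFDerivAt.prodMap (f := W) (f₂ := fun _ : Y => (0 : Y)) p (h.diff p.1).hasFDerivAt
        (hasFDerivAt_const _ _)
    rw [h1.fderiv, ContinuousLinearMap.coe_prodMap, LinearMap.trace_prodMap', h.trace]
    simp
  ne p hp := h.ne p.1 (congrArg Prod.fst hp)
  diam γ hγ s t := by
    have h1 := h.diam (fun t => (γ t).1) (fun t =>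
      (ContinuousLinearMap.fst ℝ X Y).hasFDerivAt.comp_hasDerivAt t (hγ t)) s t
    have h0 : ∀ t, HasDerivAt (fun t => (γ t).2) 0 t := fun t =>
      (ContinuousLinearMap.snd ℝ X Y).hasFDerivAt.comp_hasDerivAt t (hγ t)
    have h2 : (γ s).2 = (γ t).2 :=
      is_const_of_deriv_eq_zero (f := fun t => (γ t).2) (fun t => (h0 t).differentiableAt)
        (fun t => (h0 t).deriv) s t
    rw [Prod.dist_eq, h2, dist_self, max_eq_left dist_nonneg]
    exact h1

theorem conj (h : Good W K C D) (L : X ≃L[ℝ] Y) :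
    Good (fun y => L (W (L.symm y))) (‖(L : X →L[ℝ] Y)‖₊ * (K * ‖(L.symm : Y →L[ℝ] X)‖₊))
      (‖(L : X →L[ℝ] Y)‖ * C) (‖(L : X →L[ℝ] Y)‖ * D) where
  smooth := L.contDiff.comp (h.smooth.comp L.symm.contDiff)
  lip := L.lipschitz.comp (h.lip.comp L.symm.lipschitz)
  bound y := ((L : X →L[ℝ] Y).le_opNorm _).trans
    (mul_le_mul_of_nonneg_left (h.bound _) (norm_nonneg _))
  trace y := by
    have h1 : HasFDerivAt (fun y => L (W (L.symm y)))
        ((L : X →L[ℝ] Y).comp ((fderiv ℝ W (L.symm y)).comp (L.symm : Y →L[ℝ] X))) y :=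
      L.hasFDerivAt.comp y ((h.diff _).hasFDerivAt.comp y L.symm.hasFDerivAt)
    rw [h1.fderiv, ← h.trace (L.symm y), ← LinearMap.trace_conj' _ L.toLinearEquiv]
    congr 1
  ne y hy := h.ne _ (L.map_eq_zero_iff.1 hy)
  diam γ hγ s t := by
    have h1 := h.diam (fun t => L.symm (γ t)) (fun t => by
      simpa [Function.comp_def] using L.symm.hasFDerivAt.comp_hasDerivAt t (hγ t)) s t
    have h2 := L.lipschitz.dist_le_mul (L.symm (γ s)) (L.symm (γ t))
    rw [L.apply_symm_apply, L.apply_symm_apply] at h2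
    exact h2.trans (mul_le_mul_of_nonneg_left h1 (norm_nonneg _))

theorem scale (h : Good W K C D) {c r : NNReal} (hc : 0 < c) (hr : 0 < r) :
    Good (fun x => (c : ℝ) • W ((r : ℝ) • x)) (c * (K * r)) (c * C) (D / r) where
  smooth := (h.smooth.comp (contDiff_const_smul _)).const_smul _
  lip := LipschitzWith.of_dist_le_mul fun x y => by
    have h1 := h.lip.dist_le_mul ((r : ℝ) • x) ((r : ℝ) • y)
    rw [dist_smul₀, NNReal.norm_eq] at h1
    rw [dist_smul₀, NNReal.norm_eq]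
    push_cast
    rw [mul_assoc, mul_assoc]
    exact mul_le_mul_of_nonneg_left h1 c.2
  bound x := by
    rw [norm_smul, NNReal.norm_eq]
    exact mul_le_mul_of_nonneg_left (h.bound _) c.2
  trace x := by
    have h1 := ((h.diff ((r : ℝ) • x)).hasFDerivAt.comp x
      ((hasFDerivAt_id x).const_smul (r : ℝ))).const_smul (c : ℝ)
    have h2 : fderiv ℝ (fun x => (c : ℝ) • W ((r : ℝ) • x)) x = _ := h1.fderiv
    rw [h2]
    simp [h.trace]
  ne x := smul_ne_zero (NNReal.coe_pos.2 hc).ne' (h.ne _)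
  diam γ hγ s t := by
    have hc' : (0 : ℝ) < c := hc
    have hr' : (0 : ℝ) < r := hr
    have h1 := h.diam (fun t => (r : ℝ) • γ (t / (c * r))) (fun t => by
      have h2 := ((hγ (t / (c * r))).scomp t ((hasDerivAt_id t).div_const (c * r : ℝ))).const_smul
        (r : ℝ)
      rw [smul_smul, smul_smul, show (r : ℝ) * (1 / (c * r)) * c = 1 by field_simp, one_smul] at h2
      exact h2) (s * (c * r)) (t * (c * r))
    rw [mul_div_cancel_right₀ _ (by positivity), mul_div_cancel_right₀ _ (by positivity),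
      dist_smul₀, NNReal.norm_eq] at h1
    rw [le_div_iff₀ hr', mul_comm]
    exact h1

end Good

theorem IsFlow.translate {W : X → X} {φ : ℝ → X → X} {K : NNReal} (h : IsFlow W φ)
    (hK : LipschitzWith K W) {v : X} (hv : ∀ x, W (x + v) = W x) (t : ℝ) (x : X) :
    φ t (x + v) = φ t x + v := by
  have := h.eq_sol hK (f := fun t => φ t x + v)
    (fun t => by rw [hv]; exact (h.deriv x t).add_const v) t
  rw [this, h.zero]

theorem IsFlow.iterate {W : X → X} {φ : ℝ → X → X} {K : NNReal} (h : IsFlow W φ)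
    (hK : LipschitzWith K W) (j : ℕ) (x : X) : (φ 1)^[j] x = φ j x := by
  induction j with
  | zero => simp [h.zero]
  | succ j ih => rw [Function.iterate_succ_apply', ih, ← h.add hK, Nat.cast_succ, add_comm]

end

/-- transport of a good field to the Euclidean spaces of dimension at least `d` -/
theorem Good.euclid {X : Type*} [NormedAddCommGroup X] [NormedSpace ℝ X] {d : ℕ}
    (b : Module.Basis (Fin d) ℝ X) {W : X → X} {K : NNReal} {C D : ℝ} (h : Good W K C D)
    (n : ℕ) (hn : d ≤ n) (ε : ℝ) (hε : 0 < ε) :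
    ∃ (V : EuclideanSpace ℝ (Fin n) → EuclideanSpace ℝ (Fin n)) (K' : NNReal) (C' D' δ : ℝ),
      Good V K' C' D' ∧ K' < 1 ∧ D' < ε ∧ 0 < δ ∧
      ((∀ i x, W (x + b i) = W x) → ∀ i x, V (x + EuclideanSpace.single i δ) = V x) := by
  haveI : FiniteDimensional ℝ X := Module.Finite.of_basis b
  obtain ⟨m, rfl⟩ := Nat.exists_eq_add_of_le hn
  set b' := b.prod (Pi.basisFun ℝ (Fin m)) with hb'
  set L : (X × (Fin m → ℝ)) ≃L[ℝ] EuclideanSpace ℝ (Fin (d + m)) :=
    (b'.equiv (EuclideanSpace.basisFun (Fin (d + m)) ℝ).toBasis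
      finSumFinEquiv).toContinuousLinearEquiv with hL
  have h1 := (h.prod (Y := Fin m → ℝ)).conj L
  generalize ‖(L : (X × (Fin m → ℝ)) →L[ℝ] EuclideanSpace ℝ (Fin (d + m)))‖₊ *
    (K * ‖(L.symm : EuclideanSpace ℝ (Fin (d + m)) →L[ℝ] (X × (Fin m → ℝ)))‖₊) = K1 at h1
  generalize ‖(L : (X × (Fin m → ℝ)) →L[ℝ] EuclideanSpace ℝ (Fin (d + m)))‖ * C = C1 at h1
  generalize ‖(L : (X × (Fin m → ℝ)) →L[ℝ] EuclideanSpace ℝ (Fin (d + m)))‖ * D = D1 at h1
  obtain ⟨r, hr, hrD⟩ : ∃ r : NNReal, 0 < r ∧ D1 / r < ε := by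
    have h2 : 0 < (|D1| + 1) / ε := by positivity
    refine ⟨⟨(|D1| + 1) / ε, h2.le⟩, h2, ?_⟩
    change D1 / ((|D1| + 1) / ε) < ε
    rw [div_lt_iff₀ h2, mul_div_cancel₀ _ hε.ne']
    linarith [le_abs_self D1]
  have hc : 0 < (K1 * r + 1)⁻¹ := by positivity
  have hr' : (0 : ℝ) < r := hr
  refine ⟨_, _, _, _, (r : ℝ)⁻¹, h1.scale hc hr, ?_, hrD, by positivity, fun hp i x => ?_⟩
  · rw [inv_mul_lt_iff₀ (by positivity), mul_one]
    exact lt_add_one _
  · obtain ⟨j, rfl⟩ := finSumFinEquiv.surjective i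
    have h2 : (r : ℝ) • (x + EuclideanSpace.single (finSumFinEquiv j) (r : ℝ)⁻¹) =
        (r : ℝ) • x + L (b' j) := by
      have h3 : L (b' j) = EuclideanSpace.single (finSumFinEquiv j) 1 := by
        simp [hL]
      rw [h3, smul_add]
      congr 1
      ext k
      by_cases hk : k = finSumFinEquiv j <;> simp [hk, hr'.ne']
    simp only [h2, map_add, L.symm_apply_apply, Prod.fst_add]
    rcases j with j | j
    · rw [hb', Module.Basis.prod_apply_inl_fst, hp]
    · rw [hb', Module.Basis.prod_apply_inr_fst, add_zero]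

/-- (FIN) -/
theorem Good.final {X : Type*} [NormedAddCommGroup X] [NormedSpace ℝ X] {d : ℕ}
    (b : Module.Basis (Fin d) ℝ X) {W : X → X} {K : NNReal} {C D : ℝ} (h : Good W K C D)
    (n : ℕ) (hn : d ≤ n) (ε : ℝ) (hε : 0 < ε) :
    ∃ (V : EuclideanSpace ℝ (Fin n) → EuclideanSpace ℝ (Fin n))
      (φ : ℝ → EuclideanSpace ℝ (Fin n) ≃ₜ EuclideanSpace ℝ (Fin n)),
      ContDiff ℝ ∞ V ∧ (∀ x, V x ≠ 0) ∧
      (∀ x, LinearMap.trace ℝ _ (fderiv ℝ V x).toLinearMap = 0) ∧
      (∀ x, φ 0 x = x) ∧ (∀ s t x, φ (s + t) x = φ s (φ t x)) ∧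
      (∀ x t, HasDerivAt (fun t => φ t x) (V (φ t x)) t) ∧
      (∀ t, MeasurePreserving (φ t) volume volume) ∧
      (∀ x s t, dist (φ s x) (φ t x) < ε) ∧
      (∀ t, 0 < t → t ≤ 1 → ∀ x, φ t x ≠ x) ∧
      (∀ x (j k : ℕ), dist ((φ 1)^[j] x) ((φ 1)^[k] x) < ε) ∧
      ((∀ i x, W (x + b i) = W x) → ∃ δ : ℝ, 0 < δ ∧ ∀ i x,
        V (x + EuclideanSpace.single i δ) = V x ∧
          ∀ t, φ t (x + EuclideanSpace.single i δ) = φ t x + EuclideanSpace.single i δ) := by
  obtain ⟨V, K', C', D', δ, hV, hK, hD, hδ, hp⟩ := h.euclid b n hn ε hε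
  obtain ⟨φ, hφ⟩ := exists_isFlow hV.lip hV.bound
  have hd : ∀ x s t, dist (φ s x) (φ t x) < ε := fun x s t =>
    (hV.diam _ (hφ.deriv x) s t).trans_lt hD
  refine ⟨V, hφ.homeo hV.lip, hV.smooth, hV.ne, hV.trace, hφ.zero, hφ.add hV.lip, hφ.deriv,
    hφ.measurePreserving volume hV.lip hV.bound hV.diff hV.trace, hd, fun t ht ht1 x =>
      hφ.ne_self hV.lip hV.ne ht ?_ x, fun x j k => ?_,
    fun hW => ⟨δ, hδ, fun i x => ⟨hp hW i x, fun t => hφ.translate hV.lip (hp hW i) t x⟩⟩⟩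
  · have h1 : (K' : ℝ) < 1 := hK
    nlinarith [K'.2]
  · change dist ((φ 1)^[j] x) ((φ 1)^[k] x) < ε
    rw [hφ.iterate hV.lip, hφ.iterate hV.lip]
    exact hd x j k

end Pool.Agent.P.MP_ff4c85_gt
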