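import Mathlib

/-! Global flows of bounded Lipschitz vector fields. -/

set_option autoImplicit false

open Set Filter Topology

namespace Pool.Agent.P.MP_ff4c85_gt

variable {E : Type*} [NormedAddCommGroup E] [NormedSpace ℝ E]

/-- `φ` is the flow of `W` -/
structure IsFlow (W : E → E) (φ : ℝ → E → E) : Prop where
  zero : ∀ x, φ 0 x = x
  deriv : ∀ x t, HasDerivAt (fun t => φ t x) (W (φ t x)) t

theorem exists_sol [CompleteSpace E] {W : E → E} {K : NNReal} {C : ℝ} (hK : LipschitzWith K W)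
    (hC : ∀ x, ‖W x‖ ≤ C) (x : E) :
    ∃ γ : ℝ → E, γ 0 = x ∧ ∀ t, HasDerivAt γ (W (γ t)) t := by
  have hC0 : 0 ≤ C := (norm_nonneg _).trans (hC x)
  lift C to NNReal using hC0
  have loc : ∀ n : ℕ, ∃ y : ℝ → E, y 0 = x ∧
      ∀ t ∈ Ioo (-((n : ℝ) + 1)) (n + 1), HasDerivAt y (W (y t)) t := by
    intro n
    have hn : (0:ℝ) < n + 1 := by positivity
    have hP : IsPicardLindelof (fun _ x => W x) (tmin := -((n : ℝ) + 1)) (tmax := n + 1)
        ⟨0, by constructor <;> linarith⟩ x (C * (n + 1)) 0 C K :=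
      { lipschitzOnWith := fun _ _ => hK.lipschitzOnWith
        continuousOn := fun _ _ => continuousOn_const
        norm_le := fun _ _ x _ => hC x
        mul_max_le := by simp }
    obtain ⟨y, h0, hy⟩ := hP.exists_eq_forall_mem_Icc_hasDerivWithinAt₀
    exact ⟨y, h0, fun t ht => (hy t (Ioo_subset_Icc_self ht)).hasDerivAt (Icc_mem_nhds ht.1 ht.2)⟩
  choose Y h0 hY using loc
  have cons : ∀ n k : ℕ, n ≤ k → EqOn (Y n) (Y k) (Ioo (-((n : ℝ) + 1)) (n + 1)) := by
    intro n k hnk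
    have hn : (0:ℝ) < n + 1 := by positivity
    have hk : (n:ℝ) ≤ k := by exact_mod_cast hnk
    exact ODE_solution_unique_of_mem_Ioo (v := fun _ x => W x) (s := fun _ => univ) (K := K)
      (t₀ := 0) (fun t _ => hK.lipschitzOnWith) (by constructor <;> linarith)
      (fun t ht => ⟨hY n t ht, trivial⟩)
      (fun t ht => ⟨hY k t ⟨by linarith [ht.1], by linarith [ht.2]⟩, trivial⟩) (by rw [h0, h0])
  have mem : ∀ t : ℝ, t ∈ Ioo (-(((⌈|t|⌉₊ : ℕ) : ℝ) + 1)) ((⌈|t|⌉₊ : ℕ) + 1) := by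
    intro t
    have h1 := Nat.le_ceil |t|
    have h2 := le_abs_self t
    have h3 := neg_abs_le t
    constructor <;> linarith
  have key : ∀ (n : ℕ) (t : ℝ), t ∈ Ioo (-((n : ℝ) + 1)) (n + 1) → Y ⌈|t|⌉₊ t = Y n t := by
    intro n t ht
    rcases le_total n ⌈|t|⌉₊ with h | h
    · exact (cons _ _ h ht).symm
    · exact cons _ _ h (mem t)
  refine ⟨fun t => Y ⌈|t|⌉₊ t, h0 _, fun t => ?_⟩
  refine (hY _ t (mem t)).congr_of_eventuallyEq ?_
  filter_upwards [Ioo_mem_nhds (mem t).1 (mem t).2] with s hs using key _ s hs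

theorem exists_isFlow [CompleteSpace E] {W : E → E} {K : NNReal} {C : ℝ} (hK : LipschitzWith K W)
    (hC : ∀ x, ‖W x‖ ≤ C) : ∃ φ : ℝ → E → E, IsFlow W φ := by
  choose γ h0 h1 using exists_sol hK hC
  exact ⟨fun t x => γ x t, h0, h1⟩

theorem sol_unique {W : E → E} {K : NNReal} (hK : LipschitzWith K W) {f g : ℝ → E}
    (hf : ∀ t, HasDerivAt f (W (f t)) t) (hg : ∀ t, HasDerivAt g (W (g t)) t) {t₀ : ℝ}
    (h : f t₀ = g t₀) : f = g :=
  ODE_solution_unique_univ (v := fun _ x => W x) (s := fun _ => univ) (K := K) (t₀ := t₀)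
    (fun _ => hK.lipschitzOnWith) (fun t => ⟨hf t, trivial⟩) (fun t => ⟨hg t, trivial⟩) h

namespace IsFlow

variable {W : E → E} {φ : ℝ → E → E} {K : NNReal}

theorem cont_time (h : IsFlow W φ) (x : E) : Continuous fun t => φ t x :=
  continuous_iff_continuousAt.2 fun t => (h.deriv x t).continuousAt

/-- every global solution is a trajectory of the flow -/
theorem eq_sol (h : IsFlow W φ) (hK : LipschitzWith K W) {f : ℝ → E}
    (hf : ∀ t, HasDerivAt f (W (f t)) t) (t : ℝ) : f t = φ t (f 0) :=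
  congrFun (sol_unique hK hf (h.deriv (f 0)) (t₀ := 0) (h.zero _).symm) t

theorem add (h : IsFlow W φ) (hK : LipschitzWith K W) (s t : ℝ) (x : E) :
    φ (s + t) x = φ s (φ t x) := by
  have := h.eq_sol hK (f := fun s => φ (s + t) x) (fun s => (h.deriv x (s + t)).comp_add_const s t) s
  simpa using this

theorem neg_left (h : IsFlow W φ) (hK : LipschitzWith K W) (t : ℝ) (x : E) :
    φ (-t) (φ t x) = x := by rw [← h.add hK, neg_add_cancel, h.zero]

theorem neg_right (h : IsFlow W φ) (hK : LipschitzWith K W) (t : ℝ) (x : E) :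
    φ t (φ (-t) x) = x := by rw [← h.add hK, add_neg_cancel, h.zero]

/-- the reversed flow -/
theorem neg (h : IsFlow W φ) : IsFlow (fun x => -W x) fun t => φ (-t) where
  zero x := by rw [neg_zero, h.zero]
  deriv x t := by
    have := (h.deriv x (-t)).scomp t (hasDerivAt_neg t)
    simpa [Function.comp_def] using this

theorem dist_le_of_nonneg (h : IsFlow W φ) (hK : LipschitzWith K W) {t : ℝ} (ht : 0 ≤ t)
    (x y : E) : dist (φ t x) (φ t y) ≤ dist x y * Real.exp (K * t) := by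
  have := dist_le_of_trajectories_ODE (v := fun _ x => W x) (K := K) (a := 0) (b := t)
    (f := fun t => φ t x) (g := fun t => φ t y) (δ := dist x y) (fun _ => hK)
    (h.cont_time x).continuousOn (fun s _ => (h.deriv x s).hasDerivWithinAt)
    (h.cont_time y).continuousOn (fun s _ => (h.deriv y s).hasDerivWithinAt)
    (by simp only [h.zero]; exact le_rfl) t ⟨ht, le_rfl⟩
  simpa using this

theorem dist_le (h : IsFlow W φ) (hK : LipschitzWith K W) (t : ℝ) (x y : E) :
    dist (φ t x) (φ t y) ≤ dist x y * Real.exp (K * |t|) := by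
  rcases le_total 0 t with ht | ht
  · rw [abs_of_nonneg ht]
    exact h.dist_le_of_nonneg hK ht x y
  · rw [abs_of_nonpos ht]
    have := h.neg.dist_le_of_nonneg hK.neg (neg_nonneg.2 ht) x y
    simpa using this

theorem lipschitz (h : IsFlow W φ) (hK : LipschitzWith K W) (t : ℝ) :
    LipschitzWith ⟨Real.exp (K * |t|), (Real.exp_pos _).le⟩ (φ t) :=
  LipschitzWith.of_dist_le_mul fun x y => (h.dist_le hK t x y).trans_eq (mul_comm _ _)

theorem cont (h : IsFlow W φ) (hK : LipschitzWith K W) (t : ℝ) : Continuous (φ t) :=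
  (h.lipschitz hK t).continuous

/-- joint continuity -/
theorem cont_prod (h : IsFlow W φ) (hK : LipschitzWith K W) :
    Continuous fun p : ℝ × E => φ p.1 p.2 := by
  refine continuous_iff_continuousAt.2 fun p => ?_
  have h1 : Tendsto (fun q : ℝ × E => φ q.1 p.2) (𝓝 p) (𝓝 (φ p.1 p.2)) :=
    ((h.cont_time p.2).comp continuous_fst).tendsto p
  refine h1.congr_dist (squeeze_zero (fun _ => dist_nonneg) (fun q => h.dist_le hK q.1 p.2 q.2) ?_)
  have h2 : Continuous fun q : ℝ × E => dist p.2 q.2 * Real.exp (K * |q.1|) := by fun_prop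
  simpa using h2.tendsto p

/-- the time `t` map as a homeomorphism -/
def homeo (h : IsFlow W φ) (hK : LipschitzWith K W) (t : ℝ) : E ≃ₜ E where
  toFun := φ t
  invFun := φ (-t)
  left_inv := h.neg_left hK t
  right_inv := h.neg_right hK t
  continuous_toFun := h.cont hK t
  continuous_invFun := h.cont hK (-t)

/-- time change: a solution of `f' = a(t) W(f)` runs along a trajectory of `W` -/
theorem reparam (h : IsFlow W φ) (hK : LipschitzWith K W) {f : ℝ → E} {a : ℝ → ℝ}
    (ha : Continuous a) (hf : ∀ t, HasDerivAt f (a t • W (f t)) t) (t : ℝ) :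
    f t = φ (∫ s in (0 : ℝ)..t, a s) (f 0) := by
  have hg : ∀ u, HasDerivAt (fun u => φ (∫ s in (0 : ℝ)..u, a s) (f 0))
      (a u • W (φ (∫ s in (0 : ℝ)..u, a s) (f 0))) u := fun u =>
    (h.deriv (f 0) _).scomp u (ha.integral_hasStrictDerivAt 0 u).hasDerivAt
  obtain ⟨M, hM⟩ := (isCompact_Icc (a := -(|t| + 1)) (b := |t| + 1)).exists_bound_of_continuousOn
    ha.continuousOn
  have h2 := le_abs_self t
  have h3 := neg_abs_le t
  have h4 := abs_nonneg t
  refine ODE_solution_unique_of_mem_Ioo (v := fun u x => a u • W x) (s := fun _ => univ)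
    (K := M.toNNReal * K) (a := -(|t| + 1)) (b := |t| + 1) (t₀ := 0) (fun u hu => ?_)
    (by constructor <;> linarith) (fun u _ => ⟨hf u, trivial⟩) (fun u _ => ⟨hg u, trivial⟩)
    (by simp [h.zero]) (by constructor <;> linarith)
  refine LipschitzWith.lipschitzOnWith (LipschitzWith.of_dist_le_mul fun x y => ?_)
  rw [dist_smul₀, NNReal.coe_mul, mul_assoc]
  exact mul_le_mul ((hM u (Ioo_subset_Icc_self hu)).trans (Real.le_coe_toNNReal M))
    (hK.dist_le_mul x y) dist_nonneg (NNReal.coe_nonneg _)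

theorem move_le (h : IsFlow W φ) {x : E} {t M : ℝ} (hM : ∀ s ∈ Icc 0 t, ‖W (φ s x)‖ ≤ M)
    {a b : ℝ} (ha : a ∈ Icc 0 t) (hb : b ∈ Icc 0 t) : ‖φ b x - φ a x‖ ≤ M * t := by
  have h1 := Convex.norm_image_sub_le_of_norm_hasDerivWithin_le (f := fun s => φ s x)
    (f' := fun s => W (φ s x)) (s := Icc 0 t) (C := M)
    (fun s _ => (h.deriv x s).hasDerivWithinAt) hM (convex_Icc 0 t) ha hb
  have h2 : 0 ≤ M := (norm_nonneg _).trans (hM a ha)
  refine h1.trans (mul_le_mul_of_nonneg_left ?_ h2)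
  rw [Real.norm_eq_abs, abs_le]
  constructor <;> linarith [ha.1, ha.2, hb.1, hb.2]

theorem step_le (h : IsFlow W φ) (hK : LipschitzWith K W) {x : E} {t M : ℝ} (ht : 0 ≤ t)
    (hM : ∀ s ∈ Icc 0 t, ‖W (φ s x)‖ ≤ M) {a : ℝ} (ha : a ∈ Icc 0 t) :
    ‖φ t x - x - t • W (φ a x)‖ ≤ K * (M * t) * t := by
  have h1 := Convex.norm_image_sub_le_of_norm_hasDerivWithin_le
    (f := fun s => φ s x - s • W (φ a x))
    (f' := fun s => W (φ s x) - W (φ a x)) (s := Icc 0 t) (C := K * (M * t))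
    (fun s _ => by
      have := (h.deriv x s).fun_sub ((hasDerivAt_id' s).smul_const (W (φ a x)))
      rw [one_smul] at this
      exact this.hasDerivWithinAt)
    (fun s hs => by
      rw [← dist_eq_norm]
      refine (hK.dist_le_mul _ _).trans (mul_le_mul_of_nonneg_left ?_ K.2)
      rw [dist_eq_norm]
      exact h.move_le hM ha hs)
    (convex_Icc 0 t) (left_mem_Icc.2 ht) (right_mem_Icc.2 ht)
  simp only [h.zero, zero_smul, sub_zero, Real.norm_eq_abs, abs_of_nonneg ht] at h1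
  rwa [sub_right_comm]

/-- short time maps of a field without zeros have no fixed point -/
theorem ne_self (h : IsFlow W φ) (hK : LipschitzWith K W) (hW : ∀ x, W x ≠ 0) {t : ℝ}
    (ht : 0 < t) (hKt : K * t < 1) (x : E) : φ t x ≠ x := by
  intro hx
  obtain ⟨a, ha, hmax⟩ := (isCompact_Icc (a := 0) (b := t)).exists_isMaxOn
    (nonempty_Icc.2 ht.le) (f := fun s => ‖W (φ s x)‖)
    ((hK.continuous.comp (h.cont_time x)).norm.continuousOn)
  have h1 := h.step_le hK ht.le (M := ‖W (φ a x)‖) (fun s hs => hmax hs) ha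
  rw [hx, sub_self, zero_sub, norm_neg, norm_smul, Real.norm_eq_abs, abs_of_pos ht] at h1
  have h2 : 0 < ‖W (φ a x)‖ := norm_pos_iff.2 (hW _)
  have h3 : 0 < t * ‖W (φ a x)‖ := mul_pos ht h2
  nlinarith

end IsFlow

/-- (FLOW) in the unbundled form -/
theorem exists_flow [CompleteSpace E] {W : E → E} {K : NNReal} {C : ℝ} (hK : LipschitzWith K W)
    (hC : ∀ x, ‖W x‖ ≤ C) : ∃ φ : ℝ → E → E, (∀ x, φ 0 x = x) ∧
      (∀ s t x, φ (s + t) x = φ s (φ t x)) ∧ (∀ t, Continuous (φ t)) ∧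
      ∀ x t, HasDerivAt (fun t => φ t x) (W (φ t x)) t := by
  obtain ⟨φ, h⟩ := exists_isFlow hK hC
  exact ⟨φ, h.zero, h.add hK, h.cont hK, h.deriv⟩

end Pool.Agent.P.MP_ff4c85_gt
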