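import Pool.Agent.P.MP_ff4c85_gt.Cell
import Pool.Agent.P.MP_ff4c85_gt.Flow

/-! The divergence-free lift of a pair of fields on three-space to four-space. -/

set_option autoImplicit false

open Set Filter Topology Complex
open scoped ContDiff

namespace Pool.Agent.P.MP_ff4c85_gt

/-- the lifted field -/
noncomputable def WW (X Z : E3 → E3) (p : E4) : E4 :=
  (Real.cos p.2 • X p.1 + Real.sin p.2 • Z p.1, -(Real.sin p.2 * dv X p.1))

variable {X Z : E3 → E3}

theorem WW_cd (hX : ContDiff ℝ ∞ X) (hZ : ContDiff ℝ ∞ Z) : ContDiff ℝ ∞ (WW X Z) :=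
  (((Real.contDiff_cos.comp contDiff_snd).smul (hX.comp contDiff_fst)).add
    ((Real.contDiff_sin.comp contDiff_snd).smul (hZ.comp contDiff_fst))).prodMk
    ((Real.contDiff_sin.comp contDiff_snd).mul ((dv_cd hX).comp contDiff_fst)).neg

theorem has_41 {η : ℝ → E4} {w : E4} {u : ℝ} (h : HasDerivAt η w u) :
    HasDerivAt (fun s => (η s).1) w.1 u :=
  (ContinuousLinearMap.fst ℝ E3 ℝ).hasFDerivAt.comp_hasDerivAt u h

theorem has_42 {η : ℝ → E4} {w : E4} {u : ℝ} (h : HasDerivAt η w u) :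
    HasDerivAt (fun s => (η s).2) w.2 u :=
  (ContinuousLinearMap.snd ℝ E3 ℝ).hasFDerivAt.comp_hasDerivAt u h

theorem WW_trace (hX : ContDiff ℝ ∞ X) (hZ : ContDiff ℝ ∞ Z) (hd : ∀ x, dv Z x = 0) (p : E4) :
    LinearMap.trace ℝ E4 (fderiv ℝ (WW X Z) p : E4 →ₗ[ℝ] E4) = 0 := by
  have hW := (WW_cd hX hZ).differentiable (by simp) p
  have e1 : ∀ w : E3, (fderiv ℝ (WW X Z) p (w, 0)).1 =
      Real.cos p.2 • fderiv ℝ X p.1 w + Real.sin p.2 • fderiv ℝ Z p.1 w := fun w => by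
    refine (has_41 (has_line hW (w, 0))).unique ?_
    have a := ((has_line (hX.differentiable (by simp) p.1) w).const_smul (Real.cos p.2)).add
      ((has_line (hZ.differentiable (by simp) p.1) w).const_smul (Real.sin p.2))
    refine a.congr_of_eventuallyEq (Eventually.of_forall fun s => ?_)
    simp [WW]
  have e2 : (fderiv ℝ (WW X Z) p (0, 1)).2 = -(Real.cos p.2 * dv X p.1) := by
    refine (has_42 (has_line hW (0, 1))).unique ?_
    have a : HasDerivAt Real.sin (Real.cos p.2) (p.2 + 0) := by simpa using Real.hasDerivAt_sin p.2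
    refine (((a.comp_const_add p.2 0).mul_const (dv X p.1)).neg).congr_of_eventuallyEq
      (Eventually.of_forall fun s => ?_)
    simp [WW]
  have h0 := hd p.1
  rw [trace4]
  simp only [ContinuousLinearMap.coe_coe]
  rw [e1, e1, e1, e2]
  unfold dv at h0 ⊢
  simp only [Prod.fst_add, Prod.snd_add, Prod.smul_fst, Prod.smul_snd, add_re, add_im, smul_re,
    smul_im, smul_eq_mul]
  linear_combination Real.sin p.2 * h0

theorem WW_ne (hne : ∀ x, X x ≠ 0)
    (hi : ∀ x, dv X x = 0 → ∀ α β : ℝ, α • X x + β • Z x = 0 → β = 0) (p : E4) :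
    WW X Z p ≠ 0 := by
  intro h
  have h1 : Real.cos p.2 • X p.1 + Real.sin p.2 • Z p.1 = 0 := congrArg Prod.fst h
  have h2 : -(Real.sin p.2 * dv X p.1) = 0 := congrArg Prod.snd h
  have h3 : Real.sin p.2 = 0 := by
    rcases mul_eq_zero.1 (neg_eq_zero.1 h2) with h3 | h3
    · exact h3
    · exact hi _ h3 _ _ h1
  rw [h3, zero_smul, add_zero] at h1
  rcases smul_eq_zero.1 h1 with h4 | h4
  · have := Real.sin_sq_add_cos_sq p.2
    rw [h3, h4] at this
    norm_num at this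
  · exact hne _ h4

theorem slab {y d : ℝ → ℝ} (hd : Continuous d)
    (hy : ∀ t, HasDerivAt y (-(Real.sin (y t) * d t)) t) {s t : ℝ} (hst : s ≤ t) :
    |y t - y s| ≤ Real.pi := by
  have hc : Continuous y := continuous_iff_continuousAt.2 fun t => (hy t).continuousAt
  have hπ := Real.pi_pos
  by_cases h : ∃ u ∈ Icc s t, Real.sin (y u) = 0
  · obtain ⟨u, hu, h0⟩ := h
    obtain ⟨C, hC⟩ := (isCompact_Icc (a := s) (b := t)).exists_bound_of_continuousOn
      hd.continuousOn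
    have := zero_of_bound (f := fun w => y w - y u) (K := C) (fun w _ => (hy w).sub_const _)
      (fun w hw => by
        have h1 := Real.abs_sin_sub_sin_le (y w) (y u)
        rw [h0, sub_zero] at h1
        rw [norm_neg, norm_mul, mul_comm]
        exact mul_le_mul (hC w hw) h1 (norm_nonneg _) ((norm_nonneg _).trans (hC w hw)))
      hu (sub_self _)
    have h1 := this s ⟨le_rfl, hst⟩
    have h2 := this t ⟨hst, le_rfl⟩
    rw [show y t - y s = 0 by linarith, abs_zero]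
    exact hπ.le
  · have key : ∀ u ∈ Icc s t, ∀ w ∈ Icc s t, y w - y u ≤ Real.pi := by
      intro u hu w hw
      by_contra hn
      have h1 := Int.le_ceil (y u / Real.pi)
      have h2 := Int.ceil_lt_add_one (y u / Real.pi)
      rw [div_le_iff₀ hπ] at h1
      have h3 : (⌈y u / Real.pi⌉ : ℝ) * Real.pi < (y u / Real.pi + 1) * Real.pi :=
        mul_lt_mul_of_pos_right h2 hπ
      rw [add_mul, div_mul_cancel₀ _ hπ.ne', one_mul] at h3
      obtain ⟨x, hx, h4⟩ := ivt2 hc hu hw h1 (by linarith)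
      exact h ⟨x, hx, by rw [h4, Real.sin_int_mul_pi]⟩
    exact abs_le.2 ⟨by linarith [key t ⟨hst, le_rfl⟩ s ⟨le_rfl, hst⟩],
      key s ⟨le_rfl, hst⟩ t ⟨hst, le_rfl⟩⟩

theorem follow {K : NNReal} {φ : ℝ → E3 → E3} (hφ : IsFlow X φ) (hK : LipschitzWith K X)
    {x : ℝ → E3} {c : ℝ → ℝ} (hc : Continuous c) (hc1 : ∀ t, |c t| ≤ 1) {a b t0 : ℝ}
    (h0 : t0 ∈ Ioo a b) (hx : ∀ t ∈ Ioo a b, HasDerivAt x (c t • X (x t)) t) :
    ∀ t ∈ Ioo a b, ∃ τ, x t = φ τ (x t0) := by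
  intro t ht
  refine ⟨∫ s in t0..t, c s, ODE_solution_unique_of_mem_Ioo (v := fun t y => c t • X y)
    (s := fun _ => univ) (K := K) (f := x) (g := fun u => φ (∫ s in t0..u, c s) (x t0))
    (fun u _ => (LipschitzWith.of_dist_le_mul fun y z => ?_).lipschitzOnWith) h0
    (fun u hu => ⟨hx u hu, trivial⟩) (fun u _ => ⟨(hφ.deriv (x t0) _).scomp u
      (hc.integral_hasStrictDerivAt t0 u).hasDerivAt, trivial⟩) (by simp [hφ.zero]) ht⟩
  rw [dist_smul₀, Real.norm_eq_abs]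
  have := hK.dist_le_mul y z
  nlinarith [hc1 u, dist_nonneg (x := X y) (y := X z), abs_nonneg (c u)]

theorem WW_diam {I : Type} {K : NNReal} {C D : ℝ} {U Rg : I → Set E3} (hX : ContDiff ℝ ∞ X)
    (hK : LipschitzWith K X) (hC : ∀ x, ‖X x‖ ≤ C)
    (hD : ∀ γ : ℝ → E3, (∀ t, HasDerivAt γ (X (γ t)) t) → ∀ s t, ‖γ t - γ s‖ ≤ D)
    (hU : ∀ i, IsOpen (U i)) (hUD : ∀ i, ∀ x ∈ U i, ∀ y ∈ U i, ‖x - y‖ ≤ D)
    (hb : ∀ γ : ℝ → E3, (∀ t, HasDerivAt γ (X (γ t)) t) → ∀ i s t, s ≤ t → γ t ∈ U i →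
      γ s ∈ Rg i)
    (hR : ∀ i j x, x ∈ Rg i → x ∈ Rg j → U i = U j)
    (hZ : ∀ x, (∃ i, x ∈ U i) ∨ ∀ᶠ y in 𝓝 x, Z y = 0)
    (γ : ℝ → E4) (hγ : ∀ t, HasDerivAt γ (WW X Z (γ t)) t) (s t : ℝ) :
    dist (γ s) (γ t) ≤ 3 * D + Real.pi := by
  obtain ⟨φ, hφ⟩ := exists_isFlow hK hC
  have hγc : Continuous γ := continuous_iff_continuousAt.2 fun t => (hγ t).continuousAt
  have hD0 : 0 ≤ D := (norm_nonneg _).trans (hD _ (hφ.deriv 0) 0 0)
  have hπ := Real.pi_pos
  have hy : |(γ s).2 - (γ t).2| ≤ Real.pi := by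
    have hd : Continuous fun u => dv X (γ u).1 := (dv_cd hX).continuous.comp hγc.fst
    rcases le_total s t with h | h
    · rw [abs_sub_comm]; exact slab hd (fun u => has_42 (hγ u)) h
    · exact slab hd (fun u => has_42 (hγ u)) h
  have hmv : ∀ τ x, ‖φ τ x - x‖ ≤ D := fun τ x => by
    have := hD _ (hφ.deriv x) 0 τ
    rwa [hφ.zero] at this
  have hfol : ∀ {a b t0 : ℝ}, t0 ∈ Ioo a b → (∀ u ∈ Ioo a b, Z (γ u).1 = 0) →
      ∀ u ∈ Ioo a b, ∃ τ, (γ u).1 = φ τ (γ t0).1 := fun h0 hz =>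
    follow hφ hK (x := fun u => (γ u).1) (c := fun u => Real.cos (γ u).2)
      (Real.continuous_cos.comp hγc.snd) (fun u => Real.abs_cos_le_one _) h0 fun u hu =>
        (has_41 (hγ u)).congr_deriv (by simp [WW, hz u hu])
  have hBo : ∀ i, IsOpen {u : ℝ | ∃ τ, φ τ (γ u).1 ∈ U i} := fun i => by
    rw [ofPred_exists]
    exact isOpen_iUnion fun τ => (hU i).preimage ((hφ.cont hK τ).comp hγc.fst)
  have hx : ‖(γ s).1 - (γ t).1‖ ≤ 3 * D := by
    by_cases h : ∃ u i, (γ u).1 ∈ U i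
    · obtain ⟨u0, i, h0⟩ := h
      have hcl : IsClosed {u : ℝ | ∃ τ, φ τ (γ u).1 ∈ U i} := by
        refine isOpen_compl_iff.1 (isOpen_iff_mem_nhds.2 fun u hu => ?_)
        rcases hZ (γ u).1 with ⟨j, hj⟩ | hz
        · filter_upwards [(hBo j).mem_nhds ⟨0, by rwa [hφ.zero]⟩] with w hw hw'
          obtain ⟨τ, h1⟩ := hw
          obtain ⟨τ', h2⟩ := hw'
          have := hR i j _ (hb _ (hφ.deriv _) i _ _ (min_le_right τ τ') h2)
            (hb _ (hφ.deriv _) j _ _ (min_le_left τ τ') h1)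
          exact hu ⟨0, by rwa [hφ.zero, this]⟩
        · obtain ⟨a, b, h1, h2⟩ := mem_nhds_iff_exists_Ioo_subset.1
            (hγc.fst.continuousAt.eventually hz)
          filter_upwards [Ioo_mem_nhds h1.1 h1.2] with w hw hw'
          obtain ⟨τ, h3⟩ := hfol h1 h2 w hw
          obtain ⟨τ', h4⟩ := hw'
          exact hu ⟨τ' + τ, by rwa [hφ.add hK, ← h3]⟩
      have hall := (isClopen_iff.1 ⟨hcl, hBo i⟩).resolve_left
        (Nonempty.ne_empty ⟨u0, 0, by rwa [hφ.zero]⟩)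
      obtain ⟨τ, h1⟩ := eq_univ_iff_forall.1 hall s
      obtain ⟨τ', h2⟩ := eq_univ_iff_forall.1 hall t
      have h3 := hUD i _ h1 _ h2
      have h4 := hmv τ (γ s).1
      rw [norm_sub_rev] at h4
      have h5 := norm_add₃_le (a := (γ s).1 - φ τ (γ s).1) (b := φ τ (γ s).1 - φ τ' (γ t).1)
        (c := φ τ' (γ t).1 - (γ t).1)
      rw [sub_add_sub_cancel, sub_add_sub_cancel] at h5
      linarith [hmv τ' (γ t).1]
    · obtain ⟨τ, h1⟩ := hfol (a := min s t - 1) (b := max s t + 1) (t0 := t)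
        ⟨by linarith [min_le_right s t], by linarith [le_max_right s t]⟩
        (fun u _ => ((hZ (γ u).1).resolve_left fun h' => h ⟨u, h'⟩).self_of_nhds) s
        ⟨by linarith [min_le_left s t], by linarith [le_max_left s t]⟩
      rw [h1]
      linarith [hmv τ (γ t).1]
  rw [dist_eq_norm, Prod.norm_def, max_le_iff, Prod.fst_sub, Prod.snd_sub, Real.norm_eq_abs]
  exact ⟨by linarith, by linarith⟩

end Pool.Agent.P.MP_ff4c85_gt
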