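import Pool.Agent.P.MP_ff4c85_gt.Saw
import Pool.Agent.P.MP_ff4c85_gt.Lift
import Pool.Agent.P.MP_ff4c85_gt.Fin

/-! The periodic divergence-free field on four-space. -/

set_option autoImplicit false

open Set Filter Topology Complex
open scoped ContDiff

namespace Pool.Agent.P.MP_ff4c85_gt

theorem dv_add {X Y : E3 → E3} (hX : ContDiff ℝ ∞ X) (hY : ContDiff ℝ ∞ Y) (x : E3) :
    dv (fun y => X y + Y y) x = dv X x + dv Y x := by
  unfold dv
  rw [fderiv_fun_add (hX.differentiable (by simp) x) (hY.differentiable (by simp) x)]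
  simp only [add_apply, Prod.fst_add, Prod.snd_add, add_re, add_im]
  ring

theorem dv_patch (N : ℕ) {H : E3 → E3} (hH : Van H) (x : E3) :
    (∃ i, ‖x - cen N i‖ < 5 ∧ dv (patch (cen N) H) x = dv H (x - cen N i)) ∨
      ((∀ i, 5 ≤ ‖x - cen N i‖) ∧ dv (patch (cen N) H) x = 0) := by
  rcases patch_loc (cen_sep N) hH x with ⟨i, h1, h2⟩ | ⟨h1, h2⟩
  · exact Or.inl ⟨i, h1, by unfold dv; rw [h2.fderiv_eq, fderiv_comp_sub]⟩
  · exact Or.inr ⟨h1, by unfold dv; rw [h2.fderiv_eq]; simp⟩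

theorem Per.dv {N : ℕ} {X : E3 → E3} (h : Per N X) : Per N (dv X) := fun w x => by
  unfold Pool.Agent.P.MP_ff4c85_gt.dv
  rw [← fderiv_comp_add_right (lat N w), funext (h w)]

theorem cen_eq {N : ℕ} {x : E3} {i j : ℤ × ℤ × ℤ} (h1 : ‖x - cen N i‖ < 5)
    (h2 : ‖x - cen N j‖ < 5) : cen N i = cen N j := by
  refine cen_sep N i j ?_
  have := norm_sub_le (x - cen N j) (x - cen N i)
  rw [sub_sub_sub_cancel_left] at this
  linarith

theorem indep (R : Rad) {δ c0 e gz α β : ℝ} {y : E3} (hδ : δ < 1 / 2) (hδ0 : 0 < δ)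
    (hc : ∀ z, 0 ≤ z → 1 / 8 ≤ nn z → nn z ≤ 1 / 4 → deriv nn z ≤ -c0) (hδc : δ < 8 * c0)
    (he : 0 ≤ e ∧ e < 1) (hgz : -1 ≤ gz) (hq : 0 < R.q (vv y.1)) (hr : 0 < rr y.2)
    (hd : -(deriv nn y.2 * R.q (vv y.1)) + δ * gz = 0)
    (h : α • (H0 R y + (0, 1 + δ * e)) + β • Z0 R y = 0) : β = 0 := by
  have ha := R.a_le
  have ha0 := R.a_pos
  obtain ⟨z2, z3⟩ := rr_ne hr.ne'
  have hv : |vv y.1| < R.a := by
    by_contra hn
    exact hq.ne' (R.q_out _ (not_lt.1 hn))
  have h1 := congrArg (fun p : E3 => p.1.re) h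
  have h2 := congrArg (fun p : E3 => p.1.im) h
  have h3 : α * (h0 R y + (1 + δ * e)) + β * 0 = 0 := congrArg Prod.snd h
  simp only [Prod.fst_add, Prod.smul_fst, add_re, add_im, smul_re, smul_im, smul_eq_mul, add_zero,
    Prod.fst_zero, zero_re, zero_im] at h1 h2
  have t1 : y.1.re * (Z0 R y).1.im - y.1.im * (Z0 R y).1.re =
      rr y.2 * R.q (vv y.1) * (vv y.1 + 2) := rot_t _ _ _ _ _ y
  have t2 : 2 * y.1.re * (Z0 R y).1.re + 2 * y.1.im * (Z0 R y).1.im =
      0 * (2 * (vv y.1 + 2) * 0) := rot_v _ _ _ _ _ y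
  by_cases hα : α = 0
  · have h4 : β * (rr y.2 * R.q (vv y.1) * (vv y.1 + 2)) = 0 := by
      rw [hα] at h1 h2
      linear_combination y.1.re * h2 - y.1.im * h1 - β * t1
    have h5 : 0 < vv y.1 + 2 := by linarith [(abs_lt.1 hv).1]
    exact (mul_eq_zero.1 h4).resolve_right (by positivity)
  · exfalso
    have h4 : α * (deriv mm y.2 * R.b (vv y.1)) = 0 := by
      linear_combination α * H0_v R y - 2 * y.1.re * h1 - 2 * y.1.im * h2 + β * t2
    have h5 : deriv mm y.2 ≠ 0 := fun h' => by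
      have := mm_strict (z := y.2) (by linarith) (by rw [abs_of_pos (by linarith)]; linarith)
      rw [h', mul_zero] at this
      exact lt_irrefl _ this
    have h6 := R.b_in (vv y.1) (by linarith)
    have h7 : vv y.1 = 0 := by simpa [hα, h5, h6.1] using h4
    have h8 : h0 R y + (1 + δ * e) = 0 := by simpa [hα] using h3
    have h9 : R.q (vv y.1) = 8 := R.q_in _ (by rw [h7, abs_zero]; linarith)
    unfold h0 at h8
    rw [h6.2, h9] at h8
    have h10 := mm_small (z := y.2) (by rw [abs_of_pos (by linarith)]; exact z2)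
    have h11 := (mm_mem y.2).1
    have h12 := mul_nonneg hδ0.le he.1
    have h13 : δ * e ≤ δ := by nlinarith [he.2]
    have h14 := hc y.2 (by linarith) (by linarith) (by linarith)
    rw [h9] at hd
    nlinarith

theorem exists_field : ∃ (W : E4 → E4) (K : NNReal) (C D : ℝ) (b : Module.Basis (Fin 4) ℝ E4),
    Good W K C D ∧ ∀ i x, W (x + b i) = W x := by
  obtain ⟨R⟩ := exists_rad
  have ha := R.a_le
  have ha0 := R.a_pos
  have hπ := Real.pi_pos
  obtain ⟨N, hN'⟩ := exists_nat_gt (200 / R.a)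
  have hN0 : (0 : ℝ) < N := lt_trans (by positivity) hN'
  have hN : 0 < N := by exact_mod_cast hN0
  have h1 : (20 : ℝ) / N ≤ R.a / 10 := by
    rw [div_lt_iff₀ ha0] at hN'
    rw [div_le_iff₀ hN0]
    linarith
  obtain ⟨c0, hc0, hc⟩ := dnn_c0
  obtain ⟨δ, hδ0, hδ, hδc, h2⟩ : ∃ δ : ℝ, 0 < δ ∧ δ < 1 / 2 ∧ δ < 8 * c0 ∧
      (N : ℝ) ^ 2 * δ ≤ R.a / 10 := by
    refine ⟨min (1 / 4) (min c0 (R.a / 10 / (N : ℝ) ^ 2)), by positivity,
      (min_le_left _ _).trans_lt (by norm_num),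
      ((min_le_right _ _).trans (min_le_left _ _)).trans_lt (by linarith), ?_⟩
    rw [mul_comm, ← le_div_iff₀ (by positivity)]
    exact (min_le_right _ _).trans (min_le_right _ _)
  obtain ⟨G, Gz, G_cd, G_per, G_mem, G_has, Gz_ge, Gz_neg⟩ := exists_G R hN h1
  have V_cd : ContDiff ℝ ∞ fun x : E3 => (((0 : ℂ), 1 + δ * G x) : E3) :=
    contDiff_const.prodMk (contDiff_const.add (contDiff_const.mul G_cd))
  have P_cd := patch_cd (cen_sep N) (H0_van R) (H0_cd R)
  have X_cd : ContDiff ℝ ∞ (XX R N δ G) := P_cd.add V_cd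
  have Z_cd := patch_cd (cen_sep N) (Z0_van R) (Z0_cd R)
  have X_per : Per N (XX R N δ G) := fun w x => by
    unfold XX
    rw [per_patch hN (H0_van R) w x, G_per w x]
  have Z_per := per_patch hN (Z0_van R)
  have X_dv : ∀ x, dv (XX R N δ G) x = dv (patch (cen N) (H0 R)) x + δ * Gz x := fun x => by
    have e1 : (fun x : E3 => (((0 : ℂ), 1 + δ * G x) : E3)) = rot (fun _ => 0) (fun _ => 0)
        (fun _ => 0) (fun _ => 0) fun x => 1 + δ * G x := funext fun y => by simp [rot]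
    have e2 := dv_add P_cd V_cd x
    rw [e1, rot_dv contDiff_const contDiff_const contDiff_const contDiff_const
      (contDiff_const.add (contDiff_const.mul G_cd)) x
      (((G_has x).const_mul δ).const_add 1), zero_mul, zero_add] at e2
    exact e2
  obtain ⟨K, hK, hC, -⟩ := X_per.bdd hN X_cd
  have orb : ∀ γ : ℝ → E3, (∀ t, HasDerivAt γ (XX R N δ G (γ t)) t) → Orb R N δ G K γ :=
    fun γ h => ⟨hδ, hδ0, G_mem, hK, h⟩
  have W_cd := WW_cd X_cd Z_cd
  have W_per : ∀ w (l : ℤ) (p : E4), WW (XX R N δ G) (patch (cen N) (Z0 R))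
      (p + (lat N w, l * (2 * Real.pi))) = WW (XX R N δ G) (patch (cen N) (Z0 R)) p := by
    intro w l p
    simp only [WW, Prod.fst_add, Prod.snd_add, Real.cos_add_int_mul_two_pi,
      Real.sin_add_int_mul_two_pi, X_per w p.1, Z_per w p.1, X_per.dv w p.1]
  obtain ⟨K', hK', hC', -⟩ := bdd_of_per W_cd (R := 10 + 5 * (N : ℝ) ^ 2 + Real.pi) fun p => by
    obtain ⟨w, hw⟩ := cocpt hN p.1
    refine ⟨(lat N w, ((-round (p.2 / (2 * Real.pi)) : ℤ) : ℝ) * (2 * Real.pi)), ?_,
      W_per w _⟩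
    have a1 := abs_sub_round (p.2 / (2 * Real.pi))
    have a2 : p.2 + ((-round (p.2 / (2 * Real.pi)) : ℤ) : ℝ) * (2 * Real.pi) =
        2 * Real.pi * (p.2 / (2 * Real.pi) - round (p.2 / (2 * Real.pi))) := by
      push_cast
      field_simp
      ring
    rw [Prod.norm_def, max_le_iff, Prod.fst_add, Prod.snd_add, a2, Real.norm_eq_abs, abs_mul,
      abs_of_pos (by positivity)]
    exact ⟨by linarith, by nlinarith [sq_nonneg (N : ℝ)]⟩
  let b0 := (basisOneI.prod (Module.Basis.singleton Unit ℝ)).prod (Module.Basis.singleton Unit ℝ)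
  let wt : (Fin 2 ⊕ Unit) ⊕ Unit → ℝ :=
    Sum.elim (Sum.elim (fun _ => 10) fun _ => 10 * (N : ℝ) ^ 2) fun _ => 2 * Real.pi
  have hwt : ∀ i, IsUnit (wt i) := by
    rintro ((i | i) | i) <;> exact IsUnit.mk0 _ (by simp only [wt, Sum.elim_inl, Sum.elim_inr]; positivity)
  refine ⟨_, K', K', 3 * (10 * (N : ℝ) ^ 2 + 20) + Real.pi,
    (b0.isUnitSMul hwt).reindex (Fintype.equivFinOfCardEq (by simp)),
    ⟨W_cd, hK', hC', WW_trace X_cd Z_cd fun x => ?_, WW_ne (fun x => ?_) fun x hx α β h => ?_,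
      WW_diam (U := fun i => {x | x - cen N i ∈ U0 R δ}) (Rg := fun i => {x | ‖x - cen N i‖ < 5})
        X_cd hK hC (fun γ h => (orb γ h).bound hN h1 h2)
        (fun i => (U0_open R δ).preimage (continuous_id.sub continuous_const))
        (fun i x hx y hy => ?_) (fun γ h i s t hst ht => (orb γ h).back ht hst)
        (fun i j x hi hj => by rw [cen_eq hi hj]) fun x => ?_⟩, fun i x => ?_⟩
  · rcases dv_patch N (Z0_van R) x with ⟨i, -, h⟩ | ⟨-, h⟩
    · rw [h, Z0_dv]
    · exact h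
  · have he := mul_nonneg hδ0.le (G_mem x).1
    unfold XX
    rcases patch_cases (cen N) (H0 R) x with ⟨i, -, h⟩ | ⟨-, h⟩
    · rw [h]; exact H0_ne R he
    · rw [h, zero_add]
      intro h'
      have : 1 + δ * G x = 0 := congrArg Prod.snd h'
      linarith
  · rw [X_dv] at hx
    rcases dv_patch N (H0_van R) x with ⟨i, a1, a2⟩ | ⟨a1, a2⟩
    · rw [a2, H0_dv] at hx
      unfold XX at h
      rw [patch_eq (cen_sep N) (H0_van R) (a1.trans (by norm_num)),
        patch_eq (cen_sep N) (Z0_van R) (a1.trans (by norm_num))] at h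
      have key : 0 < R.q (vv (x - cen N i).1) ∧ deriv nn (x - cen N i).2 < 0 := by
        rcases Gz_neg x with b1 | ⟨j, b1, b2, b3, b4⟩
        · have b2 := mul_neg_of_pos_of_neg hδ0 b1
          have b3 := (R.q_mem (vv (x - cen N i).1)).1
          have b4 : deriv nn (x - cen N i).2 * R.q (vv (x - cen N i).1) < 0 := by linarith
          exact ⟨lt_of_le_of_ne b3 fun h' => by rw [← h', mul_zero] at b4; exact lt_irrefl _ b4,
            neg_of_mul_neg_left b4 b3⟩
        · rw [cen_eq a1 b1]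
          exact ⟨b2, dnn_neg b3 b4⟩
      exact indep R hδ hδ0 hc hδc (G_mem x) (Gz_ge x) key.1 (rr_pos key.2) hx h
    · rw [a2, zero_add] at hx
      rcases Gz_neg x with b1 | ⟨j, b1, -⟩
      · exact absurd hx (mul_neg_of_pos_of_neg hδ0 b1).ne
      · exact absurd b1 (not_lt.2 (a1 j))
  · have key : ∀ y : E3, y ∈ U0 R δ → ‖y‖ < 5 := fun y hy =>
      norm_lt_of (by norm_num) (hy.1.trans (by linarith))
        (abs_lt.2 ⟨by linarith [hy.2.1], hy.2.2.1⟩)
    have := norm_sub_le (x - cen N i) (y - cen N i)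
    rw [sub_sub_sub_cancel_right] at this
    nlinarith [key _ hx, key _ hy, sq_nonneg (N : ℝ)]
  · rcases patch_loc (cen_sep N) (Z0_van R) x with ⟨i, -, h⟩ | ⟨-, h⟩
    · have hcl : IsClosed {y : E3 | |vv (y - cen N i).1| ≤ R.a ∧ 2 ≤ (y - cen N i).2 ∧
          (y - cen N i).2 ≤ 3} :=
        (isClosed_le (vv_cd.continuous.comp (continuous_id.sub continuous_const).fst).abs
          continuous_const).inter
          ((isClosed_le continuous_const (continuous_id.sub continuous_const).snd).inter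
            (isClosed_le (continuous_id.sub continuous_const).snd continuous_const))
      by_cases hx : |vv (x - cen N i).1| ≤ R.a ∧ 2 ≤ (x - cen N i).2 ∧ (x - cen N i).2 ≤ 3
      · refine Or.inl ⟨i, by linarith [hx.1], by linarith [hx.2.1], by linarith [hx.2.2],
          bar_neg R hδ (by linarith [hx.1]) (hx.2.1.trans (le_abs_self _))⟩
      · right
        filter_upwards [h, hcl.isOpen_compl.mem_nhds hx] with y h3 h4
        rw [h3]
        by_contra hn
        exact h4 (Z0_ne R hn)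
    · exact Or.inr h
  · rw [Module.Basis.reindex_apply, Module.Basis.isUnitSMul_apply]
    generalize (Fintype.equivFinOfCardEq _ : (Fin 2 ⊕ Unit) ⊕ Unit ≃ Fin 4).symm i = k
    rcases k with (k | k) | k
    · fin_cases k
      · convert W_per (1, 0, 0) 0 x using 3
        refine Prod.ext (Prod.ext (Complex.ext ?_ ?_) ?_) ?_ <;> simp [b0, wt, lat]
      · convert W_per (0, 1, 0) 0 x using 3
        refine Prod.ext (Prod.ext (Complex.ext ?_ ?_) ?_) ?_ <;> simp [b0, wt, lat]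
    · convert W_per (0, 0, 1) 0 x using 3
      refine Prod.ext (Prod.ext (Complex.ext ?_ ?_) ?_) ?_ <;> simp [b0, wt, lat]
    · convert W_per (0, 0, 0) 1 x using 3
      refine Prod.ext (Prod.ext (Complex.ext ?_ ?_) ?_) ?_ <;> simp [b0, wt, lat]

end Pool.Agent.P.MP_ff4c85_gt
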