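import Mathlib

/-! The functions of one variable from which the plug is built. -/

set_option autoImplicit false

open Set Filter Topology
open scoped ContDiff

namespace Pool.Agent.P.MP_ff4c85_gt

theorem st_cd : ContDiff ℝ ∞ Real.smoothTransition := Real.smoothTransition.contDiff

theorem st_diff : Differentiable ℝ Real.smoothTransition := st_cd.differentiable (by simp)

theorem st_has (x : ℝ) : HasDerivAt Real.smoothTransition (deriv Real.smoothTransition x) x := (st_diff x).hasDerivAt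

theorem dst_nonneg (x : ℝ) : 0 ≤ deriv Real.smoothTransition x := Real.smoothTransition.monotone.deriv_nonneg

theorem cd_deriv {f : ℝ → ℝ} (hf : ContDiff ℝ ∞ f) : ContDiff ℝ ∞ (deriv f) :=
  (contDiff_infty_iff_deriv.1 hf).2

theorem deriv_zero_of {f : ℝ → ℝ} {x c : ℝ} (h : ∀ᶠ y in 𝓝 x, f y = c) : deriv f x = 0 := by
  have : f =ᶠ[𝓝 x] fun _ => c := h
  rw [this.deriv_eq, deriv_const]

theorem dst_of_neg {x : ℝ} (h : x < 0) : deriv Real.smoothTransition x = 0 :=
  deriv_zero_of ((gt_mem_nhds h).mono fun _ hy => Real.smoothTransition.zero_of_nonpos hy.le)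

theorem dst_of_gt {x : ℝ} (h : 1 < x) : deriv Real.smoothTransition x = 0 :=
  deriv_zero_of ((lt_mem_nhds h).mono fun _ hy => Real.smoothTransition.one_of_one_le hy.le)

theorem glue_has {x : ℝ} (h : 0 < x) :
    HasDerivAt expNegInvGlue (Real.exp (-x⁻¹) * (x ^ 2)⁻¹) x := by
  have h1 : HasDerivAt (fun y : ℝ => Real.exp (-y⁻¹)) (Real.exp (-x⁻¹) * (x ^ 2)⁻¹) x := by
    have := ((hasDerivAt_inv h.ne').neg).exp
    simpa using this
  refine h1.congr_of_eventuallyEq ((lt_mem_nhds h).mono fun y hy => ?_)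
  simp [expNegInvGlue, not_le.2 hy]

theorem dst_pos {x : ℝ} (h0 : 0 < x) (h1 : x < 1) : 0 < deriv Real.smoothTransition x := by
  have a1 := glue_has h0
  have a2 : HasDerivAt (fun y : ℝ => expNegInvGlue (1 - y))
      (Real.exp (-(1 - x)⁻¹) * ((1 - x) ^ 2)⁻¹ * (-1)) x :=
    (glue_has (sub_pos.2 h1)).comp x (by simpa using (hasDerivAt_id x).const_sub 1)
  have hd := Real.smoothTransition.pos_denom x
  have a3 := a1.div (a1.add a2) hd.ne'
  have a4 : deriv Real.smoothTransition x = _ := a3.deriv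
  rw [a4]
  have p1 : 0 < Real.exp (-x⁻¹) * (x ^ 2)⁻¹ := by positivity
  have p2 : 0 < Real.exp (-(1 - x)⁻¹) * ((1 - x) ^ 2)⁻¹ := by
    have := sub_pos.2 h1
    positivity
  have p3 := expNegInvGlue.pos_of_pos h0
  have p4 := expNegInvGlue.pos_of_pos (sub_pos.2 h1)
  refine div_pos ?_ (by positivity)
  simp only [Pi.add_apply]
  nlinarith [mul_pos p1 p4, mul_pos p2 p3]

theorem bdd_of_zero {f : ℝ → ℝ} (hf : Continuous f) {R : ℝ} (h : ∀ x, R < |x| → f x = 0) :
    ∃ C, 0 ≤ C ∧ ∀ x, |f x| ≤ C := by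
  obtain ⟨C, hC⟩ := (isCompact_Icc (a := -R) (b := R)).exists_bound_of_continuousOn hf.continuousOn
  refine ⟨max C 0, le_max_right _ _, fun x => ?_⟩
  by_cases hx : R < |x|
  · rw [h x hx, abs_zero]; exact le_max_right _ _
  · exact (hC x (abs_le.1 (not_lt.1 hx))).trans (le_max_left _ _)

theorem dst_bdd : ∃ C, 0 ≤ C ∧ ∀ x, |deriv Real.smoothTransition x| ≤ C :=
  bdd_of_zero (cd_deriv st_cd).continuous (R := 1) fun x hx => by
    rcases lt_abs.1 hx with h | h
    · exact dst_of_gt h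
    · exact dst_of_neg (by linarith)

/-- the even step `1 - Real.smoothTransition ((z ^ 2 - c) / d)` -/
noncomputable def ev (c d z : ℝ) : ℝ := 1 - Real.smoothTransition ((z ^ 2 - c) / d)

theorem ev_cd (c d : ℝ) : ContDiff ℝ ∞ (ev c d) :=
  contDiff_const.sub (st_cd.comp (by fun_prop))

theorem ev_has (c d z : ℝ) :
    HasDerivAt (ev c d) (-(deriv Real.smoothTransition ((z ^ 2 - c) / d) * (2 * z / d))) z := by
  have h1 : HasDerivAt (fun z : ℝ => (z ^ 2 - c) / d) (2 * z / d) z := by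
    simpa using ((hasDerivAt_pow 2 z).sub_const c).div_const d
  exact ((st_has _).comp z h1).const_sub 1

theorem ev_mem (c d z : ℝ) : 0 ≤ ev c d z ∧ ev c d z ≤ 1 := by
  have h1 := Real.smoothTransition.le_one ((z ^ 2 - c) / d)
  have h2 := Real.smoothTransition.nonneg ((z ^ 2 - c) / d)
  unfold ev
  constructor <;> linarith

theorem ev_one {c d z : ℝ} (hd : 0 < d) (h : z ^ 2 ≤ c) : ev c d z = 1 := by
  unfold ev
  rw [Real.smoothTransition.zero_of_nonpos (div_nonpos_of_nonpos_of_nonneg (by linarith) hd.le),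
    sub_zero]

theorem ev_zero {c d z : ℝ} (hd : 0 < d) (h : c + d ≤ z ^ 2) : ev c d z = 0 := by
  unfold ev
  rw [Real.smoothTransition.one_of_one_le ((one_le_div hd).2 (by linarith)), sub_self]

theorem ev_sign {c d : ℝ} (hd : 0 < d) (z : ℝ) : z * deriv (ev c d) z ≤ 0 := by
  rw [(ev_has c d z).deriv]
  have h1 := dst_nonneg ((z ^ 2 - c) / d)
  have h2 : 0 ≤ deriv Real.smoothTransition ((z ^ 2 - c) / d) * (2 * z ^ 2 / d) := by positivity
  have h3 : z * -(deriv Real.smoothTransition ((z ^ 2 - c) / d) * (2 * z / d)) =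
      -(deriv Real.smoothTransition ((z ^ 2 - c) / d) * (2 * z ^ 2 / d)) := by ring
  linarith

theorem ev_strict {c d z : ℝ} (hd : 0 < d) (hc : 0 ≤ c) (h1 : c < z ^ 2) (h2 : z ^ 2 < c + d) :
    z * deriv (ev c d) z < 0 := by
  rw [(ev_has c d z).deriv]
  have h3 := dst_pos (x := (z ^ 2 - c) / d) (div_pos (by linarith) hd)
    ((div_lt_one hd).2 (by linarith))
  have h5 : 0 < z ^ 2 := by linarith
  have h4 : 0 < deriv Real.smoothTransition ((z ^ 2 - c) / d) * (2 * z ^ 2 / d) := by positivity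
  have h3 : z * -(deriv Real.smoothTransition ((z ^ 2 - c) / d) * (2 * z / d)) =
      -(deriv Real.smoothTransition ((z ^ 2 - c) / d) * (2 * z ^ 2 / d)) := by ring
  linarith

theorem ev_abs_lt {x R : ℝ} (h : |x| < R) : ∀ᶠ y in 𝓝 x, |y| < R :=
  continuous_abs.continuousAt.eventually (gt_mem_nhds h)

theorem ev_abs_gt {x R : ℝ} (h : R < |x|) : ∀ᶠ y in 𝓝 x, R < |y| :=
  continuous_abs.continuousAt.eventually (lt_mem_nhds h)

theorem sq_le_of {x R : ℝ} (h : |x| ≤ R) : x ^ 2 ≤ R ^ 2 := by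
  rw [← sq_abs x]
  exact pow_le_pow_left₀ (abs_nonneg x) h 2

theorem le_sq_of {x R : ℝ} (hR : 0 ≤ R) (h : R ≤ |x|) : R ^ 2 ≤ x ^ 2 := by
  rw [← sq_abs x]
  exact pow_le_pow_left₀ hR h 2

/-! ### The vertical profiles -/

/-- the strength of the squeeze -/
noncomputable def mm (z : ℝ) : ℝ := 8 * ev 0 4 z + 1 / 2 * ev 0 16 z

/-- the strength of the absorption -/
noncomputable def nn (z : ℝ) : ℝ := ev 4 5 z

theorem mm_cd : ContDiff ℝ ∞ mm :=
  (contDiff_const.mul (ev_cd 0 4)).add (contDiff_const.mul (ev_cd 0 16))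

theorem nn_cd : ContDiff ℝ ∞ nn := ev_cd 4 5

theorem mm_has (z : ℝ) : HasDerivAt mm (deriv mm z) z :=
  (mm_cd.differentiable (by simp) z).hasDerivAt

theorem nn_has (z : ℝ) : HasDerivAt nn (deriv nn z) z :=
  (nn_cd.differentiable (by simp) z).hasDerivAt

theorem dmm (z : ℝ) : deriv mm z = 8 * deriv (ev 0 4) z + 1 / 2 * deriv (ev 0 16) z :=
  ((((ev_cd 0 4).differentiable (by simp) z).hasDerivAt.const_mul 8).add
    (((ev_cd 0 16).differentiable (by simp) z).hasDerivAt.const_mul (1 / 2))).deriv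

theorem mm_mem (z : ℝ) : 0 ≤ mm z ∧ mm z ≤ 17 / 2 := by
  have h1 := ev_mem 0 4 z
  have h2 := ev_mem 0 16 z
  unfold mm
  constructor <;> linarith [h1.1, h1.2, h2.1, h2.2]

theorem mm_zero : mm 0 = 17 / 2 := by
  unfold mm
  rw [ev_one (by norm_num) (by norm_num), ev_one (by norm_num) (by norm_num)]
  norm_num

theorem mm_small {z : ℝ} (h : 2 ≤ |z|) : mm z ≤ 1 / 2 := by
  have h1 := le_sq_of (by norm_num) h
  have h2 := ev_mem 0 16 z
  unfold mm
  rw [ev_zero (by norm_num) (by linarith)]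
  linarith [h2.2]

theorem mm_out {z : ℝ} (h : 4 ≤ |z|) : mm z = 0 := by
  have h1 := le_sq_of (by norm_num) h
  unfold mm
  rw [ev_zero (by norm_num) (by linarith), ev_zero (by norm_num) (by linarith)]
  norm_num

theorem dmm_out {z : ℝ} (h : 4 < |z|) : deriv mm z = 0 :=
  deriv_zero_of ((ev_abs_gt h).mono fun _ hy => mm_out hy.le)

theorem mm_sign (z : ℝ) : z * deriv mm z ≤ 0 := by
  have h1 := ev_sign (c := 0) (d := 4) (by norm_num) z
  have h2 := ev_sign (c := 0) (d := 16) (by norm_num) z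
  rw [dmm]
  nlinarith

theorem mm_strict {z : ℝ} (h0 : z ≠ 0) (h : |z| < 4) : z * deriv mm z < 0 := by
  have h1 := ev_sign (c := 0) (d := 4) (by norm_num) z
  have h3 : z ^ 2 < 4 ^ 2 := by
    rw [← sq_abs z]
    exact pow_lt_pow_left₀ h (abs_nonneg z) (by norm_num)
  have h2 := ev_strict (c := 0) (d := 16) (z := z) (by norm_num) le_rfl (by positivity)
    (by linarith)
  rw [dmm]
  nlinarith

theorem dmm_bdd : ∃ C, 0 ≤ C ∧ ∀ z, |deriv mm z| ≤ C :=
  bdd_of_zero (cd_deriv mm_cd).continuous (R := 4) fun _ hx => dmm_out hx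

theorem dmm_lower {z : ℝ} (h : z ≤ 0) : 0 ≤ deriv mm z := by
  rcases h.lt_or_eq with h | h
  · have := mm_sign z
    by_contra hc
    nlinarith [mul_pos_of_neg_of_neg h (not_le.1 hc)]
  · rw [h, dmm, (ev_has 0 4 0).deriv, (ev_has 0 16 0).deriv]
    simp

theorem dmm_upper {z : ℝ} (h : 0 ≤ z) : deriv mm z ≤ 0 := by
  rcases h.lt_or_eq with h | h
  · have := mm_sign z
    by_contra hc
    nlinarith [mul_pos h (not_le.1 hc)]
  · rw [← h, dmm, (ev_has 0 4 0).deriv, (ev_has 0 16 0).deriv]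
    simp

theorem nn_mem (z : ℝ) : 0 ≤ nn z ∧ nn z ≤ 1 := ev_mem 4 5 z

theorem nn_one {z : ℝ} (h : |z| ≤ 2) : nn z = 1 :=
  ev_one (by norm_num) (by linarith [sq_le_of h])

theorem nn_out {z : ℝ} (h : 3 ≤ |z|) : nn z = 0 :=
  ev_zero (by norm_num) (by linarith [le_sq_of (by norm_num) h])

theorem dnn_in {z : ℝ} (h : |z| < 2) : deriv nn z = 0 :=
  deriv_zero_of ((ev_abs_lt h).mono fun _ hy => nn_one hy.le)

theorem dnn_out {z : ℝ} (h : 3 < |z|) : deriv nn z = 0 :=
  deriv_zero_of ((ev_abs_gt h).mono fun _ hy => nn_out hy.le)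

theorem nn_sign (z : ℝ) : z * deriv nn z ≤ 0 := ev_sign (by norm_num) z

theorem dnn_neg {z : ℝ} (h1 : 2 < z) (h2 : z < 3) : deriv nn z < 0 := by
  have := ev_strict (c := 4) (d := 5) (z := z) (by norm_num) (by norm_num) (by nlinarith)
    (by nlinarith)
  by_contra hc
  have h3 : 0 ≤ z * deriv nn z := mul_nonneg (by linarith) (not_lt.1 hc)
  exact absurd this (not_lt.2 h3)

theorem dnn_c0 : ∃ c0, 0 < c0 ∧ ∀ z, 0 ≤ z → 1 / 8 ≤ nn z → nn z ≤ 1 / 4 → deriv nn z ≤ -c0 := by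
  have hK : IsCompact (Icc (2 : ℝ) 3 ∩ nn ⁻¹' Icc (1 / 8) (1 / 4)) :=
    isCompact_Icc.inter_right (isClosed_Icc.preimage nn_cd.continuous)
  obtain ⟨c0, h0, hc⟩ := hK.exists_forall_le' (f := fun z => - deriv nn z) (a := 0)
    (cd_deriv nn_cd).continuous.neg.continuousOn (fun z hz => by
      have h1 : z ≠ 2 := by
        rintro rfl
        have := hz.2.2
        rw [nn_one (by norm_num)] at this
        norm_num at this
      have h2 : z ≠ 3 := by
        rintro rfl
        have := hz.2.1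
        rw [nn_out (by norm_num)] at this
        norm_num at this
      have := dnn_neg (lt_of_le_of_ne hz.1.1 h1.symm) (lt_of_le_of_ne hz.1.2 h2)
      linarith)
  refine ⟨c0, h0, fun z hz h1 h2 => ?_⟩
  have h3 : 2 ≤ z := by
    by_contra hn
    rw [nn_one (by rw [abs_of_nonneg hz]; linarith)] at h2
    norm_num at h2
  have h4 : z ≤ 3 := by
    by_contra hn
    rw [nn_out (by rw [abs_of_nonneg hz]; linarith)] at h1
    norm_num at h1
  have := hc z ⟨⟨h3, h4⟩, h1, h2⟩
  linarith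

/-- the vertical profile of the rotation in the source box -/
noncomputable def rr (z : ℝ) : ℝ := - deriv nn z * Real.smoothTransition z

theorem rr_cd : ContDiff ℝ ∞ rr := (cd_deriv nn_cd).neg.mul st_cd

theorem rr_ne {z : ℝ} (h : rr z ≠ 0) : 2 ≤ z ∧ z ≤ 3 := by
  have h1 : deriv nn z ≠ 0 := fun h' => h (by simp [rr, h'])
  have h2 : 0 < z := by
    by_contra hn
    exact h (by simp [rr, Real.smoothTransition.zero_of_nonpos (not_lt.1 hn)])
  constructor
  · by_contra hn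
    exact h1 (dnn_in (by rw [abs_of_pos h2]; linarith))
  · by_contra hn
    exact h1 (dnn_out (by rw [abs_of_pos h2]; linarith))

theorem rr_pos {z : ℝ} (h : deriv nn z < 0) : 0 < rr z := by
  have h1 : 2 ≤ |z| := by
    by_contra hn
    exact h.ne (dnn_in (not_le.1 hn))
  have h2 : 0 ≤ z := by
    by_contra hn
    nlinarith [nn_sign z, mul_pos_of_neg_of_neg (not_le.1 hn) h]
  rw [abs_of_nonneg h2] at h1
  unfold rr
  rw [Real.smoothTransition.one_of_one_le (by linarith)]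
  linarith

/-! ### The radial profiles -/

/-- The radial profiles of the plug. -/
structure Rad where
  a : ℝ
  q : ℝ → ℝ
  p : ℝ → ℝ
  A : ℝ → ℝ
  A' : ℝ → ℝ
  b : ℝ → ℝ
  g : ℝ → ℝ
  om : ℝ → ℝ
  f : ℝ → ℝ
  a_pos : 0 < a
  a_le : a ≤ 1 / 3
  q_cd : ContDiff ℝ ∞ q
  b_cd : ContDiff ℝ ∞ b
  g_cd : ContDiff ℝ ∞ g
  om_cd : ContDiff ℝ ∞ om
  q_mem : ∀ v, 0 ≤ q v ∧ q v ≤ 8
  q_in : ∀ v, |v| ≤ a / 2 → q v = 8
  q_out : ∀ v, a ≤ |v| → q v = 0
  p_has : ∀ v, HasDerivAt p (q v) v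
  p_pos : ∀ v, a ≤ v → p v = p a
  p_neg : ∀ v, v ≤ -a → p v = p (-a)
  A_has : ∀ v, HasDerivAt A (A' v) v
  A_eq : ∀ v, A v + v * A' v = q v
  A_mem : ∀ v, |v| ≤ 2 * a → 2 ≤ A v ∧ A v ≤ 8
  b_in : ∀ v, |v| ≤ 2 * a → b v = v ∧ deriv b v = 1
  b_out : ∀ v, 1 ≤ |v| → b v = 0
  b_sign : ∀ v, 0 ≤ v * b v
  b_le : ∀ v, |b v| ≤ |v|
  db : ∀ v, -(1 / 10) ≤ deriv b v
  g_eq : ∀ v, 2 * (v + 2) * g v = b v
  g_out : ∀ v, 1 ≤ |v| → g v = 0
  om_zero : om 0 = 1
  om_out : ∀ v, a < |v| → om v = 0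
  f_has : ∀ v, v ≠ 0 → HasDerivAt f (om v / v) v
  f_out : ∀ v, a ≤ |v| → f v = 0

theorem exists_b : ∃ (a : ℝ) (b : ℝ → ℝ), 0 < a ∧ a ≤ 1 / 3 ∧ ContDiff ℝ ∞ b ∧
    (∀ v, |v| ≤ 3 * a → b v = v) ∧ (∀ v, 1 ≤ |v| → b v = 0) ∧ (∀ v, 0 ≤ v * b v) ∧
    (∀ v, |b v| ≤ |v|) ∧ ∀ v, -(1 / 10) ≤ deriv b v := by
  obtain ⟨C, hC0, hC⟩ := dst_bdd
  set l : ℝ := 1 / (20 * (C + 1)) with hl
  have hl0 : 0 < l := by positivity
  set E : ℝ := Real.exp (-(1 / l)) with hE
  have hE0 : 0 < E := Real.exp_pos _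
  have hE1 : E ≤ 1 := Real.exp_le_one_iff.2 (by
    have : 0 < 1 / l := by positivity
    linarith)
  set a : ℝ := Real.sqrt (E / 10) with ha
  have ha0 : 0 < a := Real.sqrt_pos.2 (by positivity)
  have ha2 : a ^ 2 = E / 10 := Real.sq_sqrt (by positivity)
  have hpos : ∀ v : ℝ, 0 < v ^ 2 + a ^ 2 := fun v => by positivity
  have hin : ContDiff ℝ ∞ fun v : ℝ => 1 + l * Real.log (v ^ 2 + a ^ 2) :=
    contDiff_const.add (contDiff_const.mul (ContDiff.log (by fun_prop) fun v => (hpos v).ne'))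
  refine ⟨a, fun v => v * (1 - Real.smoothTransition (1 + l * Real.log (v ^ 2 + a ^ 2))), ha0, by nlinarith,
    contDiff_id.mul (contDiff_const.sub (st_cd.comp hin)), fun v hv => ?_, fun v hv => ?_,
    fun v => ?_, fun v => ?_, fun v => ?_⟩
  · have h1 := sq_le_of hv
    have h2 : Real.log (v ^ 2 + a ^ 2) ≤ -(1 / l) := by
      rw [Real.log_le_iff_le_exp (hpos v)]
      nlinarith
    have h3 : l * Real.log (v ^ 2 + a ^ 2) ≤ l * -(1 / l) := mul_le_mul_of_nonneg_left h2 hl0.le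
    have h4 : l * -(1 / l) = -1 := by field_simp
    simp only
    rw [Real.smoothTransition.zero_of_nonpos (by linarith)]
    ring
  · have h1 := le_sq_of (by norm_num) hv
    have h2 : 0 ≤ Real.log (v ^ 2 + a ^ 2) := Real.log_nonneg (by nlinarith)
    simp only
    rw [Real.smoothTransition.one_of_one_le (by nlinarith [mul_nonneg hl0.le h2])]
    ring
  · have h1 := Real.smoothTransition.le_one (1 + l * Real.log (v ^ 2 + a ^ 2))
    simp only
    nlinarith [mul_nonneg (sq_nonneg v) (sub_nonneg.2 h1)]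
  · have h1 := Real.smoothTransition.le_one (1 + l * Real.log (v ^ 2 + a ^ 2))
    have h2 := Real.smoothTransition.nonneg (1 + l * Real.log (v ^ 2 + a ^ 2))
    simp only
    rw [abs_mul, abs_of_nonneg (sub_nonneg.2 h1)]
    nlinarith [abs_nonneg v]
  · have h1 : HasDerivAt (fun v : ℝ => 1 + l * Real.log (v ^ 2 + a ^ 2))
        (l * (2 * v / (v ^ 2 + a ^ 2))) v := by
      have := ((((hasDerivAt_pow 2 v).add_const (a ^ 2)).log (hpos v).ne').const_mul l).const_add 1
      simpa using this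
    have h2 := (hasDerivAt_id v).mul (((st_has _).comp v h1).const_sub 1)
    have h3 : deriv (fun v : ℝ => v * (1 - Real.smoothTransition (1 + l * Real.log (v ^ 2 + a ^ 2)))) v = _ := h2.deriv
    rw [h3]
    have h4 := Real.smoothTransition.le_one (1 + l * Real.log (v ^ 2 + a ^ 2))
    have h5 := (abs_le.1 (hC (1 + l * Real.log (v ^ 2 + a ^ 2)))).2
    have h6 := dst_nonneg (1 + l * Real.log (v ^ 2 + a ^ 2))
    have h7 : v ^ 2 / (v ^ 2 + a ^ 2) ≤ 1 := (div_le_one (hpos v)).2 (by nlinarith)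
    have h8 : 0 ≤ v ^ 2 / (v ^ 2 + a ^ 2) := div_nonneg (sq_nonneg v) (hpos v).le
    have h9 : l * C ≤ 1 / 20 := by
      rw [hl, div_mul_eq_mul_div, div_le_div_iff₀ (by positivity) (by positivity)]
      linarith
    have h10 : deriv Real.smoothTransition (1 + l * Real.log (v ^ 2 + a ^ 2)) * (v ^ 2 / (v ^ 2 + a ^ 2)) ≤ C * 1 :=
      mul_le_mul h5 h7 h8 hC0
    have h11 := mul_le_mul_of_nonneg_left h10 hl0.le
    have h12 : v * -(deriv Real.smoothTransition (1 + l * Real.log (v ^ 2 + a ^ 2)) *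
        (l * (2 * v / (v ^ 2 + a ^ 2)))) = -(2 * (l * (deriv Real.smoothTransition (1 + l * Real.log (v ^ 2 + a ^ 2)) *
          (v ^ 2 / (v ^ 2 + a ^ 2))))) := by ring
    simp only [id, Function.comp]
    rw [h12]
    linarith

theorem exists_q {a : ℝ} (ha : 0 < a) : ∃ (q p A A' : ℝ → ℝ), ContDiff ℝ ∞ q ∧
    (∀ v, 0 ≤ q v ∧ q v ≤ 8) ∧ (∀ v, |v| ≤ a / 2 → q v = 8) ∧ (∀ v, a ≤ |v| → q v = 0) ∧
    (∀ v, HasDerivAt p (q v) v) ∧ (∀ v, a ≤ v → p v = p a) ∧ (∀ v, v ≤ -a → p v = p (-a)) ∧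
    (∀ v, HasDerivAt A (A' v) v) ∧ (∀ v, A v + v * A' v = q v) ∧
    ∀ v, |v| ≤ 2 * a → 2 ≤ A v ∧ A v ≤ 8 := by
  set q : ℝ → ℝ := fun v => 8 * ev ((a / 2) ^ 2) (3 / 4 * a ^ 2) v with hq
  have hd : 0 < 3 / 4 * a ^ 2 := by positivity
  have q_cd : ContDiff ℝ ∞ q := contDiff_const.mul (ev_cd _ _)
  have q_mem : ∀ v, 0 ≤ q v ∧ q v ≤ 8 := fun v => by
    have := ev_mem ((a / 2) ^ 2) (3 / 4 * a ^ 2) v
    constructor <;> simp only [hq] <;> linarith [this.1, this.2]
  have q_in : ∀ v, |v| ≤ a / 2 → q v = 8 := fun v hv => by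
    simp only [hq]
    rw [ev_one hd (sq_le_of hv), mul_one]
  have q_out : ∀ v, a ≤ |v| → q v = 0 := fun v hv => by
    simp only [hq]
    rw [ev_zero hd (by nlinarith [le_sq_of ha.le hv]), mul_zero]
  set p : ℝ → ℝ := fun v => ∫ s in (0 : ℝ)..v, q s with hp
  have p_has : ∀ v, HasDerivAt p (q v) v := fun v =>
    (q_cd.continuous.integral_hasStrictDerivAt 0 v).hasDerivAt
  have hi : ∀ x y, IntervalIntegrable q MeasureTheory.volume x y := fun x y =>
    q_cd.continuous.intervalIntegrable x y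
  have hsub : ∀ x y, p y - p x = ∫ s in x..y, q s := fun x y =>
    intervalIntegral.integral_interval_sub_left (hi 0 y) (hi 0 x)
  have hc : ∀ x y c, x ≤ y → (∀ s, x ≤ s → s ≤ y → q s = c) → p y - p x = (y - x) * c := by
    intro x y c hxy h
    rw [hsub, intervalIntegral.integral_congr (g := fun _ => c) fun s hs => by
      rw [uIcc_of_le hxy] at hs
      exact h s hs.1 hs.2]
    simp
  have p0 : p 0 = 0 := by simp [hp]
  have hmono : ∀ x y, x ≤ y → 0 ≤ p y - p x ∧ p y - p x ≤ (y - x) * 8 := fun x y hxy => by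
    rw [hsub]
    refine ⟨intervalIntegral.integral_nonneg hxy fun s _ => (q_mem s).1, ?_⟩
    have := intervalIntegral.integral_mono_on hxy (hi x y) (intervalIntegrable_const (c := (8 : ℝ)))
      fun s _ => (q_mem s).2
    simpa using this
  have p_in : ∀ v, |v| ≤ a / 2 → p v = v * 8 := fun v hv => by
    have hv' := abs_le.1 hv
    rcases le_total 0 v with h | h
    · have := hc 0 v 8 h fun s h1 h2 => q_in s (abs_le.2 ⟨by linarith, by linarith⟩)
      linarith
    · have := hc v 0 8 h fun s h1 h2 => q_in s (abs_le.2 ⟨by linarith, by linarith⟩)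
      linarith
  have A_in : ∀ v, |v| ≤ a / 2 → (if v = 0 then 8 else p v / v) = (8 : ℝ) := fun v hv => by
    split_ifs with h
    · rfl
    · rw [p_in v hv]; field_simp
  refine ⟨q, p, fun v => if v = 0 then 8 else p v / v,
    fun v => if v = 0 then 0 else (q v * v - p v) / v ^ 2, q_cd, q_mem, q_in, q_out, p_has,
    fun v hv => ?_, fun v hv => ?_, fun v => ?_, fun v => ?_, fun v hv => ?_⟩
  · have := hc a v 0 hv fun s h1 _ => q_out s (h1.trans (le_abs_self s))
    linarith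
  · have := hc v (-a) 0 hv fun s _ h2 => q_out s (by linarith [neg_le_abs s])
    linarith
  · by_cases h : v = 0
    · subst h
      simp only [if_true]
      refine (hasDerivAt_const (0 : ℝ) (8 : ℝ)).congr_of_eventuallyEq ?_
      exact (ev_abs_lt (x := 0) (R := a / 2) (by simpa using ha)).mono fun y hy => A_in y hy.le
    · simp only [if_neg h]
      have h1 := (p_has v).div (hasDerivAt_id v) h
      simp only [id, mul_one] at h1
      refine h1.congr_of_eventuallyEq ((eventually_ne_nhds h).mono fun y hy => ?_)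
      simp [hy]
  · by_cases h : v = 0
    · subst h
      simp [q_in 0 (by rw [abs_zero]; positivity)]
    · simp only [if_neg h]
      field_simp
      ring
  · by_cases h : |v| ≤ a / 2
    · simp only
      rw [A_in v h]
      norm_num
    · have h0 : v ≠ 0 := by
        rintro rfl
        exact h (by rw [abs_zero]; positivity)
      have hv' := abs_le.1 hv
      simp only [if_neg h0]
      rcases lt_abs.1 (not_le.1 h) with h1 | h1
      · have h2 := hmono (a / 2) v h1.le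
        have h3 := p_in (a / 2) (by rw [abs_of_pos (by linarith)])
        have h4 : 0 < v := by linarith
        rw [le_div_iff₀ h4, div_le_iff₀ h4]
        constructor <;> linarith [h2.1, h2.2]
      · have h2 := hmono v (-(a / 2)) (by linarith)
        have h3 := p_in (-(a / 2)) (by rw [abs_neg, abs_of_pos (by linarith)])
        have h4 : v < 0 := by linarith
        rw [le_div_iff_of_neg h4, div_le_iff_of_neg h4]
        constructor <;> linarith [h2.1, h2.2]

theorem exists_rad : Nonempty Rad := by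
  obtain ⟨a, b, ha, ha1, b_cd, b_in, b_out, b_sign, b_le, db⟩ := exists_b
  obtain ⟨q, p, A, A', q_cd, q_mem, q_in, q_out, p_has, p_pos, p_neg, A_has, A_eq, A_mem⟩ :=
    exists_q ha
  have q0 : q 0 = 8 := q_in 0 (by rw [abs_zero]; positivity)
  have hden : ∀ v, 0 < v ^ 2 + q v := fun v => by
    by_cases h : v = 0
    · rw [h, q0]; norm_num
    · have := (q_mem v).1
      positivity
  refine ⟨⟨a, q, p, A, A', b, fun v => b v / (2 * (v + 2)),
    fun v => (q v - v * deriv q v / 2) / (v ^ 2 + q v),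
    fun v => 1 / 2 * (Real.log (v ^ 2) - Real.log (v ^ 2 + q v)), ha, ha1, q_cd, b_cd, ?_, ?_,
    q_mem, q_in, q_out, p_has, p_pos, p_neg, A_has, A_eq, A_mem, fun v hv => ?_, b_out, b_sign,
    b_le, db, fun v => ?_, fun v hv => ?_, ?_, fun v hv => ?_, fun v hv => ?_, fun v hv => ?_⟩⟩
  · refine contDiff_iff_contDiffAt.2 fun v => ?_
    by_cases h : v = -2
    · refine (contDiffAt_const (c := (0 : ℝ))).congr_of_eventuallyEq ?_
      refine (ev_abs_gt (x := v) (R := 1) (by rw [h]; norm_num)).mono fun y hy => ?_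
      simp [b_out y hy.le]
    · refine b_cd.contDiffAt.div (by fun_prop) fun h' => h ?_
      linarith
  · exact (q_cd.sub ((contDiff_id.mul (cd_deriv q_cd)).div_const 2)).div
      ((contDiff_id.pow 2).add q_cd) fun v => (hden v).ne'
  · refine ⟨b_in v (by linarith), ?_⟩
    have : b =ᶠ[𝓝 v] id := (ev_abs_lt (x := v) (R := 3 * a) (by linarith)).mono
      fun y hy => b_in y hy.le
    rw [this.deriv_eq, deriv_id]
  · by_cases h : v = -2
    · rw [h, b_out (-2) (by norm_num)]; simp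
    · have : v + 2 ≠ 0 := fun h' => h (by linarith)
      field_simp
  · simp [b_out v hv]
  · simp [q0]
  · have : deriv q v = 0 := deriv_zero_of ((ev_abs_gt hv).mono fun y hy => q_out y hy.le)
    simp [this, q_out v hv.le]
  · have h1 := (hasDerivAt_pow 2 v).log (pow_ne_zero 2 hv)
    have h2 := ((hasDerivAt_pow 2 v).add
      (q_cd.differentiable (by simp) v).hasDerivAt).log (hden v).ne'
    refine ((h1.sub h2).const_mul (1 / 2)).congr_deriv ?_
    have := (hden v).ne'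
    simp only [Pi.add_apply]
    field_simp
    ring
  · simp [q_out v hv]

end Pool.Agent.P.MP_ff4c85_gt
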