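import Pool.Agent.P.MP_ff4c85_gt.Cross

/-! The field on three-space: layers of plugs. All orbits are uniformly bounded. -/

set_option autoImplicit false

open Set Filter Topology Complex
open scoped ContDiff

namespace Pool.Agent.P.MP_ff4c85_gt

/-- the horizontal position of the plug number `u` of layer `j` -/
noncomputable def hc (N : ℕ) (j : ℤ) (u : ℤ × ℤ) : ℂ :=
  ⟨10 / N * j + 10 * u.1, 10 / N * ((j / (N : ℤ) : ℤ) : ℝ) + 10 * u.2⟩

/-- the centres of the plugs -/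
noncomputable def cen (N : ℕ) (i : ℤ × ℤ × ℤ) : E3 := (hc N i.1 i.2, 10 * i.1)

theorem int_eq {a b : ℤ} (h : |10 * (a : ℝ) - 10 * b| < 10) : a = b := by
  have h1 := abs_lt.1 h
  have h2 : ((a - b : ℤ) : ℝ) < 1 := by push_cast; linarith [h1.2]
  have h3 : (-1 : ℝ) < ((a - b : ℤ) : ℝ) := by push_cast; linarith [h1.1]
  have h4 : a - b < 1 := by exact_mod_cast h2
  have h5 : -1 < a - b := by exact_mod_cast h3
  omega

theorem hc_sep (N : ℕ) (j : ℤ) : Sep (hc N j) := by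
  intro u w h
  have h1 := (abs_re_le_norm _).trans_lt h
  have h2 := (abs_im_le_norm _).trans_lt h
  simp only [hc, sub_re, sub_im, add_sub_add_left_eq_sub] at h1 h2
  rw [Prod.ext (int_eq h1) (int_eq h2)]

theorem cen_sep (N : ℕ) : Sep (cen N) := by
  rintro ⟨j, u⟩ ⟨j', u'⟩ h
  have h1 : j = j' := int_eq ((norm_snd_le (cen N (j, u) - cen N (j', u'))).trans_lt h)
  subst h1
  have h2 := hc_sep N j u u' ((norm_fst_le (cen N (j, u) - cen N (j, u'))).trans_lt h)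
  simp [cen, h2]

theorem hc_far {N : ℕ} {j : ℤ} {u : ℤ × ℤ} {ζ : ℂ} (h : vv (ζ - hc N j u) ≤ 1) (w : ℤ × ℤ) :
    hc N j w = hc N j u ∨ 1 ≤ |vv (ζ - hc N j w)| := by
  by_cases h1 : ‖hc N j w - hc N j u‖ < 10
  · exact Or.inl (hc_sep N j w u h1)
  · right
    have h2 := norm_lt_of_vv h
    have h3 := norm_sub_le (ζ - hc N j u) (ζ - hc N j w)
    rw [show ζ - hc N j u - (ζ - hc N j w) = hc N j w - hc N j u by abel] at h3
    by_contra hn
    have := norm_lt_of_vv ((le_abs_self _).trans (not_le.1 hn).le)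
    linarith

theorem cover {N : ℕ} (hN : 0 < N) (ζ : ℂ) (j : ℤ) :
    ∃ i : ℕ, i < N ^ 2 ∧ ∃ u, ‖ζ - hc N (j + i) u - (1 + I)‖ ≤ 20 / N := by
  have hN' : (0 : ℝ) < N := by exact_mod_cast hN
  have hNz : (0 : ℤ) < N := by exact_mod_cast hN
  set A : ℤ := ⌊N * (ζ.re - 1) / 10⌋ with hA
  set B : ℤ := ⌊N * (ζ.im - 1) / 10⌋ with hB
  have hN2 : (0 : ℤ) < (N : ℤ) ^ 2 := by positivity
  set e : ℤ := (A % N + N * B - j) % (N : ℤ) ^ 2 with he
  set l : ℤ := (A % N + N * B - j) / (N : ℤ) ^ 2 with hl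
  have h1 : 0 ≤ e := Int.emod_nonneg _ hN2.ne'
  have h2 : e < (N : ℤ) ^ 2 := Int.emod_lt_of_pos _ hN2
  have h3 : e + (N : ℤ) ^ 2 * l = A % N + N * B - j := Int.emod_add_mul_ediv _ _
  have h4 : A % N + N * (A / N) = A := Int.emod_add_mul_ediv _ _
  have h5 : j + e = A % N + N * (B - N * l) := by linarith
  have h6 : (j + e) / N = B - N * l := by
    rw [h5, Int.add_mul_ediv_left _ _ hNz.ne',
      Int.ediv_eq_zero_of_lt (Int.emod_nonneg _ hNz.ne') (Int.emod_lt_of_pos _ hNz), zero_add]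
  have h7 : ((e.toNat : ℕ) : ℤ) = e := Int.toNat_of_nonneg h1
  refine ⟨e.toNat, by zify; rw [h7]; exact h2, (A / N - (B - N * l), l), ?_⟩
  rw [h7]
  have h8 : j + e + N * (A / N - (B - N * l)) = A := by linarith
  have h9 : ((j + e : ℤ) : ℝ) + N * ((A / N - (B - N * l) : ℤ) : ℝ) = A := by exact_mod_cast h8
  have key : ∀ x : ℝ, |x - 10 / N * (⌊N * x / 10⌋ : ℤ)| ≤ 10 / N := fun x => by
    have a1 := Int.floor_le (N * x / 10)
    have a2 := Int.lt_floor_add_one (N * x / 10)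
    have a3 : x - 10 / N * (⌊N * x / 10⌋ : ℤ) = 10 / N * (N * x / 10 - (⌊N * x / 10⌋ : ℤ)) := by
      field_simp
    have a4 : (0 : ℝ) < 10 / N := by positivity
    rw [a3, abs_mul, abs_of_pos a4, abs_of_nonneg (by linarith)]
    nlinarith
  refine (norm_le_abs_re_add_abs_im _).trans ?_
  have e1 : (ζ - hc N (j + e) (A / N - (B - N * l), l) - (1 + I)).re =
      ζ.re - 1 - 10 / N * (A : ℝ) := by
    rw [← h9]
    simp only [hc, sub_re, add_re, one_re, I_re]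
    field_simp
    ring
  have e2 : (ζ - hc N (j + e) (A / N - (B - N * l), l) - (1 + I)).im =
      ζ.im - 1 - 10 / N * (B : ℝ) := by
    simp only [hc, sub_im, add_im, one_im, I_im, h6]
    push_cast
    field_simp
    ring
  rw [e1, e2]
  have := add_le_add (key (ζ.re - 1)) (key (ζ.im - 1))
  refine this.trans (le_of_eq ?_)
  ring

theorem vv_near {w : ℂ} {e : ℝ} (h : ‖w - (1 + I)‖ ≤ e) (he : e ≤ 1) : |vv w| ≤ 5 * e := by
  have h1 := abs_le.1 ((abs_re_le_norm _).trans h)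
  have h2 := abs_le.1 ((abs_im_le_norm _).trans h)
  have h3 := vv_norm (w - (1 + I))
  have h4 := norm_nonneg (w - (1 + I))
  have h5 : ‖w - (1 + I)‖ ^ 2 ≤ e := by nlinarith
  simp only [sub_re, add_re, one_re, I_re, sub_im, add_im, one_im, I_im, vv] at h1 h2 h3
  unfold vv
  exact abs_le.2 ⟨by nlinarith [h1.1, h2.1], by nlinarith [h1.2, h2.2]⟩

/-- the field on three-space -/
noncomputable def XX (R : Rad) (N : ℕ) (δ : ℝ) (G : E3 → ℝ) (x : E3) : E3 :=
  patch (cen N) (H0 R) x + (0, 1 + δ * G x)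

/-- an orbit of the field -/
structure Orb (R : Rad) (N : ℕ) (δ : ℝ) (G : E3 → ℝ) (K : NNReal) (γ : ℝ → E3) : Prop where
  δ_lt : δ < 1 / 2
  δ_pos : 0 < δ
  G_mem : ∀ x, 0 ≤ G x ∧ G x < 1
  lip : LipschitzWith K (XX R N δ G)
  der : ∀ t, HasDerivAt γ (XX R N δ G (γ t)) t

/-- the orbit is in layer `j` during `[s, t]` -/
def Lay (γ : ℝ → E3) (j : ℤ) (s t : ℝ) : Prop := ∀ u ∈ Icc s t, |(γ u).2 - 10 * j| ≤ 5

variable {R : Rad} {N : ℕ} {δ : ℝ} {G : E3 → ℝ} {K : NNReal} {γ : ℝ → E3} {s t : ℝ} {j : ℤ}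

theorem Orb.cont (h : Orb R N δ G K γ) : Continuous γ :=
  continuous_iff_continuousAt.2 fun t => (h.der t).continuousAt

theorem Orb.plane (h : Orb R N δ G K γ) {x : E3} {m : ℤ} (hx : x.2 = 5 * m) :
    0 < (XX R N δ G x).2 := by
  have h1 := mul_nonneg h.δ_pos.le (h.G_mem x).1
  rcases patch_cases (cen N) (H0 R) x with ⟨i, h2, h3⟩ | ⟨-, h3⟩
  · have h4 : |x.2 - 10 * i.1| < 5 := (norm_snd_le (x - cen N i)).trans_lt h2
    have h5 : m = 2 * i.1 := int_eq (by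
      have := abs_lt.1 h4
      push_cast
      exact abs_lt.2 ⟨by linarith [this.1], by linarith [this.2]⟩)
    have h6 : (x - cen N i).2 = 0 := by
      simp only [cen, Prod.snd_sub, hx, h5]
      push_cast
      ring
    have h7 := h0_pos R (x := x - cen N i) (Or.inr (Or.inl h6))
    have h8 : (XX R N δ G x).2 = h0 R (x - cen N i) + (1 + δ * G x) := by
      unfold XX; rw [h3]; rfl
    linarith
  · unfold XX
    rw [h3]
    simp only [zero_add]
    linarith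

theorem Orb.up (h : Orb R N δ G K γ) (m : ℤ) (hst : s ≤ t) (hs : 5 * m ≤ (γ s).2) :
    5 * m ≤ (γ t).2 := by
  have := fence_fwd (f := fun u => 5 * m - (γ u).2) hst
    (fun u _ => (has_snd (h.der u)).const_sub _)
    (fun u _ hu => neg_neg_of_pos (h.plane (m := m) (by linarith))) (by linarith)
  linarith

theorem Orb.down (h : Orb R N δ G K γ) (m : ℤ) (hst : s ≤ t) (ht : (γ t).2 ≤ 5 * m) :
    (γ s).2 ≤ 5 * m := by
  have := fence_bwd (f := fun u => (γ u).2 - 5 * m) hst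
    (fun u _ => (has_snd (h.der u)).sub_const _)
    (fun u _ hu => h.plane (m := m) (by linarith)) (by linarith)
  linarith

theorem Orb.lay (h : Orb R N δ G K γ) (hs : 10 * j - 5 ≤ (γ s).2) (ht : (γ t).2 ≤ 10 * j + 5) :
    Lay γ j s t := fun u hu => by
  have h1 := h.up (2 * j - 1) hu.1 (by push_cast; linarith)
  have h2 := h.down (2 * j + 1) hu.2 (by push_cast; linarith)
  push_cast at h1 h2
  exact abs_le.2 ⟨by linarith, by linarith⟩

theorem Orb.vert (h : Orb R N δ G K γ) (hl : Lay γ j s t) {u0 : ℝ} (hu0 : u0 ∈ Icc s t)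
    (hv : ∀ w, 1 ≤ |vv ((γ u0).1 - hc N j w)|) : ∀ u ∈ Icc s t, (γ u).1 = (γ u0).1 := by
  intro u hu
  refine sub_eq_zero.1 (zero_of_bound (f := fun u => (γ u).1 - (γ u0).1) (K := K)
    (fun w _ => (has_fst (h.der w)).sub_const _) (fun w hw => ?_) hu0 (sub_self _) u hu)
  have h1 : (XX R N δ G ((γ u0).1, (γ w).2)).1 = 0 := by
    unfold XX
    rcases patch_cases (cen N) (H0 R) ((γ u0).1, (γ w).2) with ⟨i, h2, h3⟩ | ⟨-, h3⟩
    · have h4 : |(γ w).2 - 10 * i.1| < 5 :=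
        (norm_snd_le (((γ u0).1, (γ w).2) - cen N i)).trans_lt h2
      have h5 : i.1 = j := int_eq (by
        have a1 := abs_lt.1 h4
        have a2 := abs_le.1 (hl w hw)
        exact abs_lt.2 ⟨by linarith [a1.2, a2.1], by linarith [a1.1, a2.2]⟩)
      rw [h3, Prod.fst_add, H0_fst R (by simpa [cen, h5] using hv i.2)]
      simp
    · rw [h3]; simp
  have h2 := h.lip.norm_sub_le (γ w) ((γ u0).1, (γ w).2)
  have h3 := norm_fst_le (XX R N δ G (γ w) - XX R N δ G ((γ u0).1, (γ w).2))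
  rw [Prod.fst_sub, h1, sub_zero] at h3
  refine h3.trans (h2.trans (le_of_eq ?_))
  simp [Prod.norm_def]

theorem Orb.conf (h : Orb R N δ G K γ) (hl : Lay γ j s t) {u0 : ℝ} (hu0 : u0 ∈ Icc s t)
    {w : ℤ × ℤ} (hv : |vv ((γ u0).1 - hc N j w)| < 1) :
    ∀ u ∈ Icc s t, |vv ((γ u).1 - hc N j w)| < 1 := by
  intro u hu
  by_contra hn
  obtain ⟨u1, h1, h2⟩ := ivt2 (f := fun u => |vv ((γ u).1 - hc N j w)|)
    (vv_cd.continuous.comp (h.cont.fst.sub continuous_const)).abs hu0 hu hv.le (not_lt.1 hn)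
  have h3 := h.vert hl h1 (fun w' => by
    rcases hc_far ((le_abs_self _).trans h2.le) w' with h4 | h4
    · rw [h4]; exact h2.ge
    · exact h4) u0 hu0
  rw [h3] at hv
  exact hv.ne h2

theorem norm_lt_of {x : E3} {r : ℝ} (hr : 2 ≤ r) (h1 : |vv x.1| < 1) (h2 : |x.2| < r) :
    ‖x‖ < r := by
  rw [Prod.norm_def, max_lt_iff]
  exact ⟨(norm_lt_of_vv ((le_abs_self _).trans h1.le)).trans_le hr, h2⟩

theorem Orb.sol (h : Orb R N δ G K γ) (hl : Lay γ j s t) {w : ℤ × ℤ}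
    (hv : ∀ u ∈ Icc s t, |vv ((γ u).1 - hc N j w)| < 1) :
    Sol R δ (fun u => γ u - cen N (j, w)) (fun u => G (γ u)) s t := by
  intro u hu
  refine ⟨((h.der u).sub_const _).congr_deriv ?_, h.G_mem _⟩
  unfold XX
  rw [patch_eq (cen_sep N) (H0_van R) (i := (j, w))
    (norm_lt_of (by norm_num) (hv u hu) ((hl u hu).trans_lt (by norm_num)))]

theorem Orb.horiz (h : Orb R N δ G K γ) (hst : s ≤ t) (hl : Lay γ j s t) :
    ‖(γ t).1 - (γ s).1‖ ≤ 4 := by
  by_cases hv : ∀ w, 1 ≤ |vv ((γ s).1 - hc N j w)|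
  · rw [h.vert hl ⟨le_rfl, hst⟩ hv t ⟨hst, le_rfl⟩]; simp
  · obtain ⟨w, hw⟩ := not_forall.1 hv
    have h1 := h.conf hl ⟨le_rfl, hst⟩ (not_le.1 hw) t ⟨hst, le_rfl⟩
    have h2 := norm_lt_of_vv ((le_abs_self _).trans h1.le)
    have h3 := norm_lt_of_vv ((le_abs_self _).trans (not_le.1 hw).le)
    have h4 := norm_sub_le ((γ t).1 - hc N j w) ((γ s).1 - hc N j w)
    rw [sub_sub_sub_cancel_right] at h4
    linarith

theorem Orb.one (h : Orb R N δ G K γ) (hst : s ≤ t) (hs : (γ s).2 = 10 * j - 5)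
    (ht : (γ t).2 = 10 * j + 5) :
    ‖(γ t).1 - (γ s).1‖ ≤ δ ∧ ∀ w, 2 * R.a < |vv ((γ s).1 - hc N j w)| := by
  have hl := h.lay hs.ge ht.le
  have ha := R.a_le
  by_cases hv : ∀ w, 1 ≤ |vv ((γ s).1 - hc N j w)|
  · rw [h.vert hl ⟨le_rfl, hst⟩ hv t ⟨hst, le_rfl⟩]
    exact ⟨by simpa using h.δ_pos.le, fun w => by linarith [hv w]⟩
  · obtain ⟨w, hw⟩ := not_forall.1 hv
    have h1 := h.conf hl ⟨le_rfl, hst⟩ (not_le.1 hw)
    obtain ⟨t0, h2, h3⟩ := ivt (c := 10 * j) h.cont.snd hst (by linarith) (by linarith)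
    have h4 := (h.sol hl h1).cross h.δ_lt h.δ_pos h2 (by simp [cen, h3])
      (fun u hu => by
        have := h.down (2 * j) hu.2 (by push_cast; linarith)
        push_cast at this
        simp only [cen, Prod.snd_sub]
        linarith)
      (fun u hu => by
        have := h.up (2 * j) hu.1 (by push_cast; linarith)
        push_cast at this
        simp only [cen, Prod.snd_sub]
        linarith)
      (by simp [cen, hs]) (by simp [cen, ht]) h1
    refine ⟨by simpa using h4.2, fun w' => ?_⟩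
    rcases hc_far ((le_abs_self _).trans (not_le.1 hw).le) w' with h5 | h5
    · rw [h5]; exact h4.1
    · linarith

theorem Orb.many (h : Orb R N δ G K γ) (hst : s ≤ t) (hs : (γ s).2 = 10 * j - 5) (r : ℕ)
    (ht : 10 * (j + r) - 5 ≤ (γ t).2) : ∃ t' ∈ Icc s t, (γ t').2 = 10 * (j + r) - 5 ∧
      ‖(γ t').1 - (γ s).1‖ ≤ r * δ ∧ ∀ i : ℕ, i < r → ∃ ζ, ‖ζ - (γ s).1‖ ≤ i * δ ∧
        ∀ w, 2 * R.a < |vv (ζ - hc N (j + i) w)| := by
  induction r with
  | zero => exact ⟨s, ⟨le_rfl, hst⟩, by simpa using hs, by simp, fun i hi => absurd hi (by simp)⟩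
  | succ r ih =>
    push_cast at ht
    obtain ⟨t', h1, h2, h3, h4⟩ := ih (by linarith)
    obtain ⟨t'', h5, h6⟩ := ivt (c := 10 * (j + (r + 1)) - 5) h.cont.snd h1.2 (by linarith) ht
    obtain ⟨h7, h8⟩ := h.one (j := j + r) h5.1 (by push_cast; linarith) (by push_cast; linarith)
    refine ⟨t'', ⟨h1.1.trans h5.1, h5.2⟩, by push_cast; linarith, ?_, fun i hi => ?_⟩
    · have := norm_add_le ((γ t'').1 - (γ t').1) ((γ t').1 - (γ s).1)
      rw [sub_add_sub_cancel] at this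
      push_cast
      linarith
    · rcases (Nat.lt_succ_iff.1 hi).lt_or_eq with h9 | h9
      · exact h4 i h9
      · subst h9
        exact ⟨_, h3, h8⟩

theorem Orb.bound' (h : Orb R N δ G K γ) (hN : 0 < N) (h1 : (20 : ℝ) / N ≤ R.a / 10)
    (h2 : (N : ℝ) ^ 2 * δ ≤ R.a / 10) (hst : s ≤ t) : ‖γ t - γ s‖ ≤ 10 * (N : ℝ) ^ 2 + 20 := by
  have ha := R.a_le
  have ha0 := R.a_pos
  have hN2 : (0 : ℝ) ≤ (N : ℝ) ^ 2 := by positivity
  obtain ⟨j, hj⟩ : ∃ j : ℤ, |(γ s).2 - 10 * j| ≤ 5 := ⟨round ((γ s).2 / 10), by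
    have := abs_le.1 (abs_sub_round ((γ s).2 / 10))
    exact abs_le.2 ⟨by linarith [this.1], by linarith [this.2]⟩⟩
  have hj' := abs_le.1 hj
  rw [Prod.norm_def, max_le_iff, Prod.fst_sub, Prod.snd_sub, Real.norm_eq_abs]
  by_cases hz : (γ t).2 ≤ 10 * j + 5
  · have hl := h.lay (s := s) (by linarith) hz
    have h3 := abs_le.1 (hl t ⟨hst, le_rfl⟩)
    exact ⟨by linarith [h.horiz hst hl], abs_le.2 ⟨by linarith, by linarith⟩⟩
  · obtain ⟨s', h3, h4⟩ := ivt (c := 10 * j + 5) h.cont.snd hst (by linarith) (not_le.1 hz).le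
    have h5 := h.horiz h3.1 (h.lay (j := j) (by linarith) h4.le)
    set r : ℕ := ⌊((γ t).2 - (10 * j + 5)) / 10⌋₊ with hr
    have h6 : (r : ℝ) ≤ ((γ t).2 - (10 * j + 5)) / 10 := Nat.floor_le (by linarith)
    have h7 : ((γ t).2 - (10 * j + 5)) / 10 < r + 1 := Nat.lt_floor_add_one _
    obtain ⟨t', a1, a2, a3, a4⟩ := h.many (j := j + 1) h3.2 (by push_cast; linarith) r
      (by push_cast; linarith)
    have a5 := h.horiz a1.2 (h.lay (j := j + 1 + r) (by push_cast at a2 ⊢; linarith)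
      (by push_cast; linarith))
    have a6 : r ≤ N ^ 2 := by
      by_contra hn
      obtain ⟨i, b1, w, b2⟩ := cover hN (γ s').1 (j + 1)
      obtain ⟨ζ, b3, b4⟩ := a4 i (by omega)
      have b5 : (i : ℝ) ≤ (N : ℝ) ^ 2 := by exact_mod_cast b1.le
      have b6 := mul_le_mul_of_nonneg_right b5 h.δ_pos.le
      have b7 := norm_add_le (ζ - (γ s').1) ((γ s').1 - hc N (j + 1 + i) w - (1 + I))
      rw [show ζ - (γ s').1 + ((γ s').1 - hc N (j + 1 + i) w - (1 + I)) =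
        ζ - hc N (j + 1 + i) w - (1 + I) by abel] at b7
      have b8 := vv_near (w := ζ - hc N (j + 1 + i) w) (e := R.a / 5) (by linarith) (by linarith)
      linarith [b4 w]
    have a7 : (r : ℝ) ≤ (N : ℝ) ^ 2 := by exact_mod_cast a6
    have a8 := mul_le_mul_of_nonneg_right a7 h.δ_pos.le
    have a9 := norm_add₃_le (a := (γ t).1 - (γ t').1) (b := (γ t').1 - (γ s').1)
      (c := (γ s').1 - (γ s).1)
    rw [sub_add_sub_cancel, sub_add_sub_cancel] at a9
    exact ⟨by linarith, abs_le.2 ⟨by linarith, by linarith⟩⟩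

theorem Orb.bound (h : Orb R N δ G K γ) (hN : 0 < N) (h1 : (20 : ℝ) / N ≤ R.a / 10)
    (h2 : (N : ℝ) ^ 2 * δ ≤ R.a / 10) (s t : ℝ) : ‖γ t - γ s‖ ≤ 10 * (N : ℝ) ^ 2 + 20 := by
  rcases le_total s t with hst | hst
  · exact h.bound' hN h1 h2 hst
  · rw [norm_sub_rev]; exact h.bound' hN h1 h2 hst

/-- the part of the plug from which the orbits are trapped in the past -/
def U0 (R : Rad) (δ : ℝ) : Set E3 :=
  {x | |vv x.1| < 2 * R.a ∧ 0 < x.2 ∧ x.2 < 5 ∧ bar R δ x < 0}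

theorem U0_open (R : Rad) (δ : ℝ) : IsOpen (U0 R δ) :=
  (isOpen_lt (vv_cd.continuous.comp continuous_fst).abs continuous_const).inter
    ((isOpen_lt continuous_const continuous_snd).inter
      ((isOpen_lt continuous_snd continuous_const).inter
        (isOpen_lt (bar_cont R δ) continuous_const)))

theorem Orb.back (h : Orb R N δ G K γ) {i : ℤ × ℤ × ℤ} (ht : γ t - cen N i ∈ U0 R δ)
    (hst : s ≤ t) : ‖γ s - cen N i‖ < 5 := by
  obtain ⟨j, w⟩ := i
  obtain ⟨h1, h2, h3, h4⟩ := ht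
  have ha := R.a_le
  have h1' : |vv ((γ t).1 - hc N j w)| < 1 := h1.trans (by linarith)
  have h2' : 10 * j < (γ t).2 := sub_pos.1 h2
  have h3' : (γ t).2 - 10 * j < 5 := h3
  have h5 : 10 * j < (γ s).2 := by
    by_contra hn
    obtain ⟨t0, a1, a2⟩ := ivt (c := 10 * j) h.cont.snd hst (not_lt.1 hn) h2'.le
    have hl : Lay γ j t0 t := h.lay (by linarith) (by linarith)
    refine (h.sol hl (h.conf hl ⟨a1.2, le_rfl⟩ h1')).trap_upper h.δ_lt h.δ_pos a1.2
      (fun u hu => ?_) h1.le h4.le (by simp [cen, a2])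
    have := h.up (2 * j) hu.1 (by push_cast; linarith)
    push_cast at this
    simp only [cen, Prod.snd_sub]
    linarith
  have h6 : (γ s).2 < 10 * j + 5 := by
    by_contra hn
    have := h.up (2 * j + 1) hst (by push_cast; linarith)
    push_cast at this
    linarith
  have hl : Lay γ j s t := h.lay (by linarith) (by linarith)
  refine norm_lt_of (by norm_num) (h.conf hl ⟨hst, le_rfl⟩ h1' s ⟨le_rfl, hst⟩) ?_
  simp only [cen, Prod.snd_sub]
  exact abs_lt.2 ⟨by linarith, by linarith⟩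

end Pool.Agent.P.MP_ff4c85_gt
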