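import Pool.Agent.P.MP_ff4c85_gt.Flow

/-! The flow of a bounded Lipschitz divergence free vector field preserves Haar measure. -/

set_option autoImplicit false

open Set Filter Topology MeasureTheory Metric

namespace Pool.Agent.P.MP_ff4c85_gt

theorem det_sq_le {n : Type*} [Fintype n] [DecidableEq n] (B : Matrix n n ℝ) :
    B.det ^ 2 ≤ Real.exp ((B.conjTranspose * B).trace - Fintype.card n) := by
  have hP := Matrix.posSemidef_conjTranspose_mul_self B
  have h1 : (B.conjTranspose * B).det = B.det ^ 2 := by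
    rw [Matrix.det_mul, Matrix.det_conjTranspose, star_trivial, sq]
  have h2 : ((Fintype.card n : ℕ) : ℝ) = ∑ _i : n, (1 : ℝ) := by simp
  rw [← h1, hP.1.det_eq_prod_eigenvalues, hP.1.trace_eq_sum_eigenvalues, h2,
    ← Finset.sum_sub_distrib, Real.exp_sum]
  refine Finset.prod_le_prod (fun i _ => hP.eigenvalues_nonneg i) fun i _ => ?_
  have := Real.add_one_le_exp (hP.1.eigenvalues i - 1)
  simpa using this

theorem abs_det_le {n : Type*} [Fintype n] [DecidableEq n] (M : Matrix n n ℝ) (hM : M.trace = 0)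
    (h : ℝ) : |(1 + h • M).det| ≤ Real.exp ((∑ i, ∑ j, M j i ^ 2) * h ^ 2) := by
  have h1 := det_sq_le (1 + h • M)
  have h2 : ((1 + h • M).conjTranspose * (1 + h • M)).trace - Fintype.card n =
      (∑ i, ∑ j, M j i ^ 2) * h ^ 2 := by
    have h3 : (M.transpose * M).trace = ∑ i, ∑ j, M j i ^ 2 := by
      simp [Matrix.trace, Matrix.mul_apply, sq]
    rw [Matrix.conjTranspose_eq_transpose_of_trivial, Matrix.transpose_add, Matrix.transpose_one,
      Matrix.transpose_smul, add_mul, mul_add, mul_add, one_mul, one_mul, mul_one,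
      Matrix.smul_mul, Matrix.mul_smul]
    simp only [Matrix.trace_add, Matrix.trace_smul, Matrix.trace_transpose, hM, h3,
      Matrix.trace_one, smul_eq_mul]
    ring
  rw [h2] at h1
  have h3 : 0 ≤ (∑ i, ∑ j, M j i ^ 2) * h ^ 2 := by positivity
  have h4 := Real.one_le_exp h3
  refine abs_le_of_sq_le_sq' (h1.trans ?_) (by positivity) |> abs_le.2
  nlinarith

variable {E : Type*} [NormedAddCommGroup E] [NormedSpace ℝ E] [FiniteDimensional ℝ E]

theorem exists_det_le (K : ℝ) : ∃ c : ℝ, 0 ≤ c ∧ ∀ A : E →L[ℝ] E, ‖A‖ ≤ K →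
    LinearMap.trace ℝ E (A : E →ₗ[ℝ] E) = 0 → ∀ h : ℝ,
      |(ContinuousLinearMap.id ℝ E + h • A).det| ≤ Real.exp (c * h ^ 2) := by
  classical
  set b := Module.finBasis ℝ E
  refine ⟨∑ i, ∑ j, (‖LinearMap.toContinuousLinearMap (b.coord j)‖ * (K * ‖b i‖)) ^ 2,
    by positivity, fun A hA ht h => ?_⟩
  have h1 : (ContinuousLinearMap.id ℝ E + h • A).det =
      (1 + h • LinearMap.toMatrix b b (A : E →ₗ[ℝ] E)).det := by
    rw [ContinuousLinearMap.det, ← LinearMap.det_toMatrix b]
    simp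
  rw [LinearMap.trace_eq_matrix_trace ℝ b] at ht
  rw [h1]
  refine (abs_det_le _ ht h).trans (Real.exp_le_exp.2 (mul_le_mul_of_nonneg_right
    (Finset.sum_le_sum fun i _ => Finset.sum_le_sum fun j _ => ?_) (sq_nonneg h)))
  refine sq_le_sq' (abs_le.1 ?_).1 (abs_le.1 ?_).2 <;>
  · rw [LinearMap.toMatrix_apply]
    have h2 := (LinearMap.toContinuousLinearMap (b.coord j)).le_opNorm (A (b i))
    have h3 : ‖A (b i)‖ ≤ K * ‖b i‖ :=
      (A.le_opNorm _).trans (mul_le_mul_of_nonneg_right hA (norm_nonneg _))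
    exact h2.trans (mul_le_mul_of_nonneg_left h3 (norm_nonneg _))

namespace IsFlow

variable {W : E → E} {φ : ℝ → E → E} {K : NNReal} {C : ℝ}

/-- one step of the flow is one Euler step from a nearby point -/
theorem exists_euler (h : IsFlow W φ) (hK : LipschitzWith K W) (hC : ∀ x, ‖W x‖ ≤ C) {t : ℝ}
    (ht : 0 ≤ t) (hKt : K * t ≤ 1 / 2) (x : E) :
    ∃ y, y + t • W y = φ t x ∧ dist y x ≤ 2 * (K * (C * t) * t) := by
  haveI : CompleteSpace E := FiniteDimensional.complete ℝ E
  haveI : Nonempty E := ⟨x⟩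
  have hlip : ∀ u v, ‖t • W u - t • W v‖ ≤ 1 / 2 * dist u v := by
    intro u v
    rw [← smul_sub, norm_smul, Real.norm_eq_abs, abs_of_nonneg ht, ← dist_eq_norm]
    have h1 := mul_le_mul_of_nonneg_left (hK.dist_le_mul u v) ht
    have h2 := mul_le_mul_of_nonneg_right hKt (dist_nonneg (x := u) (y := v))
    linarith
  have hc : ContractingWith (1 / 2) fun y => φ t x - t • W y := by
    refine ⟨by norm_num, LipschitzWith.of_dist_le_mul fun u v => ?_⟩
    rw [dist_sub_left, dist_eq_norm]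
    simpa using hlip u v
  have hfix : φ t x - t • W (hc.fixedPoint _) = hc.fixedPoint _ := hc.fixedPoint_isFixedPt
  set y := hc.fixedPoint _
  refine ⟨y, by rw [← hfix]; nth_rewrite 2 [hfix]; exact sub_add_cancel _ _, ?_⟩
  have h1 := h.step_le hK ht (x := x) (M := C) (fun s _ => hC _) (left_mem_Icc.2 ht)
  rw [h.zero] at h1
  have h2 := hlip x y
  have h3 : y - x = (φ t x - x - t • W x) + (t • W x - t • W y) := by
    nth_rewrite 1 [← hfix]
    abel
  have h4 : dist y x ≤ ‖φ t x - x - t • W x‖ + ‖t • W x - t • W y‖ := by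
    rw [dist_eq_norm, h3]
    exact norm_add_le _ _
  rw [dist_comm x y] at h2
  linarith

variable [MeasurableSpace E] [BorelSpace E] (μ : Measure E) [μ.IsAddHaarMeasure]

theorem iter_le (h : IsFlow W φ) (hK : LipschitzWith K W) (hC : ∀ x, ‖W x‖ ≤ C)
    (hd : Differentiable ℝ W) {c T t : ℝ}
    (hc : ∀ x, |(ContinuousLinearMap.id ℝ E + t • fderiv ℝ W x).det| ≤ Real.exp (c * t ^ 2))
    (ht : 0 ≤ t) (hKt : K * t ≤ 1 / 2) (j : ℕ) (hj : j * t ≤ T) (A : Set E) :
    μ (φ (j * t) '' A) ≤ ENNReal.ofReal (Real.exp (j * (c * t ^ 2))) *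
      μ (cthickening (j * (2 * (K * (C * t) * t) * Real.exp (K * T))) A) := by
  have hC0 : 0 ≤ C := (norm_nonneg _).trans (hC 0)
  set δ := 2 * (K * (C * t) * t) * Real.exp (K * T) with hδ
  have hδ0 : 0 ≤ δ := by positivity
  induction j generalizing A with
  | zero =>
    simp only [Nat.cast_zero, zero_mul, h.zero, image_id', Real.exp_zero, ENNReal.ofReal_one,
      one_mul]
    exact measure_mono (self_subset_cthickening A)
  | succ j ih =>
    have hj0 : (0 : ℝ) ≤ j * t := by positivity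
    have hj' : (j : ℝ) * t ≤ T := by
      push_cast at hj
      linarith
    set B := φ (j * t) '' cthickening δ A with hB
    have hBm : MeasurableSet B :=
      ((h.homeo hK (j * t)).isClosed_image.2 isClosed_cthickening).measurableSet
    have hsub : φ (((j + 1 : ℕ) : ℝ) * t) '' A ⊆ (fun y => y + t • W y) '' B := by
      rintro _ ⟨x, hx, rfl⟩
      obtain ⟨y, hy1, hy2⟩ := h.exists_euler hK hC ht hKt (φ (j * t) x)
      refine ⟨y, ⟨φ (-(j * t)) y, mem_cthickening_of_dist_le _ x _ _ hx ?_, h.neg_right hK _ _⟩, ?_⟩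
      · have h1 := h.dist_le hK (-(j * t)) y (φ (j * t) x)
        rw [h.neg_left hK, abs_neg, abs_of_nonneg hj0] at h1
        refine h1.trans (mul_le_mul hy2 (Real.exp_le_exp.2 ?_) (Real.exp_pos _).le (by positivity))
        exact mul_le_mul_of_nonneg_left hj' K.2
      · rw [show ((j + 1 : ℕ) : ℝ) * t = t + j * t by push_cast; ring, h.add hK]
        exact hy1
    have h1 : μ ((fun y => y + t • W y) '' B) ≤ ENNReal.ofReal (Real.exp (c * t ^ 2)) * μ B := by
      refine (addHaar_image_le_lintegral_abs_det_fderiv μ hBm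
        (f' := fun x => ContinuousLinearMap.id ℝ E + t • fderiv ℝ W x) fun x _ =>
          ((hasFDerivAt_id x).add ((hd x).hasFDerivAt.const_smul t)).hasFDerivWithinAt).trans ?_
      rw [← setLIntegral_const]
      exact lintegral_mono fun x => ENNReal.ofReal_le_ofReal (hc x)
    refine (measure_mono hsub).trans (h1.trans ((mul_le_mul_right (ih hj' _) _).trans ?_))
    rw [← mul_assoc, ← ENNReal.ofReal_mul (Real.exp_pos _).le, ← Real.exp_add,
      show c * t ^ 2 + j * (c * t ^ 2) = ((j + 1 : ℕ) : ℝ) * (c * t ^ 2) by push_cast; ring,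
      show ((j + 1 : ℕ) : ℝ) * δ = j * δ + δ by push_cast; ring]
    exact mul_le_mul_right (measure_mono
      (cthickening_cthickening_subset (by positivity) hδ0 A)) _

theorem image_le (h : IsFlow W φ) (hK : LipschitzWith K W) (hC : ∀ x, ‖W x‖ ≤ C)
    (hd : Differentiable ℝ W)
    (htr : ∀ x, LinearMap.trace ℝ E (fderiv ℝ W x : E →ₗ[ℝ] E) = 0) {T : ℝ} (hT : 0 ≤ T)
    {A : Set E} (hA : IsCompact A) : μ (φ T '' A) ≤ μ A := by
  haveI : ProperSpace E := FiniteDimensional.proper ℝ E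
  obtain ⟨c, -, hc⟩ := exists_det_le (E := E) K
  have h0 : Tendsto (fun N : ℕ => T / ((N : ℝ) + 1)) atTop (𝓝 0) := by
    simpa [div_eq_mul_inv] using
      (tendsto_one_div_add_atTop_nhds_zero_nat (𝕜 := ℝ)).const_mul T
  have h1 : Tendsto (fun N : ℕ => ENNReal.ofReal (Real.exp (c * T * (T / ((N : ℝ) + 1))))) atTop
      (𝓝 1) := by
    have h2 : Continuous fun s : ℝ => ENNReal.ofReal (Real.exp (c * T * s)) :=
      ENNReal.continuous_ofReal.comp (by fun_prop)
    simpa [Function.comp_def] using (h2.tendsto 0).comp h0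
  have h2 : Tendsto (fun N : ℕ => μ (cthickening
      (2 * (K * C * T) * Real.exp (K * T) * (T / ((N : ℝ) + 1))) A)) atTop (𝓝 (μ A)) := by
    refine (tendsto_measure_cthickening_of_isCompact hA).comp ?_
    simpa using h0.const_mul (2 * (K * C * T) * Real.exp (K * T))
  have h3 := ENNReal.Tendsto.mul h1 (Or.inl one_ne_zero) h2 (Or.inr ENNReal.one_ne_top)
  rw [one_mul] at h3
  refine ge_of_tendsto h3 ?_
  have h4 : Tendsto (fun N : ℕ => K * (T / ((N : ℝ) + 1))) atTop (𝓝 0) := by
    simpa using h0.const_mul (K : ℝ)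
  filter_upwards [h4.eventually_le_const (show (0 : ℝ) < 1 / 2 by norm_num)] with N hN
  have hN0 : (0 : ℝ) < N + 1 := by positivity
  have e1 : ((N + 1 : ℕ) : ℝ) * (T / ((N : ℝ) + 1)) = T := by push_cast; field_simp
  have h5 := h.iter_le μ hK hC hd (c := c) (T := T) (t := T / ((N : ℝ) + 1))
    (fun x => hc _ (norm_fderiv_le_of_lipschitz ℝ hK) (htr x) _) (by positivity) hN (N + 1) e1.le A
  have e2 : ((N + 1 : ℕ) : ℝ) * (c * (T / ((N : ℝ) + 1)) ^ 2) = c * T * (T / ((N : ℝ) + 1)) := by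
    push_cast; field_simp
  have e3 : ((N + 1 : ℕ) : ℝ) * (2 * (K * (C * (T / ((N : ℝ) + 1))) * (T / ((N : ℝ) + 1))) *
      Real.exp (K * T)) = 2 * (K * C * T) * Real.exp (K * T) * (T / ((N : ℝ) + 1)) := by
    push_cast; field_simp
  rwa [e1, e2, e3] at h5

theorem image_le' (h : IsFlow W φ) (hK : LipschitzWith K W) (hC : ∀ x, ‖W x‖ ≤ C)
    (hd : Differentiable ℝ W)
    (htr : ∀ x, LinearMap.trace ℝ E (fderiv ℝ W x : E →ₗ[ℝ] E) = 0) (T : ℝ)
    {A : Set E} (hA : IsCompact A) : μ (φ T '' A) ≤ μ A := by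
  rcases le_total 0 T with hT | hT
  · exact h.image_le μ hK hC hd htr hT hA
  · have := h.neg.image_le μ hK.neg (C := C) (fun x => by simpa using hC x) hd.fun_neg
      (fun x => by rw [fderiv_fun_neg]; simp [htr x]) (neg_nonneg.2 hT) hA
    simpa using this

/-- (LIOU) -/
theorem measurePreserving (h : IsFlow W φ) (hK : LipschitzWith K W) (hC : ∀ x, ‖W x‖ ≤ C)
    (hd : Differentiable ℝ W)
    (htr : ∀ x, LinearMap.trace ℝ E (fderiv ℝ W x : E →ₗ[ℝ] E) = 0) (t : ℝ) :
    MeasurePreserving (φ t) μ μ := by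
  haveI : ProperSpace E := FiniteDimensional.proper ℝ E
  have hm : Measurable (φ t) := (h.cont hK t).measurable
  have hpre : ∀ A : Set E, φ t ⁻¹' A = φ (-t) '' A := fun A =>
    (h.homeo hK t).toEquiv.image_symm_eq_preimage A |>.symm
  have hcomp : ∀ A : Set E, IsCompact A → μ.map (φ t) A = μ A := by
    intro A hA
    rw [Measure.map_apply hm hA.measurableSet, hpre]
    refine le_antisymm (h.image_le' μ hK hC hd htr _ hA) ?_
    have h1 := h.image_le' μ hK hC hd htr t (hA.image (h.cont hK (-t)))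
    rwa [image_image, show (fun x => φ t (φ (-t) x)) = id from funext (h.neg_right hK t),
      image_id] at h1
  haveI : IsFiniteMeasureOnCompacts (μ.map (φ t)) :=
    ⟨fun A hA => by rw [hcomp A hA]; exact hA.measure_lt_top⟩
  refine ⟨hm, Measure.ext fun A hA => ?_⟩
  rw [A.measure_eq_iInf_isOpen, A.measure_eq_iInf_isOpen μ]
  refine iInf_congr fun U => iInf_congr fun _ => iInf_congr fun hU => ?_
  rw [hU.measure_eq_iSup_isCompact, hU.measure_eq_iSup_isCompact μ]
  exact iSup_congr fun B => iSup_congr fun _ => iSup_congr fun hB => hcomp B hB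

end IsFlow

end Pool.Agent.P.MP_ff4c85_gt
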