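import Mathlib

/-! The definitions used in the statement of the hand-in. -/

set_option autoImplicit false

open scoped ContDiff

namespace Pool.Agent.P.MP_ff4c85_gt

variable {X : Type} [NormedAddCommGroup X] [NormedSpace ℝ X]

/-- `V` is a smooth, nowhere zero, divergence-free vector field. -/
def SmoothDivFree (V : X → X) : Prop :=
  ContDiff ℝ ∞ V ∧ (∀ x, V x ≠ 0) ∧ ∀ x, LinearMap.trace ℝ X (fderiv ℝ V x).toLinearMap = 0

/-- `φ` is a one-parameter group of homeomorphisms whose trajectories solve `x' = V x`. -/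
def IsFlowOf (V : X → X) (φ : ℝ → X ≃ₜ X) : Prop :=
  (∀ x, φ 0 x = x) ∧ (∀ s t x, φ (s + t) x = φ s (φ t x)) ∧
    ∀ x t, HasDerivAt (fun t => φ t x) (V (φ t x)) t

/-- `V (x + w) = V x` and `φ t (x + w) = φ t x + w`: the field and the flow have period `w`. -/
def HasPeriod (V : X → X) (φ : ℝ → X ≃ₜ X) (w : X) : Prop :=
  (∀ x, V (x + w) = V x) ∧ ∀ t x, φ t (x + w) = φ t x + w

end Pool.Agent.P.MP_ff4c85_gt
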