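import Pool.Agent.P.MP_ff4c85_gt.Layers

/-! A periodic function that decreases in the vertical direction outside the source boxes. -/

set_option autoImplicit false

open Set Filter Topology Complex
open scoped ContDiff

namespace Pool.Agent.P.MP_ff4c85_gt

/-- the period lattice -/
noncomputable def lat (N : ℕ) (w : ℤ × ℤ × ℤ) : E3 :=
  (⟨10 * w.1, 10 * w.2.1⟩, 10 * (N : ℝ) ^ 2 * w.2.2)

/-- invariance under the period lattice -/
def Per {F : Type} (N : ℕ) (f : E3 → F) : Prop := ∀ w x, f (x + lat N w) = f x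

theorem hc_shift {N : ℕ} (hN : 0 < N) (j l : ℤ) (u : ℤ × ℤ) (w1 w2 : ℤ) :
    hc N (j + N ^ 2 * l) (u.1 + w1 - N * l, u.2 + w2 - l) = hc N j u + ⟨10 * w1, 10 * w2⟩ := by
  have hN' : (N : ℝ) ≠ 0 := by exact_mod_cast hN.ne'
  have hNz : (N : ℤ) ≠ 0 := by exact_mod_cast hN.ne'
  have h1 : (j + N ^ 2 * l) / (N : ℤ) = j / N + N * l := by
    rw [show j + (N : ℤ) ^ 2 * l = j + N * (N * l) by ring, Int.add_mul_ediv_left _ _ hNz]
  refine Complex.ext ?_ ?_
  · simp only [hc, add_re]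
    push_cast
    field_simp
    ring
  · simp only [hc, add_im, h1]
    push_cast
    field_simp
    ring

theorem lat_neg (N : ℕ) (w : ℤ × ℤ × ℤ) : lat N (-w) = - lat N w := by
  refine Prod.ext (Complex.ext ?_ ?_) ?_ <;> simp [lat]

theorem cen_shift {N : ℕ} (hN : 0 < N) (w i : ℤ × ℤ × ℤ) : ∃ j, cen N j = cen N i + lat N w := by
  refine ⟨(i.1 + N ^ 2 * w.2.2, i.2.1 + w.1 - N * w.2.2, i.2.2 + w.2.1 - w.2.2),
    Prod.ext (hc_shift hN _ _ _ _ _) ?_⟩
  simp only [cen, lat, Prod.snd_add]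
  push_cast
  ring

theorem per_patch {N : ℕ} (hN : 0 < N) {H : E3 → E3} (hH : Van H) : Per N (patch (cen N) H) :=
  fun w x => patch_per (cen_sep N) hH (cen_shift hN w)
    (fun i => by rw [sub_eq_add_neg, ← lat_neg]; exact cen_shift hN (-w) i) x

theorem cocpt {N : ℕ} (hN : 0 < N) (x : E3) : ∃ w, ‖x + lat N w‖ ≤ 10 + 5 * (N : ℝ) ^ 2 := by
  have hN' : (0 : ℝ) < N := by exact_mod_cast hN
  have key : ∀ c y : ℝ, 0 < c → |y + c * ((-round (y / c) : ℤ) : ℝ)| ≤ c / 2 := fun c y hc => by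
    have h1 := abs_sub_round (y / c)
    have h2 : y + c * ((-round (y / c) : ℤ) : ℝ) = c * (y / c - round (y / c)) := by
      push_cast
      field_simp
      ring
    rw [h2, abs_mul, abs_of_pos hc]
    nlinarith
  refine ⟨(-round (x.1.re / 10), -round (x.1.im / 10), -round (x.2 / (10 * (N : ℝ) ^ 2))), ?_⟩
  have h1 := key 10 x.1.re (by norm_num)
  have h2 := key 10 x.1.im (by norm_num)
  have h3 := key (10 * (N : ℝ) ^ 2) x.2 (by positivity)
  have h4 : (0 : ℝ) ≤ (N : ℝ) ^ 2 := by positivity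
  rw [Prod.norm_def, max_le_iff]
  refine ⟨(norm_le_abs_re_add_abs_im _).trans ?_, ?_⟩
  · simp only [lat, Prod.fst_add, add_re, add_im]
    linarith
  · simp only [lat, Prod.snd_add, Real.norm_eq_abs]
    linarith

theorem Per.bdd {F : Type} [NormedAddCommGroup F] [NormedSpace ℝ F] {N : ℕ} (hN : 0 < N)
    {f : E3 → F} (h : Per N f) (hf : ContDiff ℝ ∞ f) :
    ∃ K : NNReal, LipschitzWith K f ∧ (∀ x, ‖f x‖ ≤ K) ∧ ∀ x, ‖fderiv ℝ f x‖ ≤ K :=
  bdd_of_per hf fun x => (cocpt hN x).imp' (lat N) fun w hw => ⟨hw, h w⟩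

theorem near_of_cos {θ η : ℝ} (h0 : 0 ≤ η) (h : Real.cos η < Real.cos θ) :
    ∃ l : ℤ, |θ - l * (2 * Real.pi)| < η := by
  have hπ := Real.pi_pos
  refine ⟨round (θ / (2 * Real.pi)), ?_⟩
  have h1 := abs_sub_round (θ / (2 * Real.pi))
  have h2 : θ - round (θ / (2 * Real.pi)) * (2 * Real.pi) =
      2 * Real.pi * (θ / (2 * Real.pi) - round (θ / (2 * Real.pi))) := by
    field_simp
  have h3 : |θ - round (θ / (2 * Real.pi)) * (2 * Real.pi)| ≤ Real.pi := by
    rw [h2, abs_mul, abs_of_pos (by positivity)]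
    nlinarith
  by_contra hn
  have h4 := Real.cos_le_cos_of_nonneg_of_le_pi h0 h3 (not_lt.1 hn)
  rw [Real.cos_abs, Real.cos_sub_int_mul_two_pi] at h4
  linarith

theorem exists_G (R : Rad) {N : ℕ} (hN : 0 < N) (h1 : (20 : ℝ) / N ≤ R.a / 10) :
    ∃ G Gz : E3 → ℝ, ContDiff ℝ ∞ G ∧ Per N G ∧ (∀ x, 0 ≤ G x ∧ G x < 1) ∧
      (∀ x, HasDerivAt (fun z => G (x.1, z)) (Gz x) x.2) ∧ (∀ x, -1 ≤ Gz x) ∧
      ∀ x, Gz x < 0 ∨ ∃ i, ‖x - cen N i‖ < 5 ∧ 0 < R.q (vv (x - cen N i).1) ∧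
        2 < (x - cen N i).2 ∧ (x - cen N i).2 < 3 := by
  have hπ := Real.pi_pos
  have ha := R.a_le
  have ha0 := R.a_pos
  have hN' : (1 : ℝ) ≤ N := by exact_mod_cast hN
  have hN2 : (1 : ℝ) ≤ (N : ℝ) ^ 2 := one_le_pow₀ hN'
  set κ : ℝ := Real.pi / (5 * (N : ℝ) ^ 2) with hκ
  have hκ0 : 0 < κ := by positivity
  have hκ1 : κ * (5 * (N : ℝ) ^ 2) = Real.pi := by rw [hκ]; field_simp
  have hκ2 : κ / 2 < Real.pi / 2 := by nlinarith
  have hc0 : 0 < Real.cos (κ / 2) := Real.cos_pos_of_mem_Ioo ⟨by linarith, hκ2⟩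
  have hc1 : Real.cos (κ / 2) < 1 := by
    rw [← Real.cos_zero]
    exact Real.cos_lt_cos_of_nonneg_of_le_pi le_rfl (by linarith) (by linarith)
  set e : ℝ := 2 / (1 + Real.cos (κ / 2)) with he
  have he1 : e * (1 + Real.cos (κ / 2)) = 2 := by rw [he]; field_simp
  have he2 : 1 < e := by nlinarith
  have hden : ∀ θ, 0 < e - Real.cos θ := fun θ => by linarith [Real.cos_le_one θ]
  have hvan : Van fun ζ : ℂ => R.q (vv ζ) := fun ζ h => R.q_out _ (by
    have := vv_norm ζ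
    exact le_abs.2 (Or.inl (by nlinarith)))
  set lam : ℕ → ℂ → ℝ := fun j => patch (hc N j) fun ζ => R.q (vv ζ) with hlam
  have lam0 : ∀ j ζ, 0 ≤ lam j ζ := fun j ζ => by
    rcases patch_cases (hc N j) (fun ζ => R.q (vv ζ)) ζ with ⟨u, -, h⟩ | ⟨-, h⟩
    · exact h.ge.trans' (R.q_mem _).1
    · exact h.ge
  set P : E3 → ℝ := fun x => ∑ j ∈ Finset.range (N ^ 2), lam j x.1 *
    (Real.sin (κ * (x.2 - 10 * j - 5 / 2)) / (e - Real.cos (κ * (x.2 - 10 * j - 5 / 2)))) with hP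
  set Pz : E3 → ℝ := fun x => ∑ j ∈ Finset.range (N ^ 2), lam j x.1 *
    ((e * Real.cos (κ * (x.2 - 10 * j - 5 / 2)) - 1) * κ /
      (e - Real.cos (κ * (x.2 - 10 * j - 5 / 2))) ^ 2) with hPz
  have P_cd : ContDiff ℝ ∞ P := ContDiff.sum fun j _ =>
    ((patch_cd (hc_sep N j) hvan (R.q_cd.comp vv_cd)).comp contDiff_fst).mul
      (ContDiff.div (by fun_prop) (by fun_prop) fun x => (hden _).ne')
  have P_per : Per N P := fun w x => Finset.sum_congr rfl fun j _ => by
    have a1 : lam j (x + lat N w).1 = lam j x.1 :=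
      patch_per (hc_sep N j) hvan (w := ⟨10 * w.1, 10 * w.2.1⟩)
        (fun u => ⟨_, by simpa using hc_shift hN j 0 u w.1 w.2.1⟩)
        (fun u => ⟨(u.1 - w.1, u.2 - w.2.1), by
          refine Complex.ext ?_ ?_ <;> simp [hc] <;> ring⟩) x.1
    have a2 : κ * ((x + lat N w).2 - 10 * j - 5 / 2) =
        κ * (x.2 - 10 * j - 5 / 2) + w.2.2 * (2 * Real.pi) := by
      simp only [lat, Prod.snd_add]
      rw [← hκ1]
      ring
    rw [a1, a2, Real.sin_add_int_mul_two_pi, Real.cos_add_int_mul_two_pi]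
  have P_has : ∀ x : E3, HasDerivAt (fun z => P (x.1, z)) (Pz x) x.2 := fun x =>
    HasDerivAt.fun_sum fun j _ => by
      have a1 : HasDerivAt (fun z : ℝ => κ * (z - 10 * j - 5 / 2)) κ x.2 := by
        simpa using (((hasDerivAt_id x.2).sub_const (10 * (j : ℝ))).sub_const (5 / 2)).const_mul κ
      refine ((a1.sin.div (a1.cos.const_sub e) (hden _).ne').const_mul (lam j x.1)).congr_deriv ?_
      congr 2
      linear_combination (-κ) * Real.sin_sq_add_cos_sq (κ * (x.2 - 10 * j - 5 / 2))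
  obtain ⟨K, -, hK1, hK2⟩ := P_per.bdd hN P_cd
  have hK0 : (0 : ℝ) ≤ K := K.2
  have Pz_bd : ∀ x, |Pz x| ≤ K := fun x => by
    have a1 : HasDerivAt (fun z => P (x.1, z)) (Pz x) (x.2 + 0) := by simpa using P_has x
    have a2 : fderiv ℝ P x (0, 1) = Pz x :=
      (has_line (P_cd.differentiable (by simp) x) (0, 1)).unique
        ((a1.comp_const_add x.2 0).congr_of_eventuallyEq (Eventually.of_forall fun s => by
          have : x + s • ((0, 1) : E3) = (x.1, x.2 + s) := by ext <;> simp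
          simp only [this]))
    have a3 := (fderiv ℝ P x).le_opNorm (0, 1)
    rw [a2] at a3
    refine a3.trans ?_
    simpa [Prod.norm_def] using hK2 x
  refine ⟨fun x => (P x + K) / (2 * K + 1), fun x => Pz x / (2 * K + 1),
    (P_cd.add contDiff_const).div_const _, fun w x => by simp only [P_per w x], fun x => ?_,
    fun x => ((P_has x).add_const _).div_const _, fun x => ?_, fun x => ?_⟩
  · have := abs_le.1 (hK1 x)
    exact ⟨div_nonneg (by linarith [this.1]) (by positivity),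
      (div_lt_one (by positivity)).2 (by linarith [this.2])⟩
  · have := abs_le.1 (Pz_bd x)
    rw [le_div_iff₀ (by positivity)]
    linarith [this.1]
  · by_cases h : ∃ j ∈ Finset.range (N ^ 2), 0 < lam j x.1 ∧
        0 ≤ e * Real.cos (κ * (x.2 - 10 * j - 5 / 2)) - 1
    · right
      obtain ⟨j, -, h2, h3⟩ := h
      obtain ⟨l, hl⟩ := near_of_cos (θ := κ * (x.2 - 10 * j - 5 / 2)) (η := κ / 2) (by linarith)
        (by nlinarith)
      have h4 : κ * (x.2 - 10 * j - 5 / 2) - l * (2 * Real.pi) =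
          κ * (x.2 - 10 * (j + (N : ℝ) ^ 2 * l) - 5 / 2) := by rw [← hκ1]; ring
      rw [h4, abs_mul, abs_of_pos hκ0] at hl
      have h5 : |x.2 - 10 * (j + (N : ℝ) ^ 2 * l) - 5 / 2| < 1 / 2 := by
        by_contra hn
        nlinarith [not_lt.1 hn]
      have h6 := abs_lt.1 h5
      rcases patch_cases (hc N j) (fun ζ => R.q (vv ζ)) x.1 with ⟨u, -, h8⟩ | ⟨-, h8⟩
      · have h9 : (x - cen N (j + N ^ 2 * l, u.1 + 0 - N * l, u.2 + 0 - l)).1 = x.1 - hc N j u := by
          simp only [cen, Prod.fst_sub]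
          rw [hc_shift hN]
          congr 1
          refine Complex.ext ?_ ?_ <;> simp
        have h10 : (x - cen N (j + N ^ 2 * l, u.1 + 0 - N * l, u.2 + 0 - l)).2 =
            x.2 - 10 * (j + (N : ℝ) ^ 2 * l) := by
          simp only [cen, Prod.snd_sub]
          push_cast
          ring
        have h11 : 0 < R.q (vv (x.1 - hc N j u)) := h8 ▸ h2
        refine ⟨(j + N ^ 2 * l, u.1 + 0 - N * l, u.2 + 0 - l), norm_lt_of (by norm_num) ?_ ?_,
          by rwa [h9], by rw [h10]; linarith, by rw [h10]; linarith⟩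
        · rw [h9]
          by_contra hn
          exact h11.ne' (R.q_out _ (by linarith [not_lt.1 hn]))
        · rw [h10]
          exact abs_lt.2 ⟨by linarith, by linarith⟩
      · exact absurd h8 h2.ne'
    · left
      refine div_neg_of_neg_of_pos ?_ (by positivity)
      obtain ⟨i, b1, u, b2⟩ := cover hN x.1 0
      rw [zero_add] at b2
      have b3 := vv_near (e := R.a / 10) (b2.trans h1) (by linarith)
      have b4 : lam i x.1 = 8 := by
        have := patch_eq (hc_sep N i) hvan (x := x.1) (i := u)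
          ((norm_lt_of_vv ((le_abs_self _).trans (by linarith))).trans (by norm_num))
        exact this.trans (R.q_in _ (by linarith))
      have b5 : ∀ j ∈ Finset.range (N ^ 2), 0 < lam j x.1 → lam j x.1 *
          ((e * Real.cos (κ * (x.2 - 10 * j - 5 / 2)) - 1) * κ /
            (e - Real.cos (κ * (x.2 - 10 * j - 5 / 2))) ^ 2) < 0 := fun j hj hp =>
        mul_neg_of_pos_of_neg hp (div_neg_of_neg_of_pos
          (mul_neg_of_neg_of_pos (not_le.1 fun h' => h ⟨j, hj, hp, h'⟩) hκ0)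
          (pow_pos (hden _) 2))
      refine Finset.sum_neg' (fun j hj => ?_) ⟨i, Finset.mem_range.2 b1,
        b5 i (Finset.mem_range.2 b1) (by rw [b4]; norm_num)⟩
      rcases (lam0 j x.1).lt_or_eq with h' | h'
      · exact (b5 j hj h').le
      · rw [← h', zero_mul]

end Pool.Agent.P.MP_ff4c85_gt
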