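import Mathlib

/-! Definition independent lemmas for the trajectory part and the derivative of the smooth step. -/

set_option autoImplicit false

open Set Filter Topology Real

namespace Pool.Agent.P.MP_ff4c85_gt

/-- locally constant in time gives constant -/
theorem const_of_loc {α : Type*} {f : ℝ → α} (h : ∀ t, ∀ᶠ s in 𝓝 t, f s = f t) (s t : ℝ) :
    f s = f t :=
  ((IsLocallyConstant.iff_eventually_eq f).2 h).apply_eq_of_preconnectedSpace s t

/-- zero derivative near a time gives a constant near that time -/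
theorem ev_const {f : ℝ → ℝ} {t : ℝ} (h : ∀ᶠ s in 𝓝 t, HasDerivAt f 0 s) :
    ∀ᶠ s in 𝓝 t, f s = f t := by
  obtain ⟨e, he, h1⟩ := Metric.eventually_nhds_iff_ball.1 h
  filter_upwards [Metric.ball_mem_nhds t he] with s hs
  exact Metric.isOpen_ball.is_const_of_deriv_eq_zero (convex_ball t e).isPreconnected
    (fun x hx => (h1 x hx).differentiableAt.differentiableWithinAt)
    (fun x hx => (h1 x hx).deriv) hs (Metric.mem_ball_self he)

/-- a continuous function avoiding an arithmetic progression -/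
theorem ap_barrier {f : ℝ → ℝ} (hf : Continuous f) {a P : ℝ} (hP : 0 < P)
    (h : ∀ t (n : ℤ), f t ≠ a + n * P) (s t : ℝ) : |f s - f t| ≤ P := by
  have h1 : ⌊(f s - a) / P⌋ = ⌊(f t - a) / P⌋ := by
    refine const_of_loc (f := fun t => ⌊(f t - a) / P⌋) (fun t => ?_) s t
    have hc : ContinuousAt (fun t => (f t - a) / P) t := by fun_prop
    have h2 : ((⌊(f t - a) / P⌋ : ℤ) : ℝ) < (f t - a) / P := by
      refine lt_of_le_of_ne (Int.floor_le _) fun h3 => h t ⌊(f t - a) / P⌋ ?_
      rw [h3]; field_simp; ring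
    filter_upwards [hc.eventually (lt_mem_nhds h2),
      hc.eventually (gt_mem_nhds (Int.lt_floor_add_one ((f t - a) / P)))] with s h3 h4
    exact Int.floor_eq_iff.2 ⟨h3.le, h4⟩
  have h2 := Int.abs_sub_lt_one_of_floor_eq_floor h1
  rw [← sub_div, abs_div, abs_of_pos hP, div_lt_one hP] at h2
  simpa using h2.le

/-- a positive function stays positive if `g - log k` is locally an integral where `k > 0` -/
theorem pos_stays {k : ℝ → ℝ} (hk : Continuous k)
    (h : ∀ t, k t = 0 → ∃ g : ℝ → ℝ, ContinuousAt g t ∧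
      ∀ᶠ s in 𝓝 t, 0 < k s → HasDerivAt (fun s => g s - log (k s)) 0 s)
    {t₀ : ℝ} (h0 : 0 < k t₀) (t : ℝ) : 0 < k t := by
  have hcl : IsClopen {t | 0 < k t} := by
    refine ⟨?_, isOpen_lt continuous_const hk⟩
    rw [← isOpen_compl_iff, isOpen_iff_mem_nhds]
    intro t ht
    rcases (not_lt.1 (show ¬ 0 < k t from ht)).eq_or_lt with h1 | h1
    swap
    · filter_upwards [hk.continuousAt.eventually (gt_mem_nhds h1)] with s hs using not_lt.2 hs.le
    obtain ⟨g, hg, h2⟩ := h t h1
    have h3 : ∀ᶠ s in 𝓝 t, |g s - g t| < 1 := by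
      simpa [Real.dist_eq] using Metric.tendsto_nhds.1 hg 1 one_pos
    obtain ⟨e, he, h4⟩ := Metric.eventually_nhds_iff_ball.1 (h2.and h3)
    filter_upwards [Metric.ball_mem_nhds t he] with s hs
    intro hs0
    -- the component of `s` in the positivity set inside the ball
    set U := Metric.ball t e ∩ {r | 0 < k r} with hU
    have hUo : IsOpen U := Metric.isOpen_ball.inter (isOpen_lt continuous_const hk)
    set m := exp (log (k s) - 2) with hm
    have hm0 : 0 < m := exp_pos _
    have hA : IsClopen (Subtype.val ⁻¹' {r | 0 < k r ∧ g r - log (k r) = g s - log (k s)} :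
        Set (Metric.ball t e)) := by
      constructor
      · rw [← isOpen_compl_iff, isOpen_iff_mem_nhds]
        intro r hr
        by_cases hr0 : 0 < k r
        · have h5 : ∀ᶠ x in 𝓝 (r : ℝ), g x - log (k x) = g r - log (k r) := by
            refine ev_const ?_
            filter_upwards [hUo.mem_nhds ⟨r.2, hr0⟩] with x hx using (h4 x hx.1).1 hx.2
          filter_upwards [continuous_subtype_val.continuousAt.eventually h5] with x hx hx'
          exact hr ⟨hr0, hx ▸ hx'.2⟩
        · have h5 : ∀ᶠ x in 𝓝 (r : ℝ), k x < m :=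
            hk.continuousAt.eventually (gt_mem_nhds ((not_lt.1 hr0).trans_lt hm0))
          filter_upwards [continuous_subtype_val.continuousAt.eventually h5] with x hx hx'
          have h6 := (log_lt_iff_lt_exp hx'.1).2 hx
          have h7 := abs_lt.1 (h4 x x.2).2
          have h8 := abs_lt.1 (h4 s hs).2
          linarith [hx'.2]
      · rw [isOpen_iff_mem_nhds]
        intro r hr
        have h5 : ∀ᶠ x in 𝓝 (r : ℝ), g x - log (k x) = g r - log (k r) := by
          refine ev_const ?_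
          filter_upwards [hUo.mem_nhds ⟨r.2, hr.1⟩] with x hx using (h4 x hx.1).1 hx.2
        filter_upwards [continuous_subtype_val.continuousAt.eventually h5,
          continuous_subtype_val.continuousAt.eventually (hUo.mem_nhds ⟨r.2, hr.1⟩)] with x hx hx'
        exact ⟨hx'.2, hx.trans hr.2⟩
    have : PreconnectedSpace (Metric.ball t e) :=
      Subtype.preconnectedSpace (convex_ball t e).isPreconnected
    have h9 := hA.eq_univ ⟨⟨s, hs⟩, hs0, rfl⟩
    have h10 : (⟨t, Metric.mem_ball_self he⟩ : Metric.ball t e) ∈ (Subtype.val ⁻¹'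
      {r | 0 < k r ∧ g r - log (k r) = g s - log (k s)} : Set (Metric.ball t e)) := by
      rw [h9]; trivial
    exact ht h10.1
  have := hcl.eq_univ ⟨t₀, h0⟩
  exact (this ▸ mem_univ t : t ∈ {t | 0 < k t})

theorem glue_deriv (x : ℝ) : HasDerivAt expNegInvGlue (x⁻¹ ^ 2 * expNegInvGlue x) x := by
  simpa using expNegInvGlue.hasDerivAt_polynomial_eval_inv_mul 1 x

theorem th_deriv (x : ℝ) : HasDerivAt smoothTransition
    (expNegInvGlue x * expNegInvGlue (1 - x) * (x⁻¹ ^ 2 + (1 - x)⁻¹ ^ 2) /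
      (expNegInvGlue x + expNegInvGlue (1 - x)) ^ 2) x := by
  have h1 := (glue_deriv (1 - x)).comp x ((hasDerivAt_id x).const_sub 1)
  have h2 := (glue_deriv x).div ((glue_deriv x).add h1) (smoothTransition.pos_denom x).ne'
  refine HasDerivAt.congr_deriv h2 ?_
  simp only [Pi.add_apply, Function.comp]
  ring

theorem th_deriv_nonneg (x : ℝ) : 0 ≤ deriv smoothTransition x :=
  smoothTransition.monotone.deriv_nonneg

theorem th_deriv_pos {x : ℝ} (h0 : 0 < x) (h1 : x < 1) : 0 < deriv smoothTransition x := by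
  rw [(th_deriv x).deriv]
  have h2 := expNegInvGlue.pos_of_pos h0
  have h3 := expNegInvGlue.pos_of_pos (sub_pos.2 h1)
  positivity

theorem th_deriv_zero {x : ℝ} (h : x ≤ 0 ∨ 1 ≤ x) : deriv smoothTransition x = 0 := by
  rw [(th_deriv x).deriv]
  rcases h with h | h
  · simp [expNegInvGlue.zero_of_nonpos h]
  · simp [expNegInvGlue.zero_of_nonpos (sub_nonpos.2 h)]

theorem glue_aux {x y : ℝ} (hx : 0 < x) (hxy : x + y = 1) :
    expNegInvGlue x * expNegInvGlue y * x⁻¹ ^ 2 ≤ 4 * (expNegInvGlue x + expNegInvGlue y) ^ 2 := by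
  have h2 := expNegInvGlue.nonneg x
  have h3 := expNegInvGlue.nonneg y
  rcases le_total (1 / 2) x with h | h
  · have h4 : x⁻¹ ≤ 2 := by rw [inv_le_comm₀ hx two_pos]; linarith
    have h5 : x⁻¹ ^ 2 ≤ 4 := by nlinarith [inv_pos.2 hx]
    nlinarith [mul_nonneg h2 h3, mul_le_mul_of_nonneg_left h5 (mul_nonneg h2 h3)]
  · have h4 : expNegInvGlue (1 / 2) ≤ expNegInvGlue y := expNegInvGlue.monotone (by linarith)
    have h5 : expNegInvGlue x * x⁻¹ ^ 2 ≤ 4 * expNegInvGlue (1 / 2) := by
      simp only [expNegInvGlue, if_neg (not_le.2 hx), if_neg (show ¬ (1 / 2 : ℝ) ≤ 0 by norm_num)]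
      have h6 := add_one_le_exp (x⁻¹ / 2 - 1)
      have h7 : exp (-(1 / 2 : ℝ)⁻¹) = exp (-x⁻¹) * exp (x⁻¹ / 2 - 1) ^ 2 := by
        rw [sq, ← exp_add, ← exp_add]; congr 1; ring
      have h8 : (x⁻¹ / 2) ^ 2 ≤ exp (x⁻¹ / 2 - 1) ^ 2 :=
        pow_le_pow_left₀ (by positivity) (by linarith) 2
      rw [h7]
      nlinarith [exp_pos (-x⁻¹)]
    nlinarith [mul_nonneg h2 h3, mul_le_mul_of_nonneg_left h5 h3,
      mul_le_mul_of_nonneg_left h4 h3]

theorem th_deriv_le (x : ℝ) : deriv smoothTransition x ≤ 8 := by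
  by_cases h : x ≤ 0 ∨ 1 ≤ x
  · rw [th_deriv_zero h]; norm_num
  rw [not_or, not_le, not_le] at h
  rw [(th_deriv x).deriv, div_le_iff₀ (pow_pos (smoothTransition.pos_denom x) 2)]
  have h1 := glue_aux (x := x) (y := 1 - x) h.1 (by ring)
  have h2 := glue_aux (x := 1 - x) (y := x) (sub_pos.2 h.2) (by ring)
  nlinarith

end Pool.Agent.P.MP_ff4c85_gt
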