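import Pool.Agent.P.MP_ff4c85_gt.Flow

/-! The index computation in the plane. -/

set_option autoImplicit false

open Set Filter Topology Complex

namespace Pool.Agent.P.MP_ff4c85_gt

theorem log_star {X : Type*} [NormedAddCommGroup X] [NormedSpace ℝ X] {S : Set X} {c : X}
    (hS : StarConvex ℝ c S) (hc : c ∈ S) {f : X → ℂ} (hf : ContinuousOn f S)
    (h0 : ∀ x ∈ S, f x ≠ 0) : ∃ g : X → ℂ, ContinuousOn g S ∧ ∀ x ∈ S, exp (g x) = f x := by
  classical
  have hm : ∀ p : unitInterval × S, (1 - (p.1 : ℝ)) • c + (p.1 : ℝ) • (p.2 : X) ∈ S := fun p =>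
    hS p.2.2 (sub_nonneg.2 p.1.2.2) p.1.2.1 (sub_add_cancel _ _)
  let H : C(unitInterval × S, {z : ℂ // z ≠ 0}) :=
    ⟨fun p => ⟨f ((1 - (p.1 : ℝ)) • c + (p.1 : ℝ) • (p.2 : X)), h0 _ (hm p)⟩,
      Continuous.subtype_mk (hf.comp_continuous (by fun_prop) hm) _⟩
  have H0 : ∀ a : S, H (0, a) = (fun z : ℂ => (⟨_, z.exp_ne_zero⟩ : {z : ℂ // z ≠ 0}))
      (ContinuousMap.const S (log (f c)) a) := fun a => Subtype.ext (by
    simp [H, exp_log (h0 c hc)])
  let G := isCoveringMap_exp.liftHomotopy H (ContinuousMap.const S (log (f c))) H0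
  refine ⟨fun x => if h : x ∈ S then G (1, ⟨x, h⟩) else 0, ?_, fun x hx => ?_⟩
  · rw [continuousOn_iff_continuous_restrict]
    refine (G.continuous.comp (Continuous.prodMk_right 1)).congr fun x => ?_
    simp [x.2]
  · have h1 := congrArg Subtype.val (congrFun
      (isCoveringMap_exp.liftHomotopy_lifts H (ContinuousMap.const S (log (f c))) H0) (1, ⟨x, hx⟩))
    simp only [hx, dif_pos]
    refine h1.trans ?_
    simp [H]

theorem log_const {X : Type*} [TopologicalSpace X] {s : Set X} (hs : IsPreconnected s)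
    {g : X → ℂ} (hg : ContinuousOn g s) {w : ℂ} (he : ∀ x ∈ s, exp (g x) = w) {x y : X}
    (hx : x ∈ s) (hy : y ∈ s) : g x = g y :=
  isCoveringMap_exp.constOn_of_comp hs hg
    (fun a ha a' ha' => Subtype.ext ((he a ha).trans (he a' ha').symm)) hx hy

/-- the Alexander isotopy -/
noncomputable def alex (T : ℂ → ℂ) (u : ℝ) (p : ℂ) : ℂ := p + u * (T (p / u) - p / u)

theorem alex_zero (T : ℂ → ℂ) (p : ℂ) : alex T 0 p = p := by simp [alex]

theorem alex_one (T : ℂ → ℂ) (p : ℂ) : alex T 1 p = T p := by simp [alex]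

theorem alex_inj {T : ℂ → ℂ} (hT : Function.Injective T) (u : ℝ) :
    Function.Injective (alex T u) := by
  intro p q h
  by_cases hu : u = 0
  · simpa [hu, alex_zero] using h
  · have hu' : (u : ℂ) ≠ 0 := ofReal_ne_zero.2 hu
    have e : ∀ p, alex T u p = u * T (p / u) := fun p => by
      rw [alex]; field_simp; ring
    rw [e, e] at h
    exact (div_left_inj' hu').1 (hT (mul_left_cancel₀ hu' h))

theorem alex_cont {T : ℂ → ℂ} (hT : Continuous T) {B : ℝ} (hB : ∀ p, ‖T p - p‖ ≤ B) :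
    Continuous fun q : ℝ × ℂ => alex T q.1 q.2 := by
  refine continuous_snd.add (continuous_iff_continuousAt.2 fun q => ?_)
  by_cases hu : q.1 = 0
  · have h1 : Tendsto (fun q : ℝ × ℂ => ‖q.1‖ * B) (𝓝 q) (𝓝 0) := by
      have : Continuous fun q : ℝ × ℂ => ‖q.1‖ * B := by fun_prop
      simpa [hu] using this.tendsto q
    rw [ContinuousAt, hu, ofReal_zero, zero_mul]
    refine squeeze_zero_norm (fun q => ?_) h1
    rw [norm_mul, norm_real]
    exact mul_le_mul_of_nonneg_left (hB _) (norm_nonneg _)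
  · have h1 : ContinuousAt (fun q : ℝ × ℂ => q.2 / (q.1 : ℂ)) q :=
      continuousAt_snd.div (by fun_prop) (ofReal_ne_zero.2 hu)
    exact ContinuousAt.mul (by fun_prop) ((hT.continuousAt.comp h1).sub h1)

theorem no_loop {T : ℂ → ℂ} (hT : Continuous T) (hi : Function.Injective T) {B : ℝ}
    (hB : ∀ p, ‖T p - p‖ ≤ B) (hfix : ∀ p, T p ≠ p) {β : ℝ → ℂ} (hβ : Continuous β)
    (hs : ∀ t, β (t + 1) = T (β t)) {a b : ℝ} (ha0 : 0 ≤ a) (ha1 : a < 1) (hb : 2 ≤ b)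
    (hab : β a = β b) (hz : ∀ s t, 0 ≤ s → s < t → t ≤ b → β s = β t → s = a ∧ t = b) :
    False := by
  obtain ⟨θ, θc, θe⟩ := log_star (S := univ) (c := (0 : ℂ)) (starConvex_univ _) trivial
    (f := fun p => T p - p) (hT.sub continuous_id).continuousOn fun p _ => sub_ne_zero.2 (hfix p)
  have θc' : Continuous θ := continuousOn_univ.1 θc
  let S : Set (ℝ × ℝ × ℝ) := {q | (0 ≤ q.1 ∧ q.1 ≤ 1) ∧ 0 ≤ q.2.1 ∧ q.2.1 < q.2.2 ∧ q.2.2 ≤ b ∧
    ¬ (q.2.1 = a ∧ q.2.2 = b)}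
  have hS : StarConvex ℝ ((0, 0, 1) : ℝ × ℝ × ℝ) S := by
    rintro ⟨u, s, t⟩ ⟨⟨h1, h2⟩, h3, h4, h5, h6⟩ x y hx hy hxy
    simp only [S, Prod.smul_mk, smul_eq_mul, Prod.mk_add_mk, mul_zero, zero_add, mul_one,
      mem_setOf_eq] at *
    obtain rfl : x = 1 - y := by linarith
    refine ⟨⟨by positivity, by nlinarith⟩, by positivity, ?_, by nlinarith, fun h => ?_⟩
    · rcases hy.eq_or_lt with rfl | hy
      · simp
      · nlinarith
    · have h7 : y = 1 := by nlinarith [h.2]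
      rw [h7] at h
      exact h6 ⟨by linarith [h.1], by linarith [h.2]⟩
  have hA := alex_cont hT hB
  obtain ⟨G, Gc, Ge⟩ := log_star hS (by simp [S]; constructor <;> [linarith; (intro; linarith)])
    (f := fun q => alex T q.1 (β q.2.2) - alex T q.1 (β q.2.1))
    ((hA.comp (f := fun q : ℝ × ℝ × ℝ => (q.1, β q.2.2)) (by fun_prop)).sub
      (hA.comp (f := fun q : ℝ × ℝ × ℝ => (q.1, β q.2.1)) (by fun_prop))).continuousOn
    fun q hq h => hq.2.2.2.2 (hz _ _ hq.2.1 hq.2.2.1 hq.2.2.2.1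
      (alex_inj hi _ (sub_eq_zero.1 h)).symm)
  have nz : ∀ q ∈ S, alex T q.1 (β q.2.2) - alex T q.1 (β q.2.1) ≠ 0 := fun q hq => by
    rw [← Ge q hq]; exact exp_ne_zero _
  -- the half turn
  have mk1 : ∀ q ∈ Icc (0 : ℝ) 1 ×ˢ Ioo a b, (q.1, q.2, b) ∈ S := fun q hq =>
    ⟨hq.1, ha0.trans hq.2.1.le, hq.2.2, le_rfl, fun h => hq.2.1.ne' h.1⟩
  have mk2 : ∀ q ∈ Icc (0 : ℝ) 1 ×ˢ Ioo a b, (q.1, a, q.2) ∈ S := fun q hq =>
    ⟨hq.1, ha0, hq.2.1, hq.2.2.le, fun h => hq.2.2.ne h.2⟩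
  have ek : ∀ q ∈ Icc (0 : ℝ) 1 ×ˢ Ioo a b, exp (G (q.1, q.2, b) - G (q.1, a, q.2)) = -1 := by
    intro q hq
    have := nz _ (mk2 q hq)
    rw [exp_sub, Ge _ (mk1 q hq), Ge _ (mk2 q hq), div_eq_iff this]
    simp only [hab]
    ring
  have hk := log_const (isPreconnected_Icc.prod isPreconnected_Ioo)
    (g := fun q : ℝ × ℝ => G (q.1, q.2, b) - G (q.1, a, q.2))
    ((Gc.comp (by fun_prop) mk1).sub (Gc.comp (by fun_prop) mk2)) ek
    (x := (0, a + 1)) (y := (1, b - 1)) ⟨⟨le_rfl, zero_le_one⟩, by linarith, by linarith⟩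
    ⟨⟨zero_le_one, le_rfl⟩, by linarith, by linarith⟩
  have hk1 := ek (0, a + 1) ⟨⟨le_rfl, zero_le_one⟩, by linarith, by linarith⟩
  -- the overlap
  let O : Set (ℝ × ℝ) := {q | 1 ≤ q.1 ∧ q.1 < q.2 ∧ q.2 ≤ b}
  have hO : Convex ℝ O := by
    rintro ⟨s, t⟩ ⟨h1, h2, h3⟩ ⟨s', t'⟩ ⟨h4, h5, h6⟩ x y hx hy hxy
    simp only [O, Prod.smul_mk, smul_eq_mul, Prod.mk_add_mk, mem_setOf_eq] at *
    obtain rfl : x = 1 - y := by linarith
    refine ⟨by nlinarith, ?_, by nlinarith⟩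
    rcases hy.eq_or_lt with rfl | hy
    · simpa using h2
    · nlinarith
  have mo1 : ∀ q ∈ O, ((0 : ℝ), q.1, q.2) ∈ S := fun q hq =>
    ⟨⟨le_rfl, zero_le_one⟩, zero_le_one.trans hq.1, hq.2.1, hq.2.2,
      fun h => by have h1 : q.1 = a := h.1; linarith [hq.1]⟩
  have mo2 : ∀ q ∈ O, ((1 : ℝ), q.1 - 1, q.2 - 1) ∈ S := fun q hq =>
    ⟨⟨zero_le_one, le_rfl⟩, sub_nonneg.2 hq.1, sub_lt_sub_right hq.2.1 1,
      by have : q.2 ≤ b := hq.2.2; change q.2 - 1 ≤ b; linarith,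
      fun h => by have : q.2 ≤ b := hq.2.2; have h2 : q.2 - 1 = b := h.2; linarith⟩
  have ho := log_const hO.isPreconnected
    (g := fun q : ℝ × ℝ => G (0, q.1, q.2) - G (1, q.1 - 1, q.2 - 1))
    ((Gc.comp (by fun_prop) mo1).sub (Gc.comp (by fun_prop) mo2)) (w := 1) (fun q hq => by
      have := nz _ (mo2 q hq)
      rw [exp_sub, Ge _ (mo1 q hq), Ge _ (mo2 q hq), div_eq_iff this]
      simp only [alex_zero, alex_one, ← hs, sub_add_cancel, one_mul])
    (x := (1, 2)) (y := (a + 1, b))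
    ⟨le_rfl, one_lt_two, hb⟩ ⟨by change 1 ≤ a + 1; linarith, by change a + 1 < b; linarith, le_rfl⟩
  -- the two pieces of the curve
  have ml : ∀ u ∈ Icc (0 : ℝ) 1, ∀ t ∈ Icc 0 (b - 1), (u, t, t + 1) ∈ S := fun u hu t ht =>
    ⟨hu, ht.1, lt_add_one t, by change t + 1 ≤ b; linarith [ht.2],
      fun h => by have h1 : t = a := h.1; have h2 : t + 1 = b := h.2; linarith⟩
  have h1 := log_const isPreconnected_Icc (g := fun t => θ (β t) - G (0, t, t + 1))
    ((θc'.comp hβ).continuousOn.sub (Gc.comp (by fun_prop) (ml 0 ⟨le_rfl, zero_le_one⟩)))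
    (w := 1) (fun t ht => by
      have := nz _ (ml 0 ⟨le_rfl, zero_le_one⟩ t ht)
      rw [exp_sub, θe _ trivial, Ge _ (ml 0 ⟨le_rfl, zero_le_one⟩ t ht), div_eq_iff this]
      simp only [alex_zero, hs, one_mul])
    (x := a) (y := 1) ⟨ha0, by linarith⟩ ⟨zero_le_one, by linarith⟩
  have h2 := log_const isPreconnected_Icc (g := fun t => θ (β (t + 1)) - G (1, t, t + 1))
    ((θc'.comp (hβ.comp (continuous_add_right 1))).continuousOn.sub
      (Gc.comp (by fun_prop) (ml 1 ⟨zero_le_one, le_rfl⟩)))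
    (w := 1) (fun t ht => by
      have := nz _ (ml 1 ⟨zero_le_one, le_rfl⟩ t ht)
      rw [exp_sub, θe _ trivial, Ge _ (ml 1 ⟨zero_le_one, le_rfl⟩ t ht), div_eq_iff this]
      simp only [alex_one, hs, one_mul])
    (x := 0) (y := b - 1) ⟨le_rfl, by linarith⟩ ⟨by linarith, le_rfl⟩
  simp only [zero_add, sub_add_cancel, add_sub_cancel_right, sub_self, one_add_one_eq_two,
    show (2 : ℝ) - 1 = 1 by norm_num, ← hab] at hk ho h1 h2 hk1
  have h3 : G (0, a + 1, b) - G (0, a, a + 1) = 0 := by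
    linear_combination (hk - ho + h1 + h2) / 2
  rw [h3, exp_zero] at hk1
  norm_num at hk1

end Pool.Agent.P.MP_ff4c85_gt
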