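import Pool.Agent.P.MP_ff4c85_gt.TwoA

/-! A homeomorphism of the plane with bounded displacement and a bounded orbit has a fixed point. -/

set_option autoImplicit false

open Set Filter Topology Metric

namespace Pool.Agent.P.MP_ff4c85_gt

theorem exists_disc (T : ℂ ≃ₜ ℂ) (hfix : ∀ p, T p ≠ p) (x : ℂ) :
    ∃ r z, 0 < r ∧ dist z x = r ∧ dist (T z) x = r ∧
      ∀ p ∈ ball x r, T p ∉ closedBall x r := by
  obtain ⟨z, -, hz⟩ := (isCompact_closedBall x (dist (T x) x)).exists_isMinOn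
    ⟨x, mem_closedBall_self dist_nonneg⟩ (f := fun p => max (dist p x) (dist (T p) x))
    (Continuous.continuousOn (by fun_prop))
  have h0 : max (dist z x) (dist (T z) x) ≤ dist (T x) x := by
    have : max (dist z x) (dist (T z) x) ≤ max (dist x x) (dist (T x) x) :=
      hz (mem_closedBall_self dist_nonneg)
    rwa [dist_self, max_eq_right dist_nonneg] at this
  have h1 : ∀ p, max (dist z x) (dist (T z) x) ≤ max (dist p x) (dist (T p) x) := fun p => by
    by_cases hp : p ∈ closedBall x (dist (T x) x)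
    · exact hz hp
    · exact h0.trans ((not_le.1 hp).le.trans (le_max_left _ _))
  set r := max (dist z x) (dist (T z) x) with hr
  have hr0 : 0 < r := by
    by_contra hn
    have h2 : dist z x ≤ 0 := (le_max_left _ _).trans (not_lt.1 hn)
    have h3 : dist (T z) x ≤ 0 := (le_max_right _ _).trans (not_lt.1 hn)
    exact hfix z ((dist_le_zero.1 h3).trans (dist_le_zero.1 h2).symm)
  have h2 : ∀ p ∈ ball x r, T p ∉ ball x r := fun p hp hq =>
    absurd (h1 p) (not_le.2 (max_lt hp hq))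
  have h3 : ∀ p ∈ ball x r, T p ∉ closedBall x r := by
    intro p hp hq
    rw [← closure_ball x hr0.ne'] at hq
    obtain ⟨_, ⟨q, h4, rfl⟩, h5⟩ := mem_closure_iff.1 hq _ (T.isOpenMap _ isOpen_ball) ⟨p, hp, rfl⟩
    exact h2 q h4 h5
  have h4 : ∀ p ∈ closedBall x r, T p ∉ ball x r := by
    intro p hp hq
    rw [← closure_ball x hr0.ne'] at hp
    obtain ⟨q, h4, h5⟩ := mem_closure_iff.1 hp _ (isOpen_ball.preimage T.continuous) hq
    exact h2 q h5 h4
  exact ⟨r, z, hr0, le_antisymm (le_max_left _ _)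
    (not_lt.1 fun h => h3 z h (mem_closedBall.2 (le_max_right _ _))),
    le_antisymm (le_max_right _ _)
      (not_lt.1 fun h => h4 z (mem_closedBall.2 (le_max_left _ _)) h), h3⟩

theorem exists_arc {x z w : ℂ} {r : ℝ} (hr : 0 < r) (hz : dist z x = r) (hw : dist w x = r)
    (hzw : w ≠ z) : ∃ α : ℝ → ℂ, Continuous α ∧ α 0 = z ∧ α (1 / 2) = x ∧ α 1 = w ∧
      (∀ t, dist (α t) x = |1 - 2 * t| * r) ∧ Function.Injective α := by
  rw [dist_eq_norm] at hz hw
  let α : ℝ → ℂ := fun t => x + (max (1 - 2 * t) 0 • (z - x) + max (2 * t - 1) 0 • (w - x))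
  have e1 : ∀ t, 2 * t ≤ 1 → α t = x + (1 - 2 * t) • (z - x) := fun t ht => by
    simp only [α]
    rw [max_eq_left (by linarith), max_eq_right (by linarith), zero_smul, add_zero]
  have e2 : ∀ t, 1 ≤ 2 * t → α t = x + (2 * t - 1) • (w - x) := fun t ht => by
    simp only [α]
    rw [max_eq_right (by linarith), max_eq_left (by linarith), zero_smul, zero_add]
  have hd : ∀ t, dist (α t) x = |1 - 2 * t| * r := fun t => by
    rcases le_total (2 * t) 1 with ht | ht
    · rw [e1 t ht, dist_self_add_left, norm_smul, hz, Real.norm_eq_abs]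
    · rw [e2 t ht, dist_self_add_left, norm_smul, hw, Real.norm_eq_abs, abs_sub_comm]
  have key : ∀ s t, s < t → α s ≠ α t := by
    intro s t hst h
    have h1 : |1 - 2 * s| = |1 - 2 * t| := mul_right_cancel₀ hr.ne' (by rw [← hd, ← hd, h])
    rcases abs_eq_abs.1 h1 with h2 | h2
    · linarith
    · rw [e1 s (by linarith), e2 t (by linarith), show 2 * t - 1 = 1 - 2 * s by linarith,
        add_right_inj] at h
      have h3 := smul_right_injective ℂ (show (1 - 2 * s : ℝ) ≠ 0 by intro h; linarith) h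
      exact hzw (sub_left_inj.1 h3).symm
  refine ⟨α, by fun_prop, by rw [e1 0 (by norm_num)]; simp, by rw [e1 _ (by norm_num)]; simp,
    by rw [e2 1 (by norm_num)]; norm_num, hd, fun s t h => ?_⟩
  by_contra hne
  rcases lt_or_gt_of_ne hne with h1 | h1
  · exact key s t h1 h
  · exact key t s h1 h.symm

theorem exists_curve (T : ℂ ≃ₜ ℂ) {α : ℝ → ℂ} (hα : Continuous α) (h01 : α 1 = T (α 0)) :
    ∃ β : ℝ → ℂ, Continuous β ∧ (∀ t, β (t + 1) = T (β t)) ∧ ∀ t ∈ Icc (0 : ℝ) 1, β t = α t := by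
  let β : ℝ → ℂ := fun t => (T ^ ⌊t⌋) (α (Int.fract t))
  have e : ∀ (k : ℤ) (p : ℂ), (T ^ (k + 1)) p = (T ^ k) (T p) := fun k p => by
    rw [zpow_add_one]; rfl
  have e' : ∀ (k : ℤ) (p : ℂ), (T ^ (k + 1)) p = T ((T ^ k) p) := fun k p => by
    rw [add_comm, zpow_one_add]; rfl
  have F : ∀ (k : ℤ), ∀ s ∈ Icc (k : ℝ) (k + 1), β s = (T ^ k) (α (s - k)) := by
    intro k s hs
    rcases hs.2.eq_or_lt with h | h
    · have h1 : s = ((k + 1 : ℤ) : ℝ) := by push_cast; exact h
      simp only [β]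
      rw [h1, Int.floor_intCast, Int.fract_intCast, e, ← h01]
      congr 2
      push_cast; ring
    · have h1 : ⌊s⌋ = k := Int.floor_eq_iff.2 ⟨hs.1, h⟩
      simp only [β, Int.fract, h1]
  have C : ∀ k : ℤ, Continuous fun s : ℝ => (T ^ k) (α (s - k)) := fun k => by fun_prop
  refine ⟨β, continuous_iff_continuousAt.2 fun t => continuousAt_iff_continuous_left_right.2
    ⟨?_, ?_⟩, fun t => ?_, fun t ht => ?_⟩
  · have ht : t ∈ Ioc ((⌈t⌉ - 1 : ℤ) : ℝ) ((⌈t⌉ - 1 : ℤ) + 1) := by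
      push_cast
      exact ⟨by linarith [Int.ceil_lt_add_one t], by linarith [Int.le_ceil t]⟩
    refine (C (⌈t⌉ - 1)).continuousWithinAt.congr_of_eventuallyEq ?_
      (F _ t (Ioc_subset_Icc_self ht))
    filter_upwards [Icc_mem_nhdsLE_of_mem ht] with s hs using F _ s hs
  · have ht : t ∈ Ico (⌊t⌋ : ℝ) (⌊t⌋ + 1) := ⟨Int.floor_le t, Int.lt_floor_add_one t⟩
    refine (C ⌊t⌋).continuousWithinAt.congr_of_eventuallyEq ?_ (F _ t (Ico_subset_Icc_self ht))
    filter_upwards [Icc_mem_nhdsGE_of_mem ht] with s hs using F _ s hs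
  · simp only [β, Int.floor_add_one, Int.fract_add_one, e']
  · simpa using F 0 t (by simpa using ht)

theorem no_periodic (T : ℂ ≃ₜ ℂ) {B : ℝ} (hB : ∀ p, ‖T p - p‖ ≤ B) (hfix : ∀ p, T p ≠ p)
    {x : ℂ} {n : ℕ} (hn : 0 < n) (hx : T^[n] x = x) : False := by
  obtain ⟨r, z, hr, hz, hw, hfree⟩ := exists_disc T hfix x
  obtain ⟨α, αc, α0, αh, α1, αd, αi⟩ := exists_arc hr hz hw (hfix z)
  obtain ⟨β, βc, βs, βα⟩ := exists_curve T αc (by rw [α0, α1])
  have it : ∀ (k : ℕ) t, β (t + k) = T^[k] (β t) := by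
    intro k t
    induction k with
    | zero => simp
    | succ k ih => rw [Function.iterate_succ_apply', ← ih, ← βs, Nat.cast_succ, add_assoc]
  have z1 : ∀ s t, 0 ≤ s → s < 1 → s < t → β s = β t → 2 ≤ t := by
    intro s t h0 h1 hst h
    by_contra h2
    rcases le_or_gt t 1 with h3 | h3
    · rw [βα s ⟨h0, h1.le⟩, βα t ⟨by linarith, h3⟩] at h
      exact hst.ne (αi h)
    · have h4 : β t = T (α (t - 1)) := by
        rw [← βα (t - 1) ⟨by linarith, by linarith⟩, ← βs, sub_add_cancel]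
      refine hfree (α (t - 1)) ?_ ?_
      · rw [mem_ball, αd]
        exact mul_lt_of_lt_one_left hr (abs_lt.2 ⟨by linarith, by linarith⟩)
      · rw [← h4, ← h, βα s ⟨h0, h1.le⟩, mem_closedBall, αd]
        exact mul_le_of_le_one_left hr.le (abs_le.2 ⟨by linarith, by linarith⟩)
  have hn' : (0 : ℝ) < n := by exact_mod_cast hn
  have hp : β (1 / 2) = β (1 / 2 + n) := by
    rw [it, βα _ ⟨by norm_num, by norm_num⟩, αh, hx]
  have hc : IsCompact ((Icc (0 : ℝ) 1 ×ˢ Icc (2 : ℝ) (n + 1)) ∩ {q | β q.1 = β q.2}) :=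
    (isCompact_Icc.prod isCompact_Icc).inter_right (isClosed_eq (by fun_prop) (by fun_prop))
  obtain ⟨⟨a, b⟩, ⟨⟨ha, hb⟩, hab⟩, hmin⟩ := hc.exists_isMinOn
    ⟨(1 / 2, 1 / 2 + n), ⟨⟨by norm_num, by norm_num⟩, z1 _ _ (by norm_num) (by norm_num)
      (by linarith) hp, by change 1 / 2 + (n : ℝ) ≤ n + 1; linarith⟩, hp⟩ continuous_snd.continuousOn
  have hab' : β a = β b := hab
  have hb2 : 2 ≤ b := hb.1
  have hb3 : b ≤ n + 1 := hb.2
  have z2 : ∀ s t, 0 ≤ s → s < t → t ≤ b → β s = β t → s < 1 ∧ t = b := by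
    intro s t h0 hst htb h
    have k1 := Nat.floor_le h0
    have k2 := Nat.lt_floor_add_one s
    have k3 : β (s - ⌊s⌋₊) = β (t - ⌊s⌋₊) := by
      refine (T.injective.iterate ⌊s⌋₊) ?_
      rw [← it, ← it, sub_add_cancel, sub_add_cancel, h]
    have k4 := z1 _ _ (by linarith) (by linarith) (by linarith) k3
    have k0 : (0 : ℝ) ≤ ⌊s⌋₊ := Nat.cast_nonneg _
    have k5 : b ≤ t - ⌊s⌋₊ := hmin (a := (s - ⌊s⌋₊, t - ⌊s⌋₊))
      ⟨⟨⟨by linarith, by linarith⟩, k4, by change t - ⌊s⌋₊ ≤ n + 1; linarith⟩, k3⟩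
    exact ⟨by linarith, by linarith⟩
  have ha1 := (z2 a b ha.1 (by linarith [ha.2]) le_rfl hab').1
  refine no_loop T.continuous T.injective hB hfix βc βs ha.1 ha1 hb2 hab' fun s t h0 hst htb h => ?_
  obtain ⟨h1, rfl⟩ := z2 s t h0 hst htb h
  refine ⟨?_, rfl⟩
  by_contra hne
  rcases lt_or_gt_of_ne hne with h2 | h2
  · linarith [z1 s a h0 h1 h2 (h.trans hab'.symm)]
  · linarith [z1 a s ha.1 ha1 h2 (hab'.trans h.symm)]

/-- a homeomorphism supported in a disc that moves one point of the disc to another one -/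
theorem exists_push {y x x' : ℂ} {r : ℝ} (hx : x ∈ ball y r) (hx' : x' ∈ ball y r) :
    ∃ (h : ℂ ≃ₜ ℂ) (C : ℝ), h x' = x ∧ (∀ p, p ∉ ball y r → h p = p) ∧ ∀ p, ‖h p - p‖ ≤ C := by
  set m := max (dist x y) (dist x' y) with hm
  have he : 0 < r - m := sub_pos.2 (max_lt hx hx')
  let c : ℂ → ℝ := fun p => min (r - m) (max 0 (r - dist p y))
  have hc : LipschitzWith 1 c := by
    have h1 : LipschitzWith 1 fun p : ℂ => r - dist p y :=
      LipschitzWith.of_dist_le_mul fun p q => by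
        rw [dist_sub_left, NNReal.coe_one, one_mul]
        exact dist_dist_dist_le_left p q y
    exact (h1.const_max 0).const_min _
  let v : ℂ := (r - m)⁻¹ • (x - x')
  have hK : LipschitzWith ‖v‖₊ fun p => c p • v := LipschitzWith.of_dist_le_mul fun p q => by
    rw [dist_eq_norm, ← sub_smul, norm_smul, mul_comm, coe_nnnorm]
    exact mul_le_mul_of_nonneg_left (by simpa [dist_eq_norm] using hc.dist_le_mul p q)
      (norm_nonneg _)
  have hC : ∀ p, ‖c p • v‖ ≤ (r - m) * ‖v‖ := fun p => by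
    rw [norm_smul, Real.norm_eq_abs, abs_of_nonneg (le_min he.le (le_max_left _ _))]
    exact mul_le_mul_of_nonneg_right (min_le_left _ _) (norm_nonneg _)
  obtain ⟨φ, hφ⟩ := exists_isFlow hK hC
  refine ⟨hφ.homeo hK 1, (r - m) * ‖v‖ * 1, ?_, fun p hp => ?_, fun p => ?_⟩
  · have d : ∀ t ∈ Icc (0 : ℝ) 1, HasDerivAt (fun t : ℝ => x' + t • (x - x'))
        (c (x' + t • (x - x')) • v) t := by
      intro t ht
      have h1 : x' + t • (x - x') ∈ closedBall y m :=
        (convex_closedBall y m).add_smul_sub_mem (mem_closedBall.2 (le_max_right _ _))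
          (mem_closedBall.2 (le_max_left _ _)) ht
      have h2 : c (x' + t • (x - x')) = r - m :=
        min_eq_left (le_max_of_le_right (by linarith [mem_closedBall.1 h1]))
      rw [h2, smul_inv_smul₀ he.ne']
      simpa using ((hasDerivAt_id' t).smul_const (x - x')).const_add x'
    have := ODE_solution_unique (v := fun _ p => c p • v) (a := 0) (b := 1) (fun _ => hK)
      (hφ.cont_time x').continuousOn (fun t _ => (hφ.deriv x' t).hasDerivWithinAt)
      (fun t ht => (d t ht).continuousAt.continuousWithinAt)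
      (fun t ht => (d t (Ico_subset_Icc_self ht)).hasDerivWithinAt) (by simp [hφ.zero])
      (right_mem_Icc.2 zero_le_one)
    change φ 1 x' = x
    simpa using this
  · have h1 : c p = 0 := by
      have : r - dist p y ≤ 0 := sub_nonpos.2 (not_lt.1 hp)
      simp only [c, max_eq_left this, min_eq_right he.le]
    exact (hφ.eq_sol hK (f := fun _ => p) (fun t => by
      rw [h1, zero_smul]; exact hasDerivAt_const _ _) 1).symm
  · have := hφ.move_le (x := p) (t := 1) (fun s _ => hC _) (left_mem_Icc.2 zero_le_one)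
      (right_mem_Icc.2 zero_le_one)
    rwa [hφ.zero] at this

theorem plane_fix (T : ℂ ≃ₜ ℂ) {B : ℝ} (hB : ∀ p, ‖T p - p‖ ≤ B) {x0 : ℂ}
    (hx0 : Bornology.IsBounded (range fun k : ℕ => T^[k] x0)) : ∃ p, T p = p := by
  classical
  by_contra hn
  have hfix : ∀ p, T p ≠ p := fun p hp => hn ⟨p, hp⟩
  obtain ⟨y, -, u, hu, hy⟩ := tendsto_subseq_of_bounded hx0 fun k => mem_range_self k
  obtain ⟨r, -, hr, -, -, hfree⟩ := exists_disc T hfix y
  obtain ⟨i, hi⟩ := eventually_atTop.1 (hy.eventually (ball_mem_nhds y hr))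
  have hx : T^[u i] x0 ∈ ball y r := hi i le_rfl
  have hex : ∃ n, 0 < n ∧ T^[n] (T^[u i] x0) ∈ ball y r := by
    have h1 := hu (Nat.lt_succ_self i)
    refine ⟨u (i + 1) - u i, Nat.sub_pos_of_lt h1, ?_⟩
    rw [← Function.iterate_add_apply, Nat.sub_add_cancel h1.le]
    exact hi _ (Nat.le_succ i)
  generalize T^[u i] x0 = x at hx hex
  obtain ⟨hn0, hx'⟩ := Nat.find_spec hex
  obtain ⟨h, C, h1, h2, h3⟩ := exists_push hx hx'
  have it : ∀ k, k < Nat.find hex → (T.trans h)^[k] x = T^[k] x := by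
    intro k hk
    induction k with
    | zero => rfl
    | succ k ih =>
      rw [Function.iterate_succ_apply', ih (Nat.lt_of_succ_lt hk), Homeomorph.trans_apply,
        ← Function.iterate_succ_apply' T]
      exact h2 _ fun hb => Nat.find_min hex hk ⟨Nat.succ_pos k, hb⟩
  refine no_periodic (T.trans h) (B := C + B) (fun p => ?_) (fun p hp => ?_) (x := x) hn0 ?_
  · rw [Homeomorph.trans_apply, ← sub_add_sub_cancel _ (T p)]
    exact (norm_add_le _ _).trans (add_le_add (h3 _) (hB _))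
  · rw [Homeomorph.trans_apply] at hp
    by_cases hb : p ∈ ball y r
    · exact hfix p ((h2 _ fun hq => hfree p hb (ball_subset_closedBall hq)).symm.trans hp)
    · exact hfix p (h.injective (hp.trans (h2 p hb).symm))
  · obtain ⟨k, hk⟩ := Nat.exists_eq_succ_of_ne_zero hn0.ne'
    rw [hk] at h1 ⊢
    rw [Function.iterate_succ_apply', it k (by omega), Homeomorph.trans_apply,
      ← Function.iterate_succ_apply' T, h1]

/-- uniformly bounded homeomorphisms have fixed points in dimension at most two -/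
theorem fix_of_le_two {n : ℕ} (hn : n ≤ 2)
    (T : EuclideanSpace ℝ (Fin n) ≃ₜ EuclideanSpace ℝ (Fin n)) {B : ℝ}
    (hB : ∀ x (j k : ℕ), dist ((⇑T)^[j] x) ((⇑T)^[k] x) < B) : ∃ x, T x = x := by
  let L : (EuclideanSpace ℝ (Fin n) × (Fin (2 - n) → ℝ)) ≃L[ℝ] ℂ :=
    ContinuousLinearEquiv.ofFinrankEq (by simp; omega)
  let T' : ℂ ≃ₜ ℂ := (L.symm.toHomeomorph.trans (T.prodCongr (Homeomorph.refl _))).trans
    L.toHomeomorph
  have e : ∀ x y, T' (L (x, y)) = L (T x, y) := fun x y => by simp [T']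
  have it : ∀ (k : ℕ) x y, T'^[k] (L (x, y)) = L (T^[k] x, y) := fun k x y => by
    induction k with
    | zero => rfl
    | succ k ih => rw [Function.iterate_succ_apply', Function.iterate_succ_apply', ih, e]
  obtain ⟨K, hK⟩ : ∃ K, LipschitzWith K L := ⟨_, L.lipschitz⟩
  have hd : ∀ (k : ℕ) p, dist (T'^[k] p) p ≤ K * B := by
    intro k p
    obtain ⟨⟨x, y⟩, rfl⟩ := L.surjective p
    rw [it]
    refine (hK.dist_le_mul _ _).trans (mul_le_mul_of_nonneg_left ?_ K.2)
    rw [dist_prod_same_right]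
    exact (hB x k 0).le
  obtain ⟨p, hp⟩ := plane_fix T' (B := K * B) (fun p => by rw [← dist_eq_norm]; exact hd 1 p)
    (x0 := 0) ((isBounded_closedBall (x := (0 : ℂ)) (r := K * B)).subset
      (range_subset_iff.2 fun k => hd k 0))
  obtain ⟨⟨x, y⟩, rfl⟩ := L.surjective p
  rw [e] at hp
  exact ⟨x, congrArg Prod.fst (L.injective hp)⟩

end Pool.Agent.P.MP_ff4c85_gt
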